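import Mathlib
import Pool.Agent.Work.MP_56b8f5_nt.UC.Defs

/-!
MP_a8fbd7_nt (primes in Oppermann intervals), block OX, part LV: definitions.
-/

open MeasureTheory Set Filter Topology

noncomputable section

namespace Pool.Agent.Work.MP_a8fbd7_nt.OX

/-- `F` is a Dirichlet polynomial `∑ a_n n^{-it}` with `|a_n| ≤ D`, supported in `L/B ≤ n ≤ BL` -/
def DPc (F : ℝ → ℂ) (L B D : ℝ) : Prop :=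
  ∃ a : ℕ → ℂ, (∀ n, ‖a n‖ ≤ D) ∧ (∀ n, a n ≠ 0 → 1 ≤ n ∧ L / B ≤ n ∧ (n : ℝ) ≤ B * L) ∧
    ∀ t, F t = Pool.Agent.Work.MP_56b8f5_nt.UC.Dp ⌊B * L⌋₊ a t

/-- the set `W` is `1`-separated, lies in `[T0, T0+T]`, and `|F| ≥ V` on `W` -/
def Lset (F : ℝ → ℂ) (V T0 T : ℝ) (W : Finset ℝ) : Prop :=
  Pool.Agent.Work.MP_56b8f5_nt.UC.Sep W ∧ (∀ t ∈ W, T0 ≤ t ∧ t ≤ T0 + T) ∧ ∀ t ∈ W, V ≤ ‖F t‖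

/-- the bound of `StG0` in a window of length `T1`, `x = D/V` -/
def PG (k : ℕ) (L T1 x : ℝ) : ℝ :=
  L ^ 2 * x ^ 2 + T1 ^ (4 / 3 : ℝ) * L ^ 2 * x ^ 4 + T1 ^ (1 / 2 : ℝ) * L ^ 3 * x ^ 4 +
    T1 * L ^ (10 / 3 : ℝ) * x ^ (16 / 3 : ℝ) + T1 * L ^ (18 / 5 : ℝ) * x ^ (28 / 5 : ℝ) +
    T1 ^ (3 / 2 : ℝ) * L ^ 4 * x ^ 7 + (L ^ 5 * x ^ 6 * T1 ^ (1 / (k : ℝ))) ^ ((k : ℝ) / (k + 1)) +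
    (T1 * L ^ 4 * x ^ 6) ^ ((k : ℝ) / (k + 1))

end Pool.Agent.Work.MP_a8fbd7_nt.OX
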