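import Mathlib
import Pool.Agent.Work.MP_a8fbd7_nt.OX.LV.Defs
import Pool.Agent.Work.MP_56b8f5_nt.UC.Stmts

/-!
MP_a8fbd7_nt, block OX, part LV (large value inputs): statements of the items, each with its proof in the docstring.

Every item is `theorem iNAME (h1 : StA) ... : StNAME := ...` in the file `OX/LV/I_NAME.lean`; it may use any statement
listed in its docstring as a hypothesis.  `UC.StX` are the statements of the block UC of MP_56b8f5_nt (proved in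
`MP_56b8f5_nt/UC/I_X.lean`; take them as hypotheses or import the proofs).
-/

open MeasureTheory Set Filter Topology

noncomputable section

namespace Pool.Agent.Work.MP_a8fbd7_nt.OX

open Pool.Agent.Work.MP_56b8f5_nt

/-- ITEM Pr (product of two polynomials; uses the divisor bound `Pool.Agent.Work.MP_cb106b_nt.Ct.divisor_bound` in
`MP_cb106b_nt/Ct/DivB.lean`).  Coefficients `c_n = ∑_{dm = n} a_d b_m`, `|c_n| ≤ D1 D2 d(n) ≤ D1 D2 C n^ε`, `n ≤ B1 B2 L1 L2`; `c_n ≠ 0` forces `n = dm` with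
`L1/B1 ≤ d ≤ B1 L1`, `L2/B2 ≤ m ≤ B2 L2`. -/
def StPr : Prop := ∀ ε : ℝ, 0 < ε → ∃ C : ℝ, 1 ≤ C ∧ ∀ (F1 F2 : ℝ → ℂ) (L1 L2 B1 B2 D1 D2 : ℝ), 1 ≤ L1 → 1 ≤ L2 → 1 ≤ B1 → 1 ≤ B2 →
  0 ≤ D1 → 0 ≤ D2 → DPc F1 L1 B1 D1 → DPc F2 L2 B2 D2 →
  DPc (fun t => F1 t * F2 t) (L1 * L2) (B1 * B2) (C * (B1 * B2 * (L1 * L2)) ^ ε * (D1 * D2))

/-- ITEM Pf (products of powers; uses StPr).  Induction on `m` and on the exponents (StPr with a small `ε'`; all intermediate `B^k L'` are `≤ B^E L`,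
`E = ∑ e_i`, because `B, N_i ≥ 1`; the empty product is the constant `1`, coefficient `a_1 = 1`). -/
def StPf : Prop := ∀ (m : ℕ) (e : Fin m → ℕ) (ε : ℝ), 0 < ε → ∃ C : ℝ, 1 ≤ C ∧ ∀ (f : Fin m → ℝ → ℂ) (N : Fin m → ℝ) (B D : ℝ),
  1 ≤ B → 1 ≤ D → (∀ i, 1 ≤ N i) → (∀ i, DPc (f i) (N i) B D) →
  DPc (fun t => ∏ i, f i t ^ e i) (∏ i, N i ^ e i) (B ^ ∑ i, e i)
    (C * (B ^ (∑ i, e i) * ∏ i, N i ^ e i) ^ ε * D ^ ∑ i, e i)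

/-- ITEM Dy (dyadic pieces).  `|F(t)| = |∑ a_n (2n)^{-it}|`; `2n ≥ 2` and `2n ≥ 2L/B`.  `M_0 = max(1, L/B) ≤ L`, `M_j = 2^j M_0`, `2^J ≥ 2B²`, so the intervals `(M_j, 2M_j]`,
`j < J`, are disjoint and cover all `2n` with `a_n ≠ 0`; `b j k = a_(k/2)/D` if `k` is even and in `(M_j, 2M_j]`, else `0`. -/
def StDy : Prop := ∀ B : ℝ, 1 ≤ B → ∃ J : ℕ, 1 ≤ J ∧ ∀ (F : ℝ → ℂ) (L D : ℝ), 1 ≤ L → 0 < D → DPc F L B D →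
  ∃ (b : ℕ → ℕ → ℂ) (M : ℕ → ℝ), (∀ j n, ‖b j n‖ ≤ 1) ∧ (∀ j < J, L / B ≤ M j ∧ 1 ≤ M j ∧ M j ≤ 2 ^ J * L) ∧
    ∀ t, ‖F t‖ ≤ D * ∑ j ∈ Finset.range J, ‖UC.Sd (M j) (b j) t‖

/-- ITEM Mv (mean value; uses UC.StMv).  `V² R ≤ ∑_W |F|² ≤ C (1+log Y)² (T+Y) Y D²`, `Y = ⌊BL⌋` (`Y ≥ 1`), `(1+log Y)² ≤ C L^ε`. -/
def StMv : Prop := ∀ ε B : ℝ, 0 < ε → 1 ≤ B → ∃ C : ℝ, 1 ≤ C ∧ ∀ (F : ℝ → ℂ) (L D V T0 T : ℝ) (W : Finset ℝ), 1 ≤ L → 1 ≤ T →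
  0 < D → 0 < V → DPc F L B D → Lset F V T0 T W →
  (W.card : ℝ) ≤ C * (L * T) ^ ε * ((L ^ 2 + T * L) * (D / V) ^ 2)

/-- ITEM Hx (Huxley; uses UC.StHx, StDy).  `W` is the union of the sets `W_j = {t : |Sd (M j) (b j) t| ≥ V/(DJ)}`; UC.StHx for each of them, `L/B ≤ M_j ≤ 2^J L`. -/
def StHx : Prop := ∀ B : ℝ, 1 ≤ B → ∃ C : ℝ, 1 ≤ C ∧ ∀ (F : ℝ → ℂ) (L D V T0 T : ℝ) (W : Finset ℝ), 1 ≤ L → 1 ≤ T →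
  0 < D → 0 < V → DPc F L B D → Lset F V T0 T W →
  (W.card : ℝ) ≤ C * (L ^ 2 * (D / V) ^ 2 + T * L ^ 4 * (D / V) ^ 6)

/-- ITEM G0 (Guth-Maynard values in a window of length `T1`; uses UC.StGM (with this `k`) and UC.StUp, both with `T = T1`).  `x = 1/V`, `R = #W ≥ 1` (else trivial).
The hypothesis `C T1 ≤ L²` gives the one of UC.StGM.  If `C L² > V²R` done (`L²x²`).  Write `l` for `C L^{ε'}` (all logarithms and constants, `T1 ≤ L²`, `ε'` small, `l` may change).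
UC.StUp: `V²E ≤ l (L²R + T1R²)^{1/2} (L²E + T1R⁴)^{1/2}`.  If `L²E ≥ T1R⁴`: `V²E ≤ l (L²R+T1R²)^{1/2} L E^{1/2}`, so `E ≤ l(L⁴x⁴R + T1L²x⁴R²)`; otherwise
`V²E ≤ l (L R^{1/2} + T1^{1/2}R) T1^{1/2}R²`, so in all cases `E ≤ l(L⁴x⁴R + T1L²x⁴R² + T1^{1/2}L x²R^{5/2} + T1x²R³)`.  Insert it in UC.StGM (`√E ≤ l ∑ √terms`), `(V²R/L)³ = L^{-3}x^{-6}R³`; one of the
terms on the right is at least `1/8` of the sum, and each case gives one term of `PG k L T1 x` (divide by the power of `R`):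
`T1²R^{3/2}`: `R^{3/2} ≤ l L³x⁶T1²`, `R ≤ l T1^{4/3}L²x⁴`.  `T1L(RE)^{1/2}` with the four terms of `E`: `R² ≤ l L³x⁶·T1L·L²x²`: `R ≤ l T1^{1/2}L³x⁴`;
`R^{3/2} ≤ l L³x⁶·T1^{3/2}L²x²`: `R ≤ l T1 L^{10/3}x^{16/3}`;  `R^{5/4} ≤ l L³x⁶·T1^{5/4}L^{3/2}x`: `R ≤ l T1 L^{18/5}x^{28/5}`;  `R ≤ l L³x⁶·T1^{3/2}L x`.
`L²R²(T1/R)^{1/k}`: `R^{(k+1)/k} ≤ l L³x⁶L²T1^{1/k}`;  `T1LR^{2-1/k}`: `R^{(k+1)/k} ≤ l L³x⁶T1L`. -/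
def StG0 : Prop := ∀ (k : ℕ) (ε : ℝ), 1 ≤ k → 0 < ε → ∃ C : ℝ, 1 ≤ C ∧ ∀ (L V T0 T1 : ℝ) (a : ℕ → ℂ) (W : Finset ℝ),
  1 ≤ L → L ≤ T1 → C * T1 ≤ L ^ 2 → 0 < V → (∀ n, ‖a n‖ ≤ 1) → Lset (UC.Sd L a) V T0 T1 W →
  (W.card : ℝ) ≤ C * L ^ ε * PG k L T1 (1 / V)

/-- ITEM G (Guth-Maynard values; uses StG0, StDy).  For each dyadic piece `M_j` of StDy (`L/B ≤ M_j ≤ 2^J L`) cover `[T0, T0+T]` by at most `1 + T/T1` windows of length `2^J T1` (`M_j ≤ 2^J T1`;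
`C₀ 2^J T1 ≤ M_j²` because `C T1 ≤ L²` with `C ≥ C₀ 2^J B²`), `W_j = {t : |Sd (M j) (b j) t| ≥ V/(DJ)}`; `PG` changes by a bounded factor when `L`, `T1` and `x` change by bounded factors. -/
def StG : Prop := ∀ (k : ℕ) (ε B : ℝ), 1 ≤ k → 0 < ε → 1 ≤ B → ∃ C : ℝ, 1 ≤ C ∧ ∀ (F : ℝ → ℂ) (L D V T0 T T1 : ℝ) (W : Finset ℝ),
  1 ≤ L → 1 ≤ T → L ≤ T1 → C * T1 ≤ L ^ 2 → 0 < D → 0 < V → DPc F L B D → Lset F V T0 T W →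
  (W.card : ℝ) ≤ C * L ^ ε * ((1 + T / T1) * PG k L T1 (D / V))

/-- ITEM Rb (the reflected block is a polynomial; no uses).  `Bl u M (t+y) = ∑ u(n/M) n^{-iy} n^{-it}`, support in `[aM, bM]` (`IsWt.supp`), `|u| ≤ C`.  `B ≥ max(b, 1/a, 1)`, so
`DPc (fun t => Bl u M (t+y)) M B B` for all real `y` and `M > 0`. -/
def StRb : Prop := ∀ u : ℝ → ℝ, UC.IsWt u → ∃ B : ℝ, 1 ≤ B ∧ ∀ M y : ℝ, 0 < M → DPc (fun t => UC.Bl u M (t + y)) M B B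

end Pool.Agent.Work.MP_a8fbd7_nt.OX
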