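import Mathlib
import Pool.Agent.Work.MP_a8fbd7_nt.OX.LV.Stmts

/-!
MP_a8fbd7_nt, block OX, part LV, item Pf: products of powers.  Author: helper92.
-/

noncomputable section

namespace Pool.Agent.Work.MP_a8fbd7_nt.OX

namespace Pf_aux

theorem mono {F : ℝ → ℂ} {L B D D' : ℝ} (h : DPc F L B D) (hD : D ≤ D') : DPc F L B D' := by
  obtain ⟨a, h1, h2, h3⟩ := h
  exact ⟨a, fun n => (h1 n).trans hD, h2, h3⟩

theorem one {C : ℝ} (hC : 1 ≤ C) : DPc (fun _ => (1 : ℂ)) 1 1 C := by
  refine ⟨fun n => if n = 1 then 1 else 0, ?_, ?_, ?_⟩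
  · intro n
    show ‖(if n = 1 then 1 else 0 : ℂ)‖ ≤ C
    split_ifs
    · rw [norm_one]; exact hC
    · rw [norm_zero]; linarith
  · intro n hn
    have h1 : n = 1 := by
      by_contra h
      exact hn (if_neg h)
    subst h1
    norm_num
  · intro t
    have h1 : ⌊(1 : ℝ) * 1⌋₊ = 1 := by norm_num
    rw [h1]
    simp [Pool.Agent.Work.MP_56b8f5_nt.UC.Dp]

theorem main (hPr : StPr) (m : ℕ) : ∀ (n : ℕ) (e : Fin m → ℕ), (∑ i, e i) = n →
    ∀ ε : ℝ, 0 < ε → ∃ C : ℝ, 1 ≤ C ∧ ∀ (f : Fin m → ℝ → ℂ) (N : Fin m → ℝ) (B D : ℝ),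
    1 ≤ B → 1 ≤ D → (∀ i, 1 ≤ N i) → (∀ i, DPc (f i) (N i) B D) →
    DPc (fun t => ∏ i, f i t ^ e i) (∏ i, N i ^ e i) (B ^ n)
      (C * (B ^ n * ∏ i, N i ^ e i) ^ ε * D ^ n) := by
  intro n
  induction n with
  | zero =>
    intro e he ε hε
    refine ⟨1, le_refl _, ?_⟩
    intro f N B D hB hD hN hf
    have h1 : ∀ i, e i = 0 := fun i =>
      (Finset.sum_eq_zero_iff_of_nonneg (fun i _ => Nat.zero_le (e i))).1 he i (Finset.mem_univ i)
    simp only [h1, pow_zero, Finset.prod_const_one, mul_one, Real.one_rpow]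
    exact one (le_refl _)
  | succ n ih =>
    intro e he ε hε
    have h1 : ∃ i, e i ≠ 0 := by
      by_contra h
      push Not at h
      simp [h] at he
    obtain ⟨i, hi⟩ := h1
    obtain ⟨e', he'⟩ : ∃ e' : Fin m → ℕ, e = e' + Pi.single i 1 := by
      refine ⟨fun j => e j - (Pi.single i 1 : Fin m → ℕ) j, ?_⟩
      funext j
      rw [Pi.add_apply]
      by_cases hj : j = i
      · subst hj
        rw [Pi.single_eq_same]
        omega
      · rw [Pi.single_eq_of_ne hj]
        omega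
    have hsum : ∑ j, e' j = n := by
      have h2 : ∑ j, e j = (∑ j, e' j) + 1 := by
        rw [he']
        simp only [Pi.add_apply, Finset.sum_add_distrib]
        rw [Finset.sum_pi_single']
        simp
      omega
    have hprod : ∀ {R : Type} [CommSemiring R] (g : Fin m → R),
        ∏ j, g j ^ e j = (∏ j, g j ^ e' j) * g i := by
      intro R _ g
      rw [he']
      simp only [Pi.add_apply, pow_add, Finset.prod_mul_distrib]
      congr 1
      rw [Finset.prod_eq_single i]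
      · rw [Pi.single_eq_same, pow_one]
      · intro j _ hj
        rw [Pi.single_eq_of_ne hj, pow_zero]
      · intro h
        exact absurd (Finset.mem_univ i) h
    obtain ⟨C1, hC1, h1⟩ := ih e' hsum (ε / 2) (by linarith)
    obtain ⟨C2, hC2, h2⟩ := hPr (ε / 2) (by linarith)
    refine ⟨C2 * C1, by nlinarith, ?_⟩
    intro f N B D hB hD hN hf
    have h3 := h1 f N B D hB hD hN hf
    set P : ℝ := ∏ j, N j ^ e' j with hP
    have hP1 : 1 ≤ P := by
      calc (1 : ℝ) = ∏ _j : Fin m, (1 : ℝ) := by rw [Finset.prod_const_one]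
        _ ≤ P := Finset.prod_le_prod (fun _ _ => zero_le_one) fun j _ => one_le_pow₀ (hN j)
    have hBn : 1 ≤ B ^ n := one_le_pow₀ hB
    have hDn : 1 ≤ D ^ n := one_le_pow₀ hD
    have hpos : 0 ≤ C1 * (B ^ n * P) ^ (ε / 2) * D ^ n := by positivity
    have h4 := h2 (fun t => ∏ j, f j t ^ e' j) (f i) P (N i) (B ^ n) B
      (C1 * (B ^ n * P) ^ (ε / 2) * D ^ n) D hP1 (hN i) hBn hB hpos (by linarith) h3 (hf i)
    have h5 : (fun t => ∏ j, f j t ^ e j) = fun t => (∏ j, f j t ^ e' j) * f i t := by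
      funext t
      exact hprod fun j => f j t
    have h6 : ∏ j, N j ^ e j = P * N i := hprod N
    rw [h5, h6, pow_succ]
    refine mono h4 ?_
    have hb : 0 < B ^ n * P := by positivity
    have hb' : B ^ n * P ≤ B ^ n * B * (P * N i) := by
      have e1 : B ^ n * P ≤ (B ^ n * P) * (B * N i) :=
        le_mul_of_one_le_right hb.le (one_le_mul_of_one_le_of_one_le hB (hN i))
      calc B ^ n * P ≤ (B ^ n * P) * (B * N i) := e1
        _ = B ^ n * B * (P * N i) := by ring
    have h7 : (B ^ n * P) ^ (ε / 2) ≤ (B ^ n * B * (P * N i)) ^ (ε / 2) :=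
      Real.rpow_le_rpow hb.le hb' (by linarith)
    have h8 : (B ^ n * B * (P * N i)) ^ ε =
        (B ^ n * B * (P * N i)) ^ (ε / 2) * (B ^ n * B * (P * N i)) ^ (ε / 2) := by
      rw [← Real.rpow_add (lt_of_lt_of_le hb hb')]
      congr 1
      ring
    rw [h8]
    set X := (B ^ n * B * (P * N i)) ^ (ε / 2) with hX
    have hX0 : 0 ≤ X := Real.rpow_nonneg (hb.le.trans hb') _
    have h9 : C1 * (B ^ n * P) ^ (ε / 2) * D ^ n * D ≤ C1 * X * D ^ n * D := by
      have : 0 ≤ D := by linarith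
      gcongr
    calc C2 * X * (C1 * (B ^ n * P) ^ (ε / 2) * D ^ n * D)
        ≤ C2 * X * (C1 * X * D ^ n * D) := by
          refine mul_le_mul_of_nonneg_left h9 ?_
          positivity
      _ = C2 * C1 * (X * X) * (D ^ n * D) := by ring

end Pf_aux

theorem iPf (h1 : StPr) : StPf := by
  intro m e ε hε
  exact Pf_aux.main h1 m (∑ i, e i) e rfl ε hε

end Pool.Agent.Work.MP_a8fbd7_nt.OX
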