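import Mathlib
import Pool.Agent.Work.MP_a8fbd7_nt.OX.LV.Defs
import Pool.Agent.Work.MP_56b8f5_nt.UC.Stmts

/-!
MP_a8fbd7_nt, block OX, part LV2 (Heath-Brown double sums and Jutila's large values with the better third term): statements of the
items, each with its proof in the docstring.

Every item is `theorem iNAME (h1 : StA) ... : StNAME := ...` in the file `OX/LV/I_NAME.lean`; it may use any statement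
listed in its docstring as a hypothesis.  `UC.StX` are the statements of the block UC of MP_56b8f5_nt.
Throughout `R = #W`, and `Rh(v) = ∑_{t ∈ W} v^{it}`; expanding the square, for real numbers `b_n`
`∑_{s,t ∈ W} |∑_n b_n n^{-i(s-t)}|² = ∑_{m,n} b_m b_n |Rh(m/n)|²`, a sum of nonnegative terms if all `b_n ≥ 0`.
-/

open MeasureTheory Set Filter Topology

noncomputable section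

namespace Pool.Agent.Work.MP_a8fbd7_nt.OX

open Pool.Agent.Work.MP_56b8f5_nt

/-- `S(K) = ∑_{s,t ∈ W} |∑_{n ≤ K} n^{-i(s-t)}|²` -/
def Ss (K : ℝ) (W : Finset ℝ) : ℝ :=
  ∑ s ∈ W, ∑ t ∈ W, ‖UC.Dp ⌊K⌋₊ (fun _ => 1) (s - t)‖ ^ 2

/-- ITEM J1 (positivity).  `∑_{s,t}|∑_n a_n n^{-i(s-t+y)}|² = ∑_{m,n} a_m' conj(a_n') |Rh(m/n)|²` (up to conjugation), `a_n' = a_n n^{-iy}`, `|a_n'| = |a_n| ≤ b_n`; triangle inequality. -/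
def StJ1 : Prop := ∀ (Y : ℕ) (a : ℕ → ℂ) (b : ℕ → ℝ) (W : Finset ℝ) (y : ℝ), (∀ n ∈ Finset.Icc 1 Y, ‖a n‖ ≤ b n) →
  ∑ s ∈ W, ∑ t ∈ W, ‖UC.Dp Y a (s - t + y)‖ ^ 2 ≤ ∑ s ∈ W, ∑ t ∈ W, ‖UC.Dp Y (fun n => (b n : ℂ)) (s - t)‖ ^ 2

/-- ITEM J2 (facts on `Ss`; uses StJ1).  (i) monotone in `K`: StJ1 with `Y = ⌊K'⌋`, `a_n = 1` for `n ≤ K`, `0` otherwise, `b_n = 1`.  (ii) StJ1 with `b_n = D` (homogeneity).  (iii) `‖Bl w N (s-t+y)‖`: the block is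
`Dp ⌊bN⌋ (w(n/N))` (support `⊂ [aN, bN]`, `w` bounded), then (ii) and (i). -/
def StJ2 : Prop := (∀ (K K' : ℝ) (W : Finset ℝ), K ≤ K' → Ss K W ≤ Ss K' W) ∧
  (∀ (K D y : ℝ) (a : ℕ → ℂ) (W : Finset ℝ), 0 ≤ D → (∀ n, ‖a n‖ ≤ D) →
    ∑ s ∈ W, ∑ t ∈ W, ‖UC.Dp ⌊K⌋₊ a (s - t + y)‖ ^ 2 ≤ D ^ 2 * Ss K W) ∧
  ∀ w : ℝ → ℝ, UC.IsWt w → ∃ C : ℝ, 1 ≤ C ∧ ∀ (N y : ℝ) (W : Finset ℝ), 0 < N →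
    ∑ s ∈ W, ∑ t ∈ W, ‖UC.Bl w N (s - t + y)‖ ^ 2 ≤ C * Ss (C * N) W

/-- ITEM J3 (amplification; uses the divisor bound `Pool.Agent.Work.MP_cb106b_nt.Ct.divisor_bound` in `MP_cb106b_nt/Ct/DivB.lean`).  `P = ⌊K'/K⌋ ≥ K'/(2K)`.  For `p ≤ P` and `m, n ≤ K`: `|Rh(m/n)|² = |Rh(pm/pn)|²`, `pm, pn ≤ K'`;
a pair `(M,N)` arises from at most `d(N) ≤ C K'^ε` values of `p`.  So `P Ss(K) ≤ C K'^ε Ss(K')`. -/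
def StJ3 : Prop := ∀ ε : ℝ, 0 < ε → ∃ C : ℝ, 1 ≤ C ∧ ∀ (K K' : ℝ) (W : Finset ℝ), 1 ≤ K → K ≤ K' →
  Ss K W ≤ C * K' ^ ε * (K / K') * Ss K' W

/-- ITEM J4 (smooth dyadic form; uses StJ1, the divisor bound).  `1_{n ≤ K} = ∑_j 1_{K/2^{j+1} < n ≤ K/2^j}` (`≤ 2 + log₂ K` values of `j`), Cauchy-Schwarz.  For one `j`: multiply `m, n` by the integers `p ∈ [2^{j+1}, 2^{j+2}]` (at least one): `pm, pn ∈ (K, 4K]`,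
each pair `(M,N)` arises `≤ d(N) ≤ C K^ε` times; so the part is `≤ C K^ε ∑_{K < M,N ≤ 4K} |Rh(M/N)|²`, and `1_{(K,4K]}(n) ≤ om(n/K) + om(n/2K)` (`om ≥ 0`, `om = 1` on `[1,2]`), StJ1, `|x+y|² ≤ 2|x|²+2|y|²`. -/
def StJ4 : Prop := ∀ ε : ℝ, 0 < ε → ∃ C : ℝ, 1 ≤ C ∧ ∀ (K : ℝ) (W : Finset ℝ), 1 ≤ K →
  Ss K W ≤ C * K ^ ε * ((∑ s ∈ W, ∑ t ∈ W, ‖UC.Bl UB.om K (s - t)‖ ^ 2) + ∑ s ∈ W, ∑ t ∈ W, ‖UC.Bl UB.om (2 * K) (s - t)‖ ^ 2)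

/-- ITEM J5 (base bound; uses StJ4, UC.StKp, UC.StS2).  `|Bl om N τ|² ≤ C (N²/(1+τ²)² + 1 + |τ|)`, `|τ| ≤ T`. -/
def StJ5 : Prop := ∀ ε : ℝ, 0 < ε → ∃ C : ℝ, 1 ≤ C ∧ ∀ (K T0 T : ℝ) (W : Finset ℝ), 1 ≤ K → 1 ≤ T → UC.Sep W →
  (∀ t ∈ W, T0 ≤ t ∧ t ≤ T0 + T) → Ss K W ≤ C * K ^ ε * (K ^ 2 * W.card + T * (W.card : ℝ) ^ 2)

/-- ITEM J6 (reflection; uses StJ2, StJ3, StJ4, UC.StRf, UC.StPo, UC.StN0, UC.StNs, UC.StBc, UC.StS2).  By StJ4 it is enough to bound `∑_{s,t} |Bl om N (s-t)|²` for `N = K, 2K`.  Put `τ = s - t`.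
NEAR: if `|τ| ≤ c₀ N`, `c₀ = 1/(2 c2)` (`c2` of UC.StNs for `om`), all `m ≠ 0` are nonstationary: `|Bl om N τ| ≤ C N/(1+|τ|)² + C/N` (UC.StPo, UC.StN0, UC.StNs); contribution `≤ C (N² R + R²)` (UC.StS2), this contains `s = t`.
FAR: `|τ| ≥ max(1, c₀N)` (`|τ| ≥ 1` for `s ≠ t`).  `D ≤ |τ| ≤ 2D`, `D = 2^i max(1, c₀N)`, `D ≤ T`, `O(1 + log T)` values of `i`.  UC.StRf with `A = 2`: `|Bl om N τ| ≤ C (N/√D) ∫ |Bl u (D/N) (τ+y)| (1+|y|)^{-2} dy + C`;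
square, Cauchy-Schwarz in `y`, drop the restriction on the pair `(s,t)` (all terms are nonnegative), StJ2 (iii): `≤ C (N²/D) Ss(C'D/N) + C R²`.  `Ss(C'D/N) = 0` if `C'D/N < 1`; otherwise StJ3 from `C'D/N` up to `C''T/K` (`N ≥ K`, `D ≤ T`, `C'' ≥ C'`):
`≤ C T^ε (D/N)(K/T) Ss(C''T/K)`; `(N²/D)(D/N)(K/T) ≤ 2K²/T`.  Sum over `i`; `R² ≤ K R²`. -/
def StJ6 : Prop := ∀ ε : ℝ, 0 < ε → ∃ C : ℝ, 1 ≤ C ∧ ∀ (K T0 T : ℝ) (W : Finset ℝ), 1 ≤ K → K ≤ T → UC.Sep W →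
  (∀ t ∈ W, T0 ≤ t ∧ t ≤ T0 + T) →
  Ss K W ≤ C * T ^ ε * (K ^ 2 * W.card + K * (W.card : ℝ) ^ 2 + K ^ 2 / T * Ss (C * T / K) W)

/-- ITEM J7 (powers; uses StJ1, StJ2, the divisor bound).  `(∑_{n ≤ K} a_n n^{-iτ})^k = ∑_{n ≤ K^k} c_n n^{-iτ}`, `|c_n| ≤ d_k(n) ≤ d(n)^{k-1} ≤ C K^{ε/2}`; StJ2 (ii), `⌊K⌋^k ≤ K^k`. -/
def StJ7 : Prop := ∀ (k : ℕ) (ε : ℝ), 1 ≤ k → 0 < ε → ∃ C : ℝ, 1 ≤ C ∧ ∀ (K y : ℝ) (a : ℕ → ℂ) (W : Finset ℝ), 1 ≤ K → (∀ n, ‖a n‖ ≤ 1) →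
  ∑ s ∈ W, ∑ t ∈ W, ‖UC.Dp ⌊K⌋₊ a (s - t + y)‖ ^ (2 * k) ≤ C * K ^ ε * Ss (K ^ k) W

/-- ITEM J8 (first form of Heath-Brown's bound; uses StJ2 (i), StJ3, StJ5, StJ6, StJ7).  `l` = `C T^{ε'}` (may change), `R ≥ 1`.  Let `C` be the constant of StJ6 and `K1 = C₁T^{2/3}` with `(CT/K1)² ≤ K1` and `CT/K1 ≤ K1` (`C₁ ≥ C`); suppose first `K1 ≤ T` (otherwise `T` is bounded, and `Ss(K) ≤ K²R²` with `R ≤ C`).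
(1) `K = K1`: by Cauchy-Schwarz over the `R²` pairs and StJ7 (`k = 2`): `Ss(CT/K1) ≤ R (l Ss((CT/K1)²))^{1/2} ≤ R (l Ss(K1))^{1/2}`; StJ6: `Ss(K1) ≤ l (K1²R + K1R² + (K1²/T) R Ss(K1)^{1/2})`, hence
`Ss(K1) ≤ l (K1²R + K1R² + K1⁴R²/T²) ≤ l (T^{4/3}R + T^{2/3}R²)`.  (2) `K ≤ K1`: StJ3: `Ss(K) ≤ l (K/K1) Ss(K1) ≤ l (K T^{2/3}R + K R²)`.  (3) `K1 ≤ K ≤ T`: StJ6, `CT/K ≤ K1`, (2): `(K²/T)(CT/K)(T^{2/3}R+R²) ≤ C(K T^{2/3} R + K R²)`.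
(4) `K > T`: StJ5. -/
def StJ8 : Prop := ∀ ε : ℝ, 0 < ε → ∃ C : ℝ, 1 ≤ C ∧ ∀ (K T0 T : ℝ) (W : Finset ℝ), 1 ≤ K → 1 ≤ T → UC.Sep W →
  (∀ t ∈ W, T0 ≤ t ∧ t ≤ T0 + T) →
  Ss K W ≤ C * (K * T) ^ ε * (K ^ 2 * W.card + K * (W.card : ℝ) ^ 2 + K * T ^ (2 / 3 : ℝ) * W.card)

/-- ITEM J9 (Heath-Brown's bound; uses StJ2 (i), StJ3, StJ5, StJ6, StJ7, StJ8).  If `R > T^{2/3}`: StJ8, `T^{2/3} ≤ R`.  Let `1 ≤ R ≤ T^{2/3}`, `K2 = C₂ T^{1/2}R^{1/4}` with `CT/K2 ≤ K2` (`C` of StJ6, `C₂ ≥ C`), suppose first `K2 ≤ T`.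
(1) `K = K2`: `(CT/K2)² ≤ C'' T R^{-1/2}`; Cauchy-Schwarz, StJ7 (`k = 2`), StJ8: `Ss(CT/K2) ≤ R (l Ss(C''TR^{-1/2}))^{1/2}` and `Ss(C''TR^{-1/2}) ≤ l (T²R^{-1}R + TR^{-1/2}R²)` (`T^{2/3} ≤ T R^{-1/2}`), so `Ss(CT/K2) ≤ l (T R + T^{1/2}R^{7/4})`; StJ6 with
`K2²/T = C₂²R^{1/2}`: `Ss(K2) ≤ l (T R^{3/2} + K2R² + T R^{3/2} + T^{1/2}R^{9/4}) ≤ l (K2²R + K2R²)`.  (2) `K ≤ K2`: StJ3: `Ss(K) ≤ l K (K2R + R²)`.  (3) `K2 ≤ K ≤ T`: StJ6, `CT/K ≤ K2`, (2) (if `CT/K ≥ 1`): `(K²/T)(CT/K)(K2R+R²)`.  (4) `K > T`: StJ5.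
If `K2 > T` then `T ≤ C` and everything is bounded (`Ss(K) ≤ K²R²`). -/
def StJ9 : Prop := ∀ ε : ℝ, 0 < ε → ∃ C : ℝ, 1 ≤ C ∧ ∀ (K T0 T : ℝ) (W : Finset ℝ), 1 ≤ K → 1 ≤ T → UC.Sep W →
  (∀ t ∈ W, T0 ≤ t ∧ t ≤ T0 + T) →
  Ss K W ≤ C * (K * T) ^ ε *
    (K ^ 2 * W.card + K * (W.card : ℝ) ^ 2 + K * T ^ (1 / 2 : ℝ) * (W.card : ℝ) ^ (5 / 4 : ℝ))

/-- ITEM Ja (large values, first form; uses UC.StDu, UC.StRf, UC.StPo, UC.StN0, UC.StNs, UC.StBc, UC.StS2, StJ2, StJ7, StJ9).  UC.StDu: `V²R² ≤ 2L ∑_{s,t} |Bl om L (s-t)|`.  NEAR and FAR as in StJ6 with `N = L`: near pairs `≤ C (L R + R²)`; far pairs with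
`D ≤ |s-t| ≤ 2D`, `max(1, c₀L) ≤ D ≤ T`: `≤ C (L/√D) ∫ (∑_{s,t} |Bl u (D/L) (s-t+y)|) (1+|y|)^{-2} dy + C R²`.  For fixed `y` Hölder: `∑_{s,t} |B| ≤ R^{2-1/k} (∑_{s,t} |B|^{2k})^{1/(2k)}`; `B = Dp ⌊C'D/L⌋ (…)` with bounded coefficients, StJ7 and StJ9 with
`K = (C'D/L)^k` (`B = 0` if `C'D/L < 1`): `(∑ |B|^{2k})^{1/(2k)} ≤ l (K^{1/k}R^{1/(2k)} + K^{1/(2k)}R^{1/k} + K^{1/(2k)}T^{1/(4k)}R^{5/(8k)})`.  So the far pairs give `≤ l (L/√D)((D/L) R^{2-1/(2k)} + (D/L)^{1/2}R² + (D/L)^{1/2}T^{1/(4k)}R^{2-3/(8k)})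
≤ l (√T R^{2-1/(2k)} + √L R² + √L T^{1/(4k)}R^{2-3/(8k)})`. -/
def StJa : Prop := ∀ (k : ℕ) (ε : ℝ), 1 ≤ k → 0 < ε → ∃ C : ℝ, 1 ≤ C ∧ ∀ (L V T0 T : ℝ) (a : ℕ → ℂ) (W : Finset ℝ), 1 ≤ L → 1 ≤ T → 0 < V →
  (∀ n, ‖a n‖ ≤ 1) → Lset (UC.Sd L a) V T0 T W →
  V ^ 2 * (W.card : ℝ) ^ 2 ≤ C * (L * T) ^ ε * (L ^ 2 * W.card + L * T ^ (1 / 2 : ℝ) * (W.card : ℝ) ^ (2 - 1 / (2 * (k : ℝ))) +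
    L ^ (3 / 2 : ℝ) * (W.card : ℝ) ^ 2 + L ^ (3 / 2 : ℝ) * T ^ (1 / (4 * (k : ℝ))) * (W.card : ℝ) ^ (2 - 3 / (8 * (k : ℝ))))

/-- ITEM Jb (large values in one window; uses StJa).  With `l = C (LT)^{ε'}`: the third term is `≤ V²R²/2` if the constant in the hypothesis is large; the others: `R ≤ l L²/V²`, or `R^{1/(2k)} ≤ l L√T/V²`, or `R^{3/(8k)} ≤ l L^{3/2}T^{1/(4k)}/V²`. -/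
def StJb : Prop := ∀ (k : ℕ) (ε : ℝ), 1 ≤ k → 0 < ε → ∃ C : ℝ, 1 ≤ C ∧ ∀ (L V T0 T : ℝ) (a : ℕ → ℂ) (W : Finset ℝ), 1 ≤ L → 1 ≤ T → 0 < V →
  (∀ n, ‖a n‖ ≤ 1) → Lset (UC.Sd L a) V T0 T W → C * (L * T) ^ ε * L ^ (3 / 2 : ℝ) ≤ V ^ 2 →
  (W.card : ℝ) ≤ C * (L * T) ^ ε * (L ^ 2 * (1 / V) ^ 2 + T ^ k * L ^ (2 * k) * (1 / V) ^ (4 * k) +
    T ^ (2 / 3 : ℝ) * L ^ (4 * k) * (1 / V) ^ (16 * (k : ℝ) / 3))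

/-- ITEM J (Jutila's large values with Heath-Brown's third term; uses StJb, StDy of `LV/Stmts.lean` (repeated here as hypothesis form: import it)).  Dyadic pieces `M_j` (`L/B ≤ M_j ≤ 2^J L`), `W_j = {t : |Sd (M j) (b j) t| ≥ V/(DJ)}`, at most `1 + T/T1` windows of length `T1`;
the hypothesis `C (L T1)^ε L^{3/2} ≤ (V/D)²` gives the one of StJb for each `j`. -/
def StJ : Prop := ∀ (k : ℕ) (ε B : ℝ), 1 ≤ k → 0 < ε → 1 ≤ B → ∃ C : ℝ, 1 ≤ C ∧ ∀ (F : ℝ → ℂ) (L D V T0 T T1 : ℝ) (W : Finset ℝ),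
  1 ≤ L → 1 ≤ T → 1 ≤ T1 → 0 < D → 0 < V → DPc F L B D → Lset F V T0 T W → C * (L * T1) ^ ε * L ^ (3 / 2 : ℝ) ≤ (V / D) ^ 2 →
  (W.card : ℝ) ≤ C * (L * T1) ^ ε * ((1 + T / T1) * (L ^ 2 * (D / V) ^ 2 + T1 ^ k * L ^ (2 * k) * (D / V) ^ (4 * k) +
    T1 ^ (2 / 3 : ℝ) * L ^ (4 * k) * (D / V) ^ (16 * (k : ℝ) / 3)))

end Pool.Agent.Work.MP_a8fbd7_nt.OX
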