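import Pool.Agent.Work.MP_a8fbd7_nt.OX.LV.Stmts

open Finset

noncomputable section

namespace Pool.Agent.Work.MP_a8fbd7_nt.OX

namespace Dy_aux

open Pool.Agent.Work.MP_56b8f5_nt

/-- telescoping of the dyadic ranges -/
lemma tele (c : ℕ → ℂ) (M0 : ℝ) (h0 : 0 ≤ M0) (J : ℕ) :
    ∑ j ∈ range J, ∑ k ∈ Ioc ⌊(2 : ℝ) ^ j * M0⌋₊ ⌊2 * ((2 : ℝ) ^ j * M0)⌋₊, c k =
      ∑ k ∈ Ioc ⌊M0⌋₊ ⌊(2 : ℝ) ^ J * M0⌋₊, c k := by
  induction J with
  | zero => simp
  | succ J ih =>
    rw [sum_range_succ, ih]
    have e : 2 * ((2 : ℝ) ^ J * M0) = (2 : ℝ) ^ (J + 1) * M0 := by ring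
    rw [e]
    apply sum_Ioc_consecutive
    · apply Nat.floor_mono
      have : (1 : ℝ) ≤ 2 ^ J := one_le_pow₀ (by norm_num)
      nlinarith
    · apply Nat.floor_mono
      have : (2 : ℝ) ^ J ≤ 2 ^ (J + 1) := pow_le_pow_right₀ (by norm_num) (by omega)
      exact mul_le_mul_of_nonneg_right this h0

lemma norm_two (t : ℝ) : ‖(2 : ℂ) ^ (-(t * Complex.I))‖ = 1 := by
  have h := Complex.norm_cpow_eq_rpow_re_of_pos (x := 2) (by norm_num) (-(t * Complex.I))
  simpa using h

lemma two_mul_cpow (n : ℕ) (t : ℝ) :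
    (((2 * n : ℕ) : ℂ)) ^ (-(t * Complex.I)) =
      (2 : ℂ) ^ (-(t * Complex.I)) * (n : ℂ) ^ (-(t * Complex.I)) := by
  have h := Complex.natCast_mul_natCast_cpow 2 n (-(t * Complex.I))
  push_cast at h ⊢
  exact h

end Dy_aux

open Dy_aux Pool.Agent.Work.MP_56b8f5_nt in
theorem iDy : StDy := by
  intro B hB
  obtain ⟨J, hJ⟩ := pow_unbounded_of_one_lt (2 * B ^ 2) (by norm_num : (1 : ℝ) < 2)
  refine ⟨J + 1, by omega, ?_⟩
  have hJ' : 2 * B ^ 2 ≤ (2 : ℝ) ^ (J + 1) := by
    have : (2 : ℝ) ^ J ≤ 2 ^ (J + 1) := pow_le_pow_right₀ (by norm_num) (by omega)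
    linarith
  intro F L D hL hD hF
  obtain ⟨a, ha1, ha2, ha3⟩ := hF
  have hB0 : 0 < B := by linarith
  set M0 : ℝ := max 1 (L / B) with hM0
  have hM1 : 1 ≤ M0 := le_max_left _ _
  have hMB : L / B ≤ M0 := le_max_right _ _
  have hLB : L / B ≤ L := div_le_self (by linarith) hB
  have hML : M0 ≤ L := max_le hL hLB
  refine ⟨fun _ k => if Even k then a (k / 2) / (D : ℂ) else 0, fun j => (2 : ℝ) ^ j * M0, ?_, ?_, ?_⟩
  · intro j n
    by_cases h : Even n
    · simp only [h, if_true, norm_div, Complex.norm_real, Real.norm_eq_abs, abs_of_pos hD]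
      rw [div_le_one hD]
      exact ha1 _
    · simp [h]
  · intro j hj
    have h1 : (1 : ℝ) ≤ 2 ^ j := one_le_pow₀ (by norm_num)
    have h2 : (2 : ℝ) ^ j ≤ 2 ^ (J + 1) := pow_le_pow_right₀ (by norm_num) (by omega)
    refine ⟨by nlinarith, by nlinarith, ?_⟩
    exact mul_le_mul h2 hML (by linarith) (by positivity)
  · intro t
    set s : ℂ := -(t * Complex.I) with hs
    set c : ℕ → ℂ := fun k => (if Even k then a (k / 2) / (D : ℂ) else 0) * (k : ℂ) ^ s with hc
    have hD' : (D : ℂ) ≠ 0 := by exact_mod_cast hD.ne'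
    -- the key identity
    have key : (2 : ℂ) ^ s * F t = (D : ℂ) * ∑ k ∈ Ioc ⌊M0⌋₊ ⌊(2 : ℝ) ^ (J + 1) * M0⌋₊, c k := by
      rw [ha3 t]
      unfold UC.Dp
      have e1 : (2 : ℂ) ^ s * ∑ n ∈ Icc 1 ⌊B * L⌋₊, a n * (n : ℂ) ^ (-(t * Complex.I)) =
          (D : ℂ) * ∑ n ∈ Icc 1 ⌊B * L⌋₊, c (2 * n) := by
        rw [mul_sum, mul_sum]
        apply sum_congr rfl
        intro n _
        have h2 : (2 * n) / 2 = n := by omega
        simp only [hc, even_two_mul, if_true, h2]
        have h3 := two_mul_cpow n t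
        rw [← hs] at h3
        rw [h3, ← hs]
        field_simp
      rw [e1]
      congr 1
      have inj : Set.InjOn (fun n : ℕ => 2 * n) (Icc 1 ⌊B * L⌋₊ : Finset ℕ) := by
        intro x _ y _ h
        simp only at h
        omega
      rw [← sum_image (f := c) (g := fun n : ℕ => 2 * n) inj]
      set S := (Icc 1 ⌊B * L⌋₊).image (fun n : ℕ => 2 * n) with hS
      set S' := Ioc ⌊M0⌋₊ ⌊(2 : ℝ) ^ (J + 1) * M0⌋₊ with hS'
      have hBL : 0 ≤ B * L := by positivity
      rw [sum_subset (subset_union_left (s₁ := S) (s₂ := S')),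
        sum_subset (subset_union_right (s₁ := S) (s₂ := S'))]
      · intro k hk hk'
        rw [mem_union] at hk
        rcases hk with hk | hk
        · obtain ⟨n, hn, rfl⟩ := mem_image.1 hk
          have h2 : (2 * n) / 2 = n := by omega
          simp only [hc, even_two_mul, if_true, h2]
          by_cases han : a n = 0
          · simp [han]
          · exfalso
            obtain ⟨q1, q2, q3⟩ := ha2 n han
            apply hk'
            rw [hS', mem_Ioc]
            have hn1 : (1 : ℝ) ≤ n := by exact_mod_cast q1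
            constructor
            · rw [Nat.floor_lt (by linarith)]
              push_cast
              have : M0 ≤ n := max_le hn1 q2
              linarith
            · rw [Nat.le_floor_iff (by positivity)]
              push_cast
              have h5 : L ≤ B * M0 := by
                rw [div_le_iff₀ hB0] at hMB
                linarith
              have h6 : 2 * B ^ 2 * M0 ≤ (2 : ℝ) ^ (J + 1) * M0 :=
                mul_le_mul_of_nonneg_right hJ' (by linarith)
              have h7 : B * L ≤ B * (B * M0) := mul_le_mul_of_nonneg_left h5 hB0.le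
              nlinarith
        · exact absurd hk hk'
      · intro k hk hk'
        rw [mem_union] at hk
        rcases hk with hk | hk
        · exact absurd hk hk'
        · by_cases he : Even k
          · obtain ⟨n, rfl⟩ := he
            have h2 : (n + n) / 2 = n := by omega
            have hev : Even (n + n) := ⟨n, rfl⟩
            simp only [hc, hev, if_true, h2]
            by_cases han : a n = 0
            · simp [han]
            · exfalso
              obtain ⟨q1, q2, q3⟩ := ha2 n han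
              apply hk'
              rw [hS, mem_image]
              refine ⟨n, ?_, by omega⟩
              rw [mem_Icc]
              exact ⟨q1, Nat.le_floor q3⟩
          · simp [hc, he]
    have key2 : ‖F t‖ = ‖(D : ℂ) * ∑ k ∈ Ioc ⌊M0⌋₊ ⌊(2 : ℝ) ^ (J + 1) * M0⌋₊, c k‖ := by
      rw [← key, norm_mul, hs, norm_two, one_mul]
    rw [key2, ← tele c M0 (by linarith) (J + 1), norm_mul, Complex.norm_real, Real.norm_eq_abs,
      abs_of_pos hD]
    apply mul_le_mul_of_nonneg_left _ hD.le
    exact norm_sum_le _ _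

end Pool.Agent.Work.MP_a8fbd7_nt.OX
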