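import Mathlib
import Pool.Agent.Work.MP_a8fbd7_nt.OX.LV.Stmts

/-!
MP_a8fbd7_nt, block OX, part LV, item G: large values by covering with windows and dyadic pieces.
Statement: helper98.  Proof: helper64.
-/

open MeasureTheory Set Filter Topology

noncomputable section

namespace Pool.Agent.Work.MP_a8fbd7_nt.OX

open Pool.Agent.Work.MP_56b8f5_nt

namespace G_aux

lemma term_le {A K L M T U x y : ℝ} (hA : 1 ≤ A) (hK : 1 ≤ K) (hL : 0 ≤ L) (hM : 0 ≤ M)
    (hT : 0 ≤ T) (hU : 0 ≤ U) (hx : 0 ≤ x) (hy : 0 ≤ y) (hML : M ≤ A * L) (hUT : U ≤ A * T)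
    (hyx : y ≤ K * x) {p q r : ℝ} (hp : 0 ≤ p) (hp6 : p ≤ 5)
    (hq : 0 ≤ q) (hq7 : q ≤ 7) (hr : 0 ≤ r) (hr2 : r ≤ 2) :
    U ^ r * M ^ p * y ^ q ≤ A ^ (2 : ℝ) * A ^ (5 : ℝ) * K ^ (7 : ℝ) * (T ^ r * L ^ p * x ^ q) := by
  have h0 : U ^ r ≤ A ^ (2 : ℝ) * T ^ r := by
    calc U ^ r ≤ (A * T) ^ r := Real.rpow_le_rpow hU hUT hr
      _ = A ^ r * T ^ r := Real.mul_rpow (by linarith) hT
      _ ≤ A ^ (2 : ℝ) * T ^ r := by
        apply mul_le_mul_of_nonneg_right (Real.rpow_le_rpow_of_exponent_le hA hr2)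
        positivity
  have h1 : M ^ p ≤ A ^ (5 : ℝ) * L ^ p := by
    calc M ^ p ≤ (A * L) ^ p := Real.rpow_le_rpow hM hML hp
      _ = A ^ p * L ^ p := Real.mul_rpow (by linarith) hL
      _ ≤ A ^ (5 : ℝ) * L ^ p := by
        apply mul_le_mul_of_nonneg_right (Real.rpow_le_rpow_of_exponent_le hA hp6)
        positivity
  have h2 : y ^ q ≤ K ^ (7 : ℝ) * x ^ q := by
    calc y ^ q ≤ (K * x) ^ q := Real.rpow_le_rpow hy hyx hq
      _ = K ^ q * x ^ q := Real.mul_rpow (by linarith) hx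
      _ ≤ K ^ (7 : ℝ) * x ^ q := by
        apply mul_le_mul_of_nonneg_right (Real.rpow_le_rpow_of_exponent_le hK hq7)
        positivity
  calc U ^ r * M ^ p * y ^ q ≤ (A ^ (2 : ℝ) * T ^ r) * (A ^ (5 : ℝ) * L ^ p) *
        (K ^ (7 : ℝ) * x ^ q) :=
        mul_le_mul (mul_le_mul h0 h1 (by positivity) (by positivity)) h2 (by positivity)
          (by positivity)
    _ = A ^ (2 : ℝ) * A ^ (5 : ℝ) * K ^ (7 : ℝ) * (T ^ r * L ^ p * x ^ q) := by ring

lemma pow_le {c X Y e : ℝ} (hc : 1 ≤ c) (hX : 0 ≤ X) (hY : 0 ≤ Y) (h : Y ≤ c * X) (he : 0 ≤ e)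
    (he1 : e ≤ 1) : Y ^ e ≤ c * X ^ e := by
  calc Y ^ e ≤ (c * X) ^ e := Real.rpow_le_rpow hY h he
    _ = c ^ e * X ^ e := Real.mul_rpow (by linarith) hX
    _ ≤ c * X ^ e := by
      apply mul_le_mul_of_nonneg_right _ (by positivity)
      calc c ^ e ≤ c ^ (1 : ℝ) := Real.rpow_le_rpow_of_exponent_le hc he1
        _ = c := Real.rpow_one c

lemma PG_eq (k : ℕ) (L T x : ℝ) : PG k L T x =
    T ^ (0 : ℝ) * L ^ (2 : ℝ) * x ^ (2 : ℝ) +
    T ^ (4 / 3 : ℝ) * L ^ (2 : ℝ) * x ^ (4 : ℝ) + T ^ (1 / 2 : ℝ) * L ^ (3 : ℝ) * x ^ (4 : ℝ) +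
    T ^ (1 : ℝ) * L ^ (10 / 3 : ℝ) * x ^ (16 / 3 : ℝ) +
    T ^ (1 : ℝ) * L ^ (18 / 5 : ℝ) * x ^ (28 / 5 : ℝ) +
    T ^ (3 / 2 : ℝ) * L ^ (4 : ℝ) * x ^ (7 : ℝ) +
    (T ^ (1 / (k : ℝ)) * L ^ (5 : ℝ) * x ^ (6 : ℝ)) ^ ((k : ℝ) / (k + 1)) +
    (T ^ (1 : ℝ) * L ^ (4 : ℝ) * x ^ (6 : ℝ)) ^ ((k : ℝ) / (k + 1)) := by
  have e2 : ∀ z : ℝ, z ^ (2 : ℝ) = z ^ 2 := fun z => by exact_mod_cast Real.rpow_natCast z 2
  have e3 : ∀ z : ℝ, z ^ (3 : ℝ) = z ^ 3 := fun z => by exact_mod_cast Real.rpow_natCast z 3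
  have e4 : ∀ z : ℝ, z ^ (4 : ℝ) = z ^ 4 := fun z => by exact_mod_cast Real.rpow_natCast z 4
  have e5 : ∀ z : ℝ, z ^ (5 : ℝ) = z ^ 5 := fun z => by exact_mod_cast Real.rpow_natCast z 5
  have e6 : ∀ z : ℝ, z ^ (6 : ℝ) = z ^ 6 := fun z => by exact_mod_cast Real.rpow_natCast z 6
  have e7 : ∀ z : ℝ, z ^ (7 : ℝ) = z ^ 7 := fun z => by exact_mod_cast Real.rpow_natCast z 7
  rw [e2, e2, e3, e4, e4, e5, e6, e7, Real.rpow_zero, Real.rpow_one, one_mul]
  have h7 : T ^ (1 / (k : ℝ)) * L ^ 5 * x ^ 6 = L ^ 5 * x ^ 6 * T ^ (1 / (k : ℝ)) := by ring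
  rw [h7]
  rfl

lemma PG_le {k : ℕ} (hk : 1 ≤ k) {A K L M T U x y : ℝ} (hA : 1 ≤ A) (hK : 1 ≤ K) (hL : 0 ≤ L)
    (hM : 0 ≤ M) (hT : 0 ≤ T) (hU : 0 ≤ U) (hx : 0 ≤ x)
    (hy : 0 ≤ y) (hML : M ≤ A * L) (hUT : U ≤ A * T) (hyx : y ≤ K * x) :
    PG k M U y ≤ A ^ (2 : ℝ) * A ^ (5 : ℝ) * K ^ (7 : ℝ) * PG k L T x := by
  rw [PG_eq, PG_eq]
  have hk1 : (1 : ℝ) ≤ k := by exact_mod_cast hk
  have hc : 1 ≤ A ^ (2 : ℝ) * A ^ (5 : ℝ) * K ^ (7 : ℝ) :=
    one_le_mul_of_one_le_of_one_le (one_le_mul_of_one_le_of_one_le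
      (Real.one_le_rpow hA (by norm_num)) (Real.one_le_rpow hA (by norm_num)))
      (Real.one_le_rpow hK (by norm_num))
  have he0 : 0 ≤ (k : ℝ) / (k + 1) := by positivity
  have he1 : (k : ℝ) / (k + 1) ≤ 1 := by
    rw [div_le_one (by positivity)]
    linarith
  have hk2 : 1 / (k : ℝ) ≤ 1 := by
    rw [div_le_one (by positivity)]
    exact hk1
  have t := @term_le A K L M T U x y hA hK hL hM hT hU hx hy hML hUT hyx
  have t1 := @t 2 2 0 (by norm_num) (by norm_num) (by norm_num) (by norm_num) (by norm_num)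
    (by norm_num)
  have t2 := @t 2 4 (4 / 3) (by norm_num) (by norm_num) (by norm_num) (by norm_num) (by norm_num)
    (by norm_num)
  have t3 := @t 3 4 (1 / 2) (by norm_num) (by norm_num) (by norm_num) (by norm_num) (by norm_num)
    (by norm_num)
  have t4 := @t (10 / 3) (16 / 3) 1 (by norm_num) (by norm_num) (by norm_num) (by norm_num)
    (by norm_num) (by norm_num)
  have t5 := @t (18 / 5) (28 / 5) 1 (by norm_num) (by norm_num) (by norm_num) (by norm_num)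
    (by norm_num) (by norm_num)
  have t6 := @t 4 7 (3 / 2) (by norm_num) (by norm_num) (by norm_num) (by norm_num) (by norm_num)
    (by norm_num)
  have t7 := pow_le hc (by positivity) (by positivity)
    (@t 5 6 (1 / k) (by norm_num) (by norm_num) (by norm_num) (by norm_num) (by positivity)
      (by linarith)) he0 he1
  have t8 := pow_le hc (by positivity) (by positivity)
    (@t 4 6 1 (by norm_num) (by norm_num) (by norm_num) (by norm_num) (by norm_num)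
      (by norm_num)) he0 he1
  linarith

lemma PG_nonneg {k : ℕ} {L T x : ℝ} (hL : 0 ≤ L) (hT : 0 ≤ T) (hx : 0 ≤ x) : 0 ≤ PG k L T x := by
  unfold PG
  positivity

/-- covering an interval by windows -/
lemma card_windows {W : Finset ℝ} {T0 T H Q : ℝ} (hT : 0 ≤ T) (hH : 0 < H) (hQ : 0 ≤ Q)
    (hW : ∀ t ∈ W, T0 ≤ t ∧ t ≤ T0 + T)
    (hwin : ∀ a : ℝ, ((W.filter fun t => a ≤ t ∧ t ≤ a + H).card : ℝ) ≤ Q) :
    (W.card : ℝ) ≤ (1 + T / H) * Q := by
  classical
  set n : ℕ := ⌊T / H⌋₊ with hn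
  have hsub : W ⊆ (Finset.range (n + 1)).biUnion fun i =>
      W.filter fun t => T0 + i * H ≤ t ∧ t ≤ T0 + i * H + H := by
    intro t ht
    obtain ⟨h1, h2⟩ := hW t ht
    rw [Finset.mem_biUnion]
    have h0 : 0 ≤ (t - T0) / H := div_nonneg (by linarith) hH.le
    refine ⟨⌊(t - T0) / H⌋₊, ?_, ?_⟩
    · rw [Finset.mem_range]
      have : ⌊(t - T0) / H⌋₊ ≤ n := Nat.floor_le_floor (by gcongr; linarith)
      omega
    · rw [Finset.mem_filter]
      refine ⟨ht, ?_, ?_⟩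
      · have := Nat.floor_le h0
        rw [le_div_iff₀ hH] at this
        linarith
      · have := (Nat.lt_floor_add_one ((t - T0) / H)).le
        rw [div_le_iff₀ hH] at this
        linarith
  have h1 : (W.card : ℝ) ≤ ∑ i ∈ Finset.range (n + 1),
      ((W.filter fun t => T0 + i * H ≤ t ∧ t ≤ T0 + i * H + H).card : ℝ) := by
    have := (Finset.card_le_card hsub).trans Finset.card_biUnion_le
    exact_mod_cast this
  refine h1.trans ?_
  calc ∑ i ∈ Finset.range (n + 1),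
      ((W.filter fun t => T0 + i * H ≤ t ∧ t ≤ T0 + i * H + H).card : ℝ)
      ≤ ∑ i ∈ Finset.range (n + 1), Q := Finset.sum_le_sum fun i _ => hwin _
    _ = ((n : ℝ) + 1) * Q := by
      rw [Finset.sum_const, Finset.card_range, nsmul_eq_mul]
      push_cast
      ring
    _ ≤ (1 + T / H) * Q := by
      apply mul_le_mul_of_nonneg_right _ hQ
      have := Nat.floor_le (div_nonneg hT hH.le)
      linarith

end G_aux

open G_aux in
theorem iG (h1 : StG0) (h2 : StDy) : StG := by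
  classical
  intro k ε B hk hε hB
  obtain ⟨C0, hC0, hG0⟩ := h1 k ε hk hε
  obtain ⟨J, hJ, hDy⟩ := h2 B hB
  have hJ1 : (1 : ℝ) ≤ J := by exact_mod_cast hJ
  set A : ℝ := 2 ^ J with hA
  have hA1 : 1 ≤ A := one_le_pow₀ (by norm_num)
  have hAe : 1 ≤ A ^ ε := Real.one_le_rpow hA1 hε.le
  set G : ℝ := A ^ (2 : ℝ) * A ^ (5 : ℝ) * (J : ℝ) ^ (7 : ℝ) with hG
  have hG1 : 1 ≤ G := one_le_mul_of_one_le_of_one_le (one_le_mul_of_one_le_of_one_le
      (Real.one_le_rpow hA1 (by norm_num)) (Real.one_le_rpow hA1 (by norm_num)))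
      (Real.one_le_rpow hJ1 (by norm_num))
  have hB2 : 1 ≤ B ^ 2 := one_le_pow₀ hB
  set C1 : ℝ := J * (C0 * (A ^ ε * G)) with hC1
  have hC11 : 1 ≤ C1 := one_le_mul_of_one_le_of_one_le hJ1 (one_le_mul_of_one_le_of_one_le hC0
    (one_le_mul_of_one_le_of_one_le hAe hG1))
  have hC2 : 1 ≤ C0 * A * B ^ 2 := one_le_mul_of_one_le_of_one_le
    (one_le_mul_of_one_le_of_one_le hC0 hA1) hB2
  refine ⟨C1 + C0 * A * B ^ 2, by linarith, ?_⟩
  intro F L D V T0 T T1 W hL hT hLT hTL hD hV hF hW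
  obtain ⟨b, M, hb, hM, hFt⟩ := hDy F L D hL hD hF
  obtain ⟨hsep, hint, hval⟩ := hW
  have hJpos : (0 : ℝ) < J := by linarith
  have hL0 : (0 : ℝ) < L := by linarith
  have hT1 : (0 : ℝ) < T1 := by linarith
  have hDV : 0 ≤ D / V := by positivity
  have hPG : 0 ≤ PG k L T1 (D / V) := PG_nonneg hL0.le hT1.le hDV
  -- the pieces
  set Wj : ℕ → Finset ℝ := fun j => W.filter fun t => V / (D * J) ≤ ‖UC.Sd (M j) (b j) t‖ with hWj
  have hcov : W ⊆ (Finset.range J).biUnion Wj := by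
    intro t ht
    rw [Finset.mem_biUnion]
    by_contra hcon
    push Not at hcon
    have h3 : ∀ j ∈ Finset.range J, ‖UC.Sd (M j) (b j) t‖ < V / (D * J) := by
      intro j hj
      have := hcon j hj
      rw [hWj] at this
      simp only [Finset.mem_filter, not_and, not_le] at this
      exact this ht
    have hne : (Finset.range J).Nonempty := ⟨0, Finset.mem_range.2 (by omega)⟩
    have h4 : ∑ j ∈ Finset.range J, ‖UC.Sd (M j) (b j) t‖ < ∑ j ∈ Finset.range J, V / (D * J) :=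
      Finset.sum_lt_sum_of_nonempty hne h3
    rw [Finset.sum_const, Finset.card_range, nsmul_eq_mul] at h4
    have h5 := hval t ht
    have h6 := hFt t
    have h7 : D * ∑ j ∈ Finset.range J, ‖UC.Sd (M j) (b j) t‖ < D * (J * (V / (D * J))) :=
      mul_lt_mul_of_pos_left h4 hD
    have h8 : D * (J * (V / (D * J))) = V := by field_simp
    linarith
  -- each piece
  have hpiece : ∀ j ∈ Finset.range J, ((Wj j).card : ℝ) ≤
      (C0 * (A ^ ε * G)) * (L ^ ε * ((1 + T / T1) * PG k L T1 (D / V))) := by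
    intro j hj
    rw [Finset.mem_range] at hj
    obtain ⟨hM1, hM2, hM3⟩ := hM j hj
    have hM0 : 0 < M j := by linarith
    set H : ℝ := A * T1 with hH
    have hHpos : 0 < H := by positivity
    have hTH : T1 ≤ H := by
      rw [hH]
      nlinarith
    set Q : ℝ := C0 * (M j) ^ ε * PG k (M j) H (1 / (V / (D * J))) with hQ
    have hQ0 : 0 ≤ Q := by
      have : 0 ≤ PG k (M j) H (1 / (V / (D * J))) := PG_nonneg hM0.le hHpos.le (by positivity)
      positivity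
    have hMH : M j ≤ H := hM3.trans (by rw [hH]; gcongr)
    have hLB : L ≤ B * M j := by
      rw [div_le_iff₀ (by linarith)] at hM1
      linarith
    have hHM : C0 * H ≤ M j ^ 2 := by
      have h3 : L ^ 2 ≤ B ^ 2 * M j ^ 2 := by
        rw [← mul_pow]
        exact pow_le_pow_left₀ hL0.le hLB 2
      have h4 : C0 * A * B ^ 2 * T1 ≤ (C1 + C0 * A * B ^ 2) * T1 := by
        apply mul_le_mul_of_nonneg_right _ hT1.le
        linarith
      have h5 : B ^ 2 * (C0 * H) ≤ B ^ 2 * M j ^ 2 := by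
        calc B ^ 2 * (C0 * H) = C0 * A * B ^ 2 * T1 := by rw [hH]; ring
          _ ≤ L ^ 2 := h4.trans hTL
          _ ≤ _ := h3
      exact le_of_mul_le_mul_left h5 (by linarith)
    have hwin : ∀ a : ℝ, (((Wj j).filter fun t => a ≤ t ∧ t ≤ a + H).card : ℝ) ≤ Q := by
      intro a
      apply hG0 (M j) (V / (D * J)) a H (b j) _ hM2 hMH hHM (by positivity) (hb j)
      refine ⟨?_, ?_, ?_⟩
      · intro s hs t ht hst
        rw [Finset.mem_filter, hWj, Finset.mem_filter] at hs ht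
        exact hsep s hs.1.1 t ht.1.1 hst
      · intro t ht
        rw [Finset.mem_filter] at ht
        exact ht.2
      · intro t ht
        rw [Finset.mem_filter, hWj, Finset.mem_filter] at ht
        exact ht.1.2
    have h3 := card_windows (by linarith : (0 : ℝ) ≤ T) hHpos hQ0 (W := Wj j) (T0 := T0)
      (fun t ht => hint t (by rw [hWj, Finset.mem_filter] at ht; exact ht.1)) hwin
    refine h3.trans ?_
    -- compare
    have h4 : 1 + T / H ≤ 1 + T / T1 := by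
      gcongr
    have h5 : Q ≤ C0 * (A ^ ε * G) * (L ^ ε * PG k L T1 (D / V)) := by
      have h6 : (M j) ^ ε ≤ A ^ ε * L ^ ε := by
        rw [← Real.mul_rpow (by linarith) hL0.le]
        exact Real.rpow_le_rpow hM0.le hM3 hε.le
      have h7 : PG k (M j) H (1 / (V / (D * J))) ≤ G * PG k L T1 (D / V) := by
        apply PG_le hk hA1 hJ1 hL0.le hM0.le hT1.le hHpos.le hDV (by positivity) hM3 le_rfl
        apply le_of_eq
        field_simp
      rw [hQ]
      calc C0 * (M j) ^ ε * PG k (M j) H (1 / (V / (D * J)))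
          ≤ C0 * (A ^ ε * L ^ ε) * (G * PG k L T1 (D / V)) := by
            apply mul_le_mul _ h7 (PG_nonneg hM0.le hHpos.le (by positivity)) (by positivity)
            exact mul_le_mul_of_nonneg_left h6 (by linarith)
        _ = C0 * (A ^ ε * G) * (L ^ ε * PG k L T1 (D / V)) := by ring
    have hTL' : 0 ≤ T / T1 := by positivity
    calc (1 + T / H) * Q ≤ (1 + T / T1) *
          (C0 * (A ^ ε * G) * (L ^ ε * PG k L T1 (D / V))) := by
          apply mul_le_mul h4 h5 hQ0 (by positivity)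
      _ = _ := by ring
  have h9 : (W.card : ℝ) ≤ ∑ j ∈ Finset.range J, ((Wj j).card : ℝ) := by
    have := (Finset.card_le_card hcov).trans Finset.card_biUnion_le
    exact_mod_cast this
  have h10 : (W.card : ℝ) ≤ C1 * (L ^ ε * ((1 + T / T1) * PG k L T1 (D / V))) := by
    refine h9.trans ((Finset.sum_le_sum hpiece).trans (le_of_eq ?_))
    rw [Finset.sum_const, Finset.card_range, nsmul_eq_mul, hC1]
    ring
  have h11 : 0 ≤ L ^ ε * ((1 + T / T1) * PG k L T1 (D / V)) := by positivity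
  have h12 : C1 * (L ^ ε * ((1 + T / T1) * PG k L T1 (D / V))) ≤
      (C1 + C0 * A * B ^ 2) * (L ^ ε * ((1 + T / T1) * PG k L T1 (D / V))) := by
    apply mul_le_mul_of_nonneg_right _ h11
    linarith
  calc (W.card : ℝ) ≤ _ := h10.trans h12
    _ = _ := by ring

end Pool.Agent.Work.MP_a8fbd7_nt.OX
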