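import Mathlib
import Pool.Agent.Work.MP_a8fbd7_nt.OX.LV.Stmts

/-!
MP_a8fbd7_nt, block OX, part LV, item G0: Guth-Maynard values in one window.
-/

open MeasureTheory Set Filter Topology

noncomputable section

namespace Pool.Agent.Work.MP_a8fbd7_nt.OX

open Pool.Agent.Work.MP_56b8f5_nt

namespace G0_aux

lemma EN_nonneg (W : Finset ℝ) : 0 ≤ UC.EN W := by
  unfold UC.EN
  apply Finset.sum_nonneg; intro t1 _
  apply Finset.sum_nonneg; intro t2 _
  apply Finset.sum_nonneg; intro t3 _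
  apply Finset.sum_nonneg; intro t4 _
  positivity

/-- the energy bound -/
lemma energy {K l τ r x E : ℝ} (hK : 1 ≤ K) (hl : 0 < l) (hτ : 0 < τ) (hr : 0 < r) (hx : 0 < x)
    (hE : 0 ≤ E)
    (h : E ≤ K * x ^ 2 * Real.sqrt (l ^ 4 * r ^ 4 + τ ^ 4 * r ^ 8) *
      Real.sqrt (l ^ 4 * E + τ ^ 4 * r ^ 16)) :
    Real.sqrt E ≤ 2 * K * (l ^ 4 * x ^ 2 * r ^ 2 + τ ^ 2 * l ^ 2 * x ^ 2 * r ^ 4 +
      l * τ * x * r ^ 5 + τ ^ 2 * x * r ^ 6) := by
  have hA : Real.sqrt (l ^ 4 * r ^ 4 + τ ^ 4 * r ^ 8) ≤ l ^ 2 * r ^ 2 + τ ^ 2 * r ^ 4 := by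
    apply Real.sqrt_le_iff.2
    refine ⟨by positivity, ?_⟩
    have : 0 ≤ l ^ 2 * r ^ 2 * (τ ^ 2 * r ^ 4) := by positivity
    nlinarith
  have hs := Real.sq_sqrt hE
  have hs0 := Real.sqrt_nonneg E
  rcases le_total (τ ^ 4 * r ^ 16) (l ^ 4 * E) with hc | hc
  · have hB : Real.sqrt (l ^ 4 * E + τ ^ 4 * r ^ 16) ≤ 2 * (l ^ 2 * Real.sqrt E) := by
      apply Real.sqrt_le_iff.2
      refine ⟨by positivity, ?_⟩
      have : (2 * (l ^ 2 * Real.sqrt E)) ^ 2 = 4 * l ^ 4 * E := by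
        rw [show (2 * (l ^ 2 * Real.sqrt E)) ^ 2 = 4 * l ^ 4 * (Real.sqrt E) ^ 2 by ring, hs]
      rw [this]
      have : 0 ≤ l ^ 4 * E := by positivity
      nlinarith
    have h1 : E ≤ K * x ^ 2 * (l ^ 2 * r ^ 2 + τ ^ 2 * r ^ 4) * (2 * (l ^ 2 * Real.sqrt E)) := by
      refine h.trans ?_
      gcongr
    rcases eq_or_lt_of_le hs0 with h0 | h0
    · rw [← h0]; positivity
    · have h2 : Real.sqrt E * Real.sqrt E ≤
          (K * x ^ 2 * (l ^ 2 * r ^ 2 + τ ^ 2 * r ^ 4) * (2 * l ^ 2)) * Real.sqrt E := by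
        have : Real.sqrt E * Real.sqrt E = E := Real.mul_self_sqrt hE
        rw [this]
        refine h1.trans (le_of_eq (by ring))
      have h3 := le_of_mul_le_mul_right h2 h0
      refine h3.trans ?_
      have : 0 ≤ 2 * K * (l * τ * x * r ^ 5 + τ ^ 2 * x * r ^ 6) := by positivity
      nlinarith
  · have hB : Real.sqrt (l ^ 4 * E + τ ^ 4 * r ^ 16) ≤ 2 * (τ ^ 2 * r ^ 8) := by
      apply Real.sqrt_le_iff.2
      refine ⟨by positivity, ?_⟩
      have : 0 ≤ τ ^ 4 * r ^ 16 := by positivity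
      nlinarith
    have h1 : E ≤ K * x ^ 2 * (l ^ 2 * r ^ 2 + τ ^ 2 * r ^ 4) * (2 * (τ ^ 2 * r ^ 8)) := by
      refine h.trans ?_
      gcongr
    apply Real.sqrt_le_iff.2
    refine ⟨by positivity, ?_⟩
    have hu : 0 ≤ l ^ 4 * x ^ 2 * r ^ 2 + τ ^ 2 * l ^ 2 * x ^ 2 * r ^ 4 := by positivity
    have hv : 0 ≤ l * τ * x * r ^ 5 + τ ^ 2 * x * r ^ 6 := by positivity
    have hw : (2 * K * (l * τ * x * r ^ 5 + τ ^ 2 * x * r ^ 6)) ^ 2 ≤
        (2 * K * (l ^ 4 * x ^ 2 * r ^ 2 + τ ^ 2 * l ^ 2 * x ^ 2 * r ^ 4 +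
          l * τ * x * r ^ 5 + τ ^ 2 * x * r ^ 6)) ^ 2 := by
      apply pow_le_pow_left₀ (by positivity)
      gcongr
      linarith
    refine h1.trans (le_trans ?_ hw)
    have e1 : (2 * K * (l * τ * x * r ^ 5 + τ ^ 2 * x * r ^ 6)) ^ 2 =
        4 * K ^ 2 * (x ^ 2 * (l ^ 2 * τ ^ 2 * r ^ 10 + τ ^ 4 * r ^ 12)) +
          8 * K ^ 2 * (l * τ ^ 3 * x ^ 2 * r ^ 11) := by ring
    have e2 : K * x ^ 2 * (l ^ 2 * r ^ 2 + τ ^ 2 * r ^ 4) * (2 * (τ ^ 2 * r ^ 8)) =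
        2 * K * (x ^ 2 * (l ^ 2 * τ ^ 2 * r ^ 10 + τ ^ 4 * r ^ 12)) := by ring
    rw [e1, e2]
    have h5 : 0 ≤ x ^ 2 * (l ^ 2 * τ ^ 2 * r ^ 10 + τ ^ 4 * r ^ 12) := by positivity
    have h6 : 0 ≤ 8 * K ^ 2 * (l * τ ^ 3 * x ^ 2 * r ^ 11) := by positivity
    have h7 : 2 * K ≤ 4 * K ^ 2 := by nlinarith
    nlinarith [mul_le_mul_of_nonneg_right h7 h5]

/-- one case -/
lemma case {K p w : ℝ} (hK : 1 ≤ K) (e θ p' : ℝ) (hθ : 1 ≤ θ) (he : e + θ = 3)
    (hp : p' * θ = p) (h : Real.exp (3 * w) ≤ K * Real.exp (p + e * w)) :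
    Real.exp w ≤ K * Real.exp p' := by
  have hK0 : 0 < K := by linarith
  obtain ⟨k, hk⟩ : ∃ k, K = Real.exp k := ⟨Real.log K, (Real.exp_log hK0).symm⟩
  have hk0 : 0 ≤ k := by
    rw [← Real.exp_le_exp, Real.exp_zero, ← hk]; exact hK
  rw [hk, ← Real.exp_add, Real.exp_le_exp] at h
  rw [hk, ← Real.exp_add, Real.exp_le_exp]
  obtain rfl : e = 3 - θ := by linarith
  have h1 : θ * w ≤ k + p' * θ := by rw [hp]; linarith
  have h2 : θ * (w - p') ≤ k := by nlinarith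
  by_contra hc
  push Not at hc
  have h3 : k < w - p' := by linarith
  nlinarith

/-- the seven cases -/
lemma cases7 {K w t1 t2 t3 t4 t5 t6 t7 : ℝ} {P : Prop}
    (h : Real.exp (3 * w) ≤ K * (t1 + t2 + t3 + t4 + t5 + t6 + t7))
    (h1 : Real.exp (3 * w) ≤ 7 * K * t1 → P) (h2 : Real.exp (3 * w) ≤ 7 * K * t2 → P)
    (h3 : Real.exp (3 * w) ≤ 7 * K * t3 → P) (h4 : Real.exp (3 * w) ≤ 7 * K * t4 → P)
    (h5 : Real.exp (3 * w) ≤ 7 * K * t5 → P) (h6 : Real.exp (3 * w) ≤ 7 * K * t6 → P)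
    (h7 : Real.exp (3 * w) ≤ 7 * K * t7 → P) : P := by
  by_contra hP
  have g1 := not_le.1 (fun h' => hP (h1 h'))
  have g2 := not_le.1 (fun h' => hP (h2 h'))
  have g3 := not_le.1 (fun h' => hP (h3 h'))
  have g4 := not_le.1 (fun h' => hP (h4 h'))
  have g5 := not_le.1 (fun h' => hP (h5 h'))
  have g6 := not_le.1 (fun h' => hP (h6 h'))
  have g7 := not_le.1 (fun h' => hP (h7 h'))
  linarith

/-- the main case, in exponential coordinates `L = e^u`, `1/V = e^v`, `R = e^w`, `T = e^s` -/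
lemma main {k : ℕ} (hk : 1 ≤ k) {u v w s K C E : ℝ} (hK : 1 ≤ K) (hC : 1 ≤ C) (hE : 0 ≤ E)
    (hUp : E ≤ K * (Real.exp v) ^ 2 *
      Real.sqrt ((Real.exp u) ^ 2 * Real.exp w + Real.exp s * (Real.exp w) ^ 2) *
      Real.sqrt ((Real.exp u) ^ 2 * E + Real.exp s * (Real.exp w) ^ 4))
    (hGM : (Real.exp w) ^ 3 ≤ C * (Real.exp u) ^ 3 * (Real.exp v) ^ 6 *
      ((Real.exp s) ^ 2 * (Real.exp w * Real.sqrt (Real.exp w)) +
        Real.exp s * Real.exp u * Real.sqrt (Real.exp w) * Real.sqrt E +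
        (Real.exp u) ^ 2 * (Real.exp w) ^ 2 *
          (Real.exp s / Real.exp w) ^ (1 / (k : ℝ)) +
        Real.exp s * Real.exp u * (Real.exp w) ^ (2 - 1 / (k : ℝ)))) :
    Real.exp w ≤ 7 * (2 * K * C) * PG k (Real.exp u) (Real.exp s) (Real.exp v) := by
  have hk0 : (0 : ℝ) < k := by exact_mod_cast hk
  obtain ⟨κ, hκ⟩ : ∃ κ : ℝ, κ = 1 / (k : ℝ) := ⟨_, rfl⟩
  have hκ0 : 0 < κ := by rw [hκ]; positivity
  have hkκ : (k : ℝ) / (k + 1) * (1 + κ) = 1 := by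
    rw [hκ]; field_simp
  rw [← hκ] at hGM
  obtain ⟨μ, hμ⟩ : ∃ μ : ℝ, μ = (k : ℝ) / (k + 1) := ⟨_, rfl⟩
  rw [← hμ] at hkκ
  have hPG : PG k (Real.exp u) (Real.exp s) (Real.exp v) = Real.exp (2 * u + 2 * v) +
      Real.exp (2 * u + 4 * v + 4 / 3 * s) + Real.exp (3 * u + 4 * v + 1 / 2 * s) +
      Real.exp (10 / 3 * u + 16 / 3 * v + s) + Real.exp (18 / 5 * u + 28 / 5 * v + s) +
      Real.exp (4 * u + 7 * v + 3 / 2 * s) + Real.exp ((5 * u + 6 * v + κ * s) * μ) +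
      Real.exp ((4 * u + 6 * v + s) * μ) := by
    unfold PG
    rw [← hκ, ← hμ]
    simp only [← Real.exp_nat_mul, ← Real.exp_mul, ← Real.exp_add]
    congr 1
    · congr 1
      · congr 1
        · congr 1
          · congr 1
            · congr 1
              · congr 1
                · congr 1; push_cast; ring
              · congr 1; push_cast; ring
            · congr 1; ring
          · congr 1; ring
        · congr 1; push_cast; ring
      · congr 1; push_cast; ring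
    · congr 1; push_cast; ring
  have hS := energy (l := Real.exp (1 / 2 * u)) (τ := Real.exp (1 / 4 * s))
    (r := Real.exp (1 / 4 * w)) (x := Real.exp v) hK (Real.exp_pos _) (Real.exp_pos _)
    (Real.exp_pos _) (Real.exp_pos _) hE (by
      refine hUp.trans (le_of_eq ?_)
      have e1 : (Real.exp u) ^ 2 = Real.exp (1 / 2 * u) ^ 4 := by
        rw [← Real.exp_nat_mul, ← Real.exp_nat_mul]; congr 1; push_cast; ring
      have e2 : Real.exp s = Real.exp (1 / 4 * s) ^ 4 := by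
        rw [← Real.exp_nat_mul]; congr 1; push_cast; ring
      have e3 : Real.exp w = Real.exp (1 / 4 * w) ^ 4 := by
        rw [← Real.exp_nat_mul]; congr 1; push_cast; ring
      rw [e1, e2, e3, ← pow_mul, ← pow_mul])
  have hS' : Real.sqrt E ≤ 2 * K * (Real.exp (2 * u + 2 * v + 1 / 2 * w) +
      Real.exp (u + 2 * v + 1 / 2 * s + w) + Real.exp (1 / 2 * u + v + 1 / 4 * s + 5 / 4 * w) +
      Real.exp (v + 1 / 2 * s + 3 / 2 * w)) := by
    refine hS.trans (le_of_eq ?_)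
    simp only [← Real.exp_nat_mul, ← Real.exp_add]
    congr 1
    congr 1
    · congr 1
      · congr 1
        · congr 1; push_cast; ring
        · congr 1; push_cast; ring
      · congr 1; push_cast; ring
    · congr 1; push_cast; ring
  have hh : Real.sqrt (Real.exp w) = Real.exp (1 / 2 * w) := by
    rw [← Real.exp_half]; congr 1; ring
  have hM : Real.exp (3 * w) ≤ (2 * K * C) * (Real.exp (3 * u + 6 * v + 2 * s + 3 / 2 * w) +
      Real.exp (6 * u + 8 * v + s + 1 * w) + Real.exp (5 * u + 8 * v + 3 / 2 * s + 3 / 2 * w) +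
      Real.exp (9 / 2 * u + 7 * v + 5 / 4 * s + 7 / 4 * w) +
      Real.exp (4 * u + 7 * v + 3 / 2 * s + 2 * w) +
      Real.exp (5 * u + 6 * v + κ * s + (2 - κ) * w) +
      Real.exp (4 * u + 6 * v + s + (2 - κ) * w)) := by
    have a0 : Real.exp (3 * w) = (Real.exp w) ^ 3 := by
      rw [← Real.exp_nat_mul]; congr 1
    have a1 : Real.exp (3 * u + 6 * v + 2 * s + 3 / 2 * w) = (Real.exp u) ^ 3 *
        (Real.exp v) ^ 6 * ((Real.exp s) ^ 2 * (Real.exp w * Real.sqrt (Real.exp w))) := by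
      rw [hh]; simp only [← Real.exp_nat_mul, ← Real.exp_add]; congr 1; push_cast; ring
    have a2 : Real.exp (6 * u + 8 * v + s + 1 * w) = (Real.exp u) ^ 3 * (Real.exp v) ^ 6 *
        (Real.exp s * Real.exp u * Real.sqrt (Real.exp w)) *
        Real.exp (2 * u + 2 * v + 1 / 2 * w) := by
      rw [hh]; simp only [← Real.exp_nat_mul, ← Real.exp_add]; congr 1; push_cast; ring
    have a3 : Real.exp (5 * u + 8 * v + 3 / 2 * s + 3 / 2 * w) = (Real.exp u) ^ 3 *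
        (Real.exp v) ^ 6 * (Real.exp s * Real.exp u * Real.sqrt (Real.exp w)) *
        Real.exp (u + 2 * v + 1 / 2 * s + w) := by
      rw [hh]; simp only [← Real.exp_nat_mul, ← Real.exp_add]; congr 1; push_cast; ring
    have a4 : Real.exp (9 / 2 * u + 7 * v + 5 / 4 * s + 7 / 4 * w) = (Real.exp u) ^ 3 *
        (Real.exp v) ^ 6 * (Real.exp s * Real.exp u * Real.sqrt (Real.exp w)) *
        Real.exp (1 / 2 * u + v + 1 / 4 * s + 5 / 4 * w) := by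
      rw [hh]; simp only [← Real.exp_nat_mul, ← Real.exp_add]; congr 1; push_cast; ring
    have a5 : Real.exp (4 * u + 7 * v + 3 / 2 * s + 2 * w) = (Real.exp u) ^ 3 * (Real.exp v) ^ 6 *
        (Real.exp s * Real.exp u * Real.sqrt (Real.exp w)) *
        Real.exp (v + 1 / 2 * s + 3 / 2 * w) := by
      rw [hh]; simp only [← Real.exp_nat_mul, ← Real.exp_add]; congr 1; push_cast; ring
    have a6 : Real.exp (5 * u + 6 * v + κ * s + (2 - κ) * w) = (Real.exp u) ^ 3 *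
        (Real.exp v) ^ 6 * ((Real.exp u) ^ 2 * (Real.exp w) ^ 2 *
          (Real.exp s / Real.exp w) ^ κ) := by
      rw [← Real.exp_sub]
      simp only [← Real.exp_nat_mul, ← Real.exp_mul, ← Real.exp_add]; congr 1; push_cast; ring
    have a7 : Real.exp (4 * u + 6 * v + s + (2 - κ) * w) = (Real.exp u) ^ 3 * (Real.exp v) ^ 6 *
        (Real.exp s * Real.exp u * (Real.exp w) ^ (2 - κ)) := by
      simp only [← Real.exp_nat_mul, ← Real.exp_mul, ← Real.exp_add]; congr 1; push_cast; ring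
    obtain ⟨P, hP⟩ : ∃ P, P = (Real.exp u) ^ 3 * (Real.exp v) ^ 6 := ⟨_, rfl⟩
    obtain ⟨Q, hQ⟩ : ∃ Q, Q = Real.exp s * Real.exp u * Real.sqrt (Real.exp w) :=
      ⟨_, rfl⟩
    obtain ⟨X1, hX1⟩ : ∃ X, X = (Real.exp s) ^ 2 * (Real.exp w * Real.sqrt (Real.exp w)) :=
      ⟨_, rfl⟩
    obtain ⟨X6, hX6⟩ : ∃ X, X = (Real.exp u) ^ 2 * (Real.exp w) ^ 2 *
          (Real.exp s / Real.exp w) ^ κ := ⟨_, rfl⟩
    obtain ⟨X7, hX7⟩ : ∃ X, X = Real.exp s * Real.exp u * (Real.exp w) ^ (2 - κ) := ⟨_, rfl⟩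
    rw [show C * (Real.exp u) ^ 3 * (Real.exp v) ^ 6 = C * P by rw [hP]; ring, ← hX1, ← hQ,
      ← hX6, ← hX7] at hGM
    rw [← hP, ← hX1] at a1
    rw [← hP, ← hQ] at a2 a3 a4 a5
    rw [← hP, ← hX6] at a6
    rw [← hP, ← hX7] at a7
    have hP0 : 0 ≤ P := by rw [hP]; positivity
    have hQ0 : 0 ≤ Q := by rw [hQ]; positivity
    have h11 : 0 ≤ P * X1 := by rw [← a1]; positivity
    have h16 : 0 ≤ P * X6 := by rw [← a6]; positivity
    have h17 : 0 ≤ P * X7 := by rw [← a7]; positivity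
    have hQS : C * (P * Q * Real.sqrt E) ≤ C * (P * Q * (2 * K *
      (Real.exp (2 * u + 2 * v + 1 / 2 * w) +
      Real.exp (u + 2 * v + 1 / 2 * s + w) + Real.exp (1 / 2 * u + v + 1 / 4 * s + 5 / 4 * w) +
      Real.exp (v + 1 / 2 * s + 3 / 2 * w)))) := by
      gcongr
    have hC1 : C ≤ 2 * K * C := by nlinarith
    have h21 := mul_le_mul_of_nonneg_right hC1 h11
    have h26 := mul_le_mul_of_nonneg_right hC1 h16
    have h27 := mul_le_mul_of_nonneg_right hC1 h17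
    rw [a0, a1, a2, a3, a4, a5, a6, a7]
    refine hGM.trans ?_
    have e1 : C * P * (X1 + Q * Real.sqrt E + X6 + X7) =
      C * (P * X1) + C * (P * Q * Real.sqrt E) + C * (P * X6) + C * (P * X7) := by ring
    rw [e1]
    refine (show _ ≤ (2 * K * C) * (P * X1) + C * (P * Q * (2 * K *
      (Real.exp (2 * u + 2 * v + 1 / 2 * w) +
      Real.exp (u + 2 * v + 1 / 2 * s + w) + Real.exp (1 / 2 * u + v + 1 / 4 * s + 5 / 4 * w) +
      Real.exp (v + 1 / 2 * s + 3 / 2 * w)))) + (2 * K * C) * (P * X6) + (2 * K * C) * (P * X7)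
      by linarith).trans (le_of_eq (by ring))
  have hKC : 1 ≤ 7 * (2 * K * C) := by nlinarith
  have hKC0 : 0 ≤ 7 * (2 * K * C) := by linarith
  have hb : ∀ p' : ℝ, Real.exp w ≤ 7 * (2 * K * C) * Real.exp p' →
      Real.exp p' ≤ PG k (Real.exp u) (Real.exp s) (Real.exp v) →
      Real.exp w ≤ 7 * (2 * K * C) * PG k (Real.exp u) (Real.exp s) (Real.exp v) :=
    fun p' h1 h2 => h1.trans (mul_le_mul_of_nonneg_left h2 hKC0)
  have q1 := Real.exp_pos (2 * u + 2 * v)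
  have q2 := Real.exp_pos (2 * u + 4 * v + 4 / 3 * s)
  have q3 := Real.exp_pos (3 * u + 4 * v + 1 / 2 * s)
  have q4 := Real.exp_pos (10 / 3 * u + 16 / 3 * v + s)
  have q5 := Real.exp_pos (18 / 5 * u + 28 / 5 * v + s)
  have q6 := Real.exp_pos (4 * u + 7 * v + 3 / 2 * s)
  have q7 := Real.exp_pos ((5 * u + 6 * v + κ * s) * μ)
  have q8 := Real.exp_pos ((4 * u + 6 * v + s) * μ)
  refine cases7 hM ?_ ?_ ?_ ?_ ?_ ?_ ?_ <;> intro h
  · exact hb _ (case hKC (3 / 2) (3 / 2) (2 * u + 4 * v + 4 / 3 * s) (by norm_num) (by norm_num)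
      (by ring) h) (by rw [hPG]; linarith)
  · exact hb _ (case hKC 1 2 (3 * u + 4 * v + 1 / 2 * s) (by norm_num) (by norm_num)
      (by ring) h) (by rw [hPG]; linarith)
  · exact hb _ (case hKC (3 / 2) (3 / 2) (10 / 3 * u + 16 / 3 * v + s) (by norm_num)
      (by norm_num) (by ring) h) (by rw [hPG]; linarith)
  · exact hb _ (case hKC (7 / 4) (5 / 4) (18 / 5 * u + 28 / 5 * v + s) (by norm_num)
      (by norm_num) (by ring) h) (by rw [hPG]; linarith)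
  · exact hb _ (case hKC 2 1 (4 * u + 7 * v + 3 / 2 * s) (by norm_num) (by norm_num)
      (by ring) h) (by rw [hPG]; linarith)
  · exact hb _ (case hKC (2 - κ) (1 + κ) ((5 * u + 6 * v + κ * s) * μ) (by linarith) (by ring)
      (by rw [mul_assoc, hkκ, mul_one]) h) (by rw [hPG]; linarith)
  · exact hb _ (case hKC (2 - κ) (1 + κ) ((4 * u + 6 * v + s) * μ) (by linarith) (by ring)
      (by rw [mul_assoc, hkκ, mul_one]) h) (by rw [hPG]; linarith)

end G0_aux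

open G0_aux in
theorem iG0 (h1 : UC.StGM) (h2 : UC.StUp) : StG0 := by
  intro k ε hk hε
  obtain ⟨C1, hC1, hGM⟩ := h1 k (ε / 4) hk (by positivity)
  obtain ⟨C2, hC2, hUp⟩ := h2
  obtain ⟨δ, hδ⟩ : ∃ δ : ℝ, δ = ε / 2 := ⟨_, rfl⟩
  have hδ0 : 0 < δ := by rw [hδ]; positivity
  have hC10 : 0 < C1 := by linarith
  have hC20 : 0 < C2 := by linarith
  have hδ1 : 0 < 1 + 1 / δ := by positivity
  have h3 : 0 < 14 * C1 * C2 * (1 + 1 / δ) := by positivity
  refine ⟨C1 + 14 * C1 * C2 * (1 + 1 / δ), by linarith, ?_⟩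
  intro L V T0 T1 a W hL hLT hCT hV ha hW
  obtain ⟨hsep, hint, hval⟩ := hW
  have hL0 : 0 < L := by linarith
  have hT1 : 1 ≤ T1 := by linarith
  have hT10 : 0 < T1 := by linarith
  have hx0 : 0 < 1 / V := by positivity
  have hLε : 1 ≤ L ^ ε := Real.one_le_rpow hL hε.le
  have hPG0 : L ^ 2 * (1 / V) ^ 2 ≤ PG k L T1 (1 / V) := by
    unfold PG
    have : 0 ≤ T1 ^ (4 / 3 : ℝ) * L ^ 2 * (1 / V) ^ 4 + T1 ^ (1 / 2 : ℝ) * L ^ 3 * (1 / V) ^ 4 +
      T1 * L ^ (10 / 3 : ℝ) * (1 / V) ^ (16 / 3 : ℝ) +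
      T1 * L ^ (18 / 5 : ℝ) * (1 / V) ^ (28 / 5 : ℝ) +
      T1 ^ (3 / 2 : ℝ) * L ^ 4 * (1 / V) ^ 7 +
      (L ^ 5 * (1 / V) ^ 6 * T1 ^ (1 / (k : ℝ))) ^ ((k : ℝ) / (k + 1)) +
      (T1 * L ^ 4 * (1 / V) ^ 6) ^ ((k : ℝ) / (k + 1)) := by positivity
    linarith
  have hPGn : 0 ≤ PG k L T1 (1 / V) := le_trans (by positivity) hPG0
  have hgen : ∀ c : ℝ, 0 ≤ c → c ≤ C1 → (W.card : ℝ) ≤ c * (L ^ 2 * (1 / V) ^ 2) →
      (W.card : ℝ) ≤ (C1 + 14 * C1 * C2 * (1 + 1 / δ)) * L ^ ε * PG k L T1 (1 / V) := by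
    intro c hc hc' h
    refine h.trans ?_
    have h4 : c ≤ (C1 + 14 * C1 * C2 * (1 + 1 / δ)) * L ^ ε := by nlinarith
    exact mul_le_mul h4 hPG0 (by positivity) (by positivity)
  rcases W.eq_empty_or_nonempty with hWe | hWn
  · apply hgen 0 le_rfl (by positivity)
    rw [hWe]; simp
  have hR1 : (1 : ℝ) ≤ W.card := by exact_mod_cast hWn.card_pos
  have hR0 : (0 : ℝ) < W.card := by linarith
  have hc1 : C1 * T1 ≤ L ^ 2 := by
    refine le_trans ?_ hCT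
    have : 0 ≤ 14 * C1 * C2 * (1 + 1 / δ) * T1 := by positivity
    linarith
  by_cases hc2 : C1 * L ^ 2 ≤ V ^ 2 * W.card
  swap
  · push Not at hc2
    apply hgen C1 hC10.le le_rfl
    have h11 : C1 * (L ^ 2 * (1 / V) ^ 2) = C1 * L ^ 2 / V ^ 2 := by
      field_simp
    rw [h11, le_div_iff₀ (by positivity)]
    linarith
  have hE0 := EN_nonneg W
  have hG := hGM T0 T1 L V a W hL hLT hc1 hV ha hWn hsep hint hval hc2
  have hU := hUp T0 T1 L V a W hL hT1 hV.le ha hsep hint hval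
  obtain ⟨u, hu⟩ : ∃ u, L = Real.exp u := ⟨Real.log L, (Real.exp_log hL0).symm⟩
  obtain ⟨s, hs⟩ : ∃ s, T1 = Real.exp s := ⟨Real.log T1, (Real.exp_log hT10).symm⟩
  obtain ⟨w, hw⟩ : ∃ w, (W.card : ℝ) = Real.exp w := ⟨Real.log W.card, (Real.exp_log hR0).symm⟩
  obtain ⟨v, hv⟩ : ∃ v, 1 / V = Real.exp v := ⟨Real.log (1 / V), (Real.exp_log hx0).symm⟩
  have hlog0 : 0 ≤ Real.log L := Real.log_nonneg hL
  have hK1 : 1 ≤ C2 * (1 + Real.log L) := by nlinarith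
  have hTε : 1 ≤ T1 ^ (ε / 4) := Real.one_le_rpow hT1 (by positivity)
  have hCC1 : 1 ≤ C1 * T1 ^ (ε / 4) := by nlinarith
  have hmain := main hk (u := u) (v := v) (w := w) (s := s) (E := UC.EN W) hK1 hCC1 hE0 (by
    rw [← hu, ← hs, ← hw, ← hv]
    have h12 : UC.EN W = (1 / V) ^ 2 * (V ^ 2 * UC.EN W) := by field_simp
    calc UC.EN W = (1 / V) ^ 2 * (V ^ 2 * UC.EN W) := h12
      _ ≤ (1 / V) ^ 2 * (C2 * (1 + Real.log L) *
          Real.sqrt (L ^ 2 * W.card + T1 * (W.card : ℝ) ^ 2) *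
          Real.sqrt (L ^ 2 * UC.EN W + T1 * (W.card : ℝ) ^ 4)) :=
        mul_le_mul_of_nonneg_left hU (by positivity)
      _ = _ := by ring) (by
    rw [← hu, ← hs, ← hw, ← hv]
    have h13 : (W.card : ℝ) ^ 3 = L ^ 3 * (1 / V) ^ 6 * (V ^ 2 * W.card / L) ^ 3 := by
      field_simp
    calc (W.card : ℝ) ^ 3 = L ^ 3 * (1 / V) ^ 6 * (V ^ 2 * W.card / L) ^ 3 := h13
      _ ≤ L ^ 3 * (1 / V) ^ 6 * _ := mul_le_mul_of_nonneg_left hG (by positivity)
      _ = _ := by ring)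
  rw [← hu, ← hs, ← hv, ← hw] at hmain
  refine hmain.trans ?_
  apply mul_le_mul_of_nonneg_right _ hPGn
  have hlog : 1 + Real.log L ≤ (1 + 1 / δ) * L ^ δ := by
    have h14 := Real.log_le_rpow_div hL0.le hδ0
    have h15 : 1 ≤ L ^ δ := Real.one_le_rpow hL hδ0.le
    have : (1 + 1 / δ) * L ^ δ = L ^ δ + L ^ δ / δ := by ring
    rw [this]; linarith
  have hTp : T1 ^ (ε / 4) ≤ L ^ (ε / 2) := by
    have h16 : T1 ≤ L ^ 2 := by nlinarith
    have h17 : T1 ^ (ε / 4) ≤ (L ^ 2) ^ (ε / 4) :=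
      Real.rpow_le_rpow hT10.le h16 (by positivity)
    refine h17.trans (le_of_eq ?_)
    rw [← Real.rpow_natCast, ← Real.rpow_mul hL0.le]; congr 1; push_cast; ring
  have hsum : L ^ δ * L ^ (ε / 2) = L ^ ε := by
    rw [← Real.rpow_add hL0]; congr 1; rw [hδ]; ring
  calc 7 * (2 * (C2 * (1 + Real.log L)) * (C1 * T1 ^ (ε / 4)))
      ≤ 7 * (2 * (C2 * ((1 + 1 / δ) * L ^ δ)) * (C1 * L ^ (ε / 2))) := by
        gcongr
    _ = (14 * C1 * C2 * (1 + 1 / δ)) * (L ^ δ * L ^ (ε / 2)) := by ring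
    _ = (14 * C1 * C2 * (1 + 1 / δ)) * L ^ ε := by rw [hsum]
    _ ≤ (C1 + 14 * C1 * C2 * (1 + 1 / δ)) * L ^ ε := by
        gcongr
        linarith

end Pool.Agent.Work.MP_a8fbd7_nt.OX
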