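/-
Block OX (problem MP_a8fbd7_nt), part LV, item Hx: Huxley's large value bound for dyadic pieces.
Author: helper22.
-/
import Pool.Agent.Work.MP_a8fbd7_nt.OX.LV.Stmts

set_option autoImplicit false

open MeasureTheory Set Filter Topology

noncomputable section

namespace Pool.Agent.Work.MP_a8fbd7_nt.OX

open Pool.Agent.Work.MP_56b8f5_nt

namespace Hx_aux

/-- a large sum of `J` norms has a large term -/
theorem exists_large (J : ℕ) (hJ : 1 ≤ J) (D V x : ℝ) (f : ℕ → ℝ) (hD : 0 < D)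
    (h : V ≤ x) (hx : x ≤ D * ∑ j ∈ Finset.range J, f j) :
    ∃ j ∈ Finset.range J, V / (D * J) ≤ f j := by
  by_contra hcon
  push Not at hcon
  have hJ0 : (0 : ℝ) < J := by exact_mod_cast hJ
  have h1 : ∑ j ∈ Finset.range J, f j < ∑ _j ∈ Finset.range J, V / (D * J) :=
    Finset.sum_lt_sum_of_nonempty ⟨0, Finset.mem_range.mpr hJ⟩ hcon
  rw [Finset.sum_const, Finset.card_range, nsmul_eq_mul] at h1
  have h2 : D * ∑ j ∈ Finset.range J, f j < D * (J * (V / (D * J))) :=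
    mul_lt_mul_of_pos_left h1 hD
  have h3 : D * (J * (V / (D * J))) = V := by
    field_simp
  linarith

/-- comparison of the bounds for one piece -/
theorem piece (J : ℕ) (hJ : 1 ≤ J) (L D V T m C₁ : ℝ) (hL : 1 ≤ L) (hD : 0 < D) (hV : 0 < V)
    (hT : 1 ≤ T) (hC : 1 ≤ C₁) (hm : 1 ≤ m) (hmL : m ≤ 2 ^ J * L) :
    C₁ * (m ^ 2 / (V / (D * J)) ^ 2 + T * m ^ 4 / (V / (D * J)) ^ 6)
      ≤ C₁ * (2 ^ J) ^ 4 * J ^ 6 * (L ^ 2 * (D / V) ^ 2 + T * L ^ 4 * (D / V) ^ 6) := by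
  have hJ0 : (1 : ℝ) ≤ J := by exact_mod_cast hJ
  have hP : (1 : ℝ) ≤ 2 ^ J := one_le_pow₀ (by norm_num)
  have hx : 0 < D / V := by positivity
  have e1 : m ^ 2 / (V / (D * J)) ^ 2 = m ^ 2 * J ^ 2 * (D / V) ^ 2 := by
    field_simp
  have e2 : T * m ^ 4 / (V / (D * J)) ^ 6 = T * m ^ 4 * J ^ 6 * (D / V) ^ 6 := by
    field_simp
  rw [e1, e2]
  have hm0 : 0 ≤ m := by linarith
  have b1 : m ^ 2 * J ^ 2 * (D / V) ^ 2 ≤ ((2 ^ J) ^ 4 * J ^ 6) * (L ^ 2 * (D / V) ^ 2) := by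
    have c1 : m ^ 2 ≤ (2 ^ J) ^ 4 * L ^ 2 := by
      calc m ^ 2 ≤ (2 ^ J * L) ^ 2 := pow_le_pow_left₀ hm0 hmL 2
        _ = (2 ^ J) ^ 2 * L ^ 2 := by ring
        _ ≤ (2 ^ J) ^ 4 * L ^ 2 := by
          refine mul_le_mul_of_nonneg_right (pow_le_pow_right₀ hP (by norm_num)) (by positivity)
    have c2 : (J : ℝ) ^ 2 ≤ J ^ 6 := pow_le_pow_right₀ hJ0 (by norm_num)
    calc m ^ 2 * J ^ 2 * (D / V) ^ 2
        ≤ ((2 ^ J) ^ 4 * L ^ 2) * J ^ 6 * (D / V) ^ 2 := by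
          refine mul_le_mul_of_nonneg_right ?_ (by positivity)
          exact mul_le_mul c1 c2 (by positivity) (by positivity)
      _ = _ := by ring
  have b2 : T * m ^ 4 * J ^ 6 * (D / V) ^ 6
      ≤ ((2 ^ J) ^ 4 * J ^ 6) * (T * L ^ 4 * (D / V) ^ 6) := by
    have c1 : m ^ 4 ≤ (2 ^ J) ^ 4 * L ^ 4 := by
      calc m ^ 4 ≤ (2 ^ J * L) ^ 4 := pow_le_pow_left₀ hm0 hmL 4
        _ = (2 ^ J) ^ 4 * L ^ 4 := by ring
    calc T * m ^ 4 * J ^ 6 * (D / V) ^ 6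
        ≤ T * ((2 ^ J) ^ 4 * L ^ 4) * J ^ 6 * (D / V) ^ 6 := by
          refine mul_le_mul_of_nonneg_right ?_ (by positivity)
          refine mul_le_mul_of_nonneg_right ?_ (by positivity)
          exact mul_le_mul_of_nonneg_left c1 (by linarith)
      _ = _ := by ring
  calc C₁ * (m ^ 2 * J ^ 2 * (D / V) ^ 2 + T * m ^ 4 * J ^ 6 * (D / V) ^ 6)
      ≤ C₁ * (((2 ^ J) ^ 4 * J ^ 6) * (L ^ 2 * (D / V) ^ 2) +
          ((2 ^ J) ^ 4 * J ^ 6) * (T * L ^ 4 * (D / V) ^ 6)) :=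
        mul_le_mul_of_nonneg_left (add_le_add b1 b2) (by linarith)
    _ = _ := by ring

end Hx_aux

theorem iHx (h1 : UC.StHx) (h2 : StDy) : StHx := by
  intro B hB
  obtain ⟨J, hJ, hDy⟩ := h2 B hB
  obtain ⟨C₁, hC₁, hHx⟩ := h1
  have hJ0 : (1 : ℝ) ≤ J := by exact_mod_cast hJ
  have hP : (1 : ℝ) ≤ 2 ^ J := one_le_pow₀ (by norm_num)
  refine ⟨J * (C₁ * (2 ^ J) ^ 4 * J ^ 6), ?_, ?_⟩
  · have a1 : (1 : ℝ) ≤ (2 ^ J) ^ 4 := one_le_pow₀ hP
    have a2 : (1 : ℝ) ≤ (J : ℝ) ^ 6 := one_le_pow₀ hJ0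
    exact one_le_mul_of_one_le_of_one_le hJ0
      (one_le_mul_of_one_le_of_one_le (one_le_mul_of_one_le_of_one_le hC₁ a1) a2)
  · intro F L D V T0 T W hL hT hD hV hF hW
    obtain ⟨b, M, hb, hM, hFt⟩ := hDy F L D hL hD hF
    obtain ⟨hsep, hwin, hlarge⟩ := hW
    have hcov : W ⊆ (Finset.range J).biUnion
        (fun j => W.filter fun t => V / (D * J) ≤ ‖UC.Sd (M j) (b j) t‖) := by
      intro t ht
      obtain ⟨j, hj, hjt⟩ := Hx_aux.exists_large J hJ D V ‖F t‖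
        (fun j => ‖UC.Sd (M j) (b j) t‖) hD (hlarge t ht) (hFt t)
      exact Finset.mem_biUnion.mpr ⟨j, hj, Finset.mem_filter.mpr ⟨ht, hjt⟩⟩
    have hcard : (W.card : ℝ) ≤ ∑ j ∈ Finset.range J,
        ((W.filter fun t => V / (D * J) ≤ ‖UC.Sd (M j) (b j) t‖).card : ℝ) := by
      have := (Finset.card_le_card hcov).trans Finset.card_biUnion_le
      exact_mod_cast this
    refine hcard.trans ?_
    have hone : ∀ j ∈ Finset.range J,
        ((W.filter fun t => V / (D * J) ≤ ‖UC.Sd (M j) (b j) t‖).card : ℝ)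
          ≤ C₁ * (2 ^ J) ^ 4 * J ^ 6 * (L ^ 2 * (D / V) ^ 2 + T * L ^ 4 * (D / V) ^ 6) := by
      intro j hj
      rw [Finset.mem_range] at hj
      obtain ⟨-, hM1, hM2⟩ := hM j hj
      refine le_trans ?_ (Hx_aux.piece J hJ L D V T (M j) C₁ hL hD hV hT hC₁ hM1 hM2)
      refine hHx T0 T (M j) (V / (D * J)) (b j) _ hM1 hT (by positivity) (hb j) ?_ ?_ ?_
      · intro s hs t ht hst
        exact hsep s (Finset.mem_filter.mp hs).1 t (Finset.mem_filter.mp ht).1 hst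
      · intro t ht
        exact hwin t (Finset.mem_filter.mp ht).1
      · intro t ht
        exact (Finset.mem_filter.mp ht).2
    refine (Finset.sum_le_sum hone).trans (le_of_eq ?_)
    rw [Finset.sum_const, Finset.card_range, nsmul_eq_mul]
    ring

end Pool.Agent.Work.MP_a8fbd7_nt.OX
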