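import Mathlib
import Pool.Agent.Work.MP_a8fbd7_nt.OX.LV.Stmts
import Pool.Agent.Work.MP_a8fbd7_nt.OX.LV.Stmts2

/-!
MP_a8fbd7_nt, block OX, part LV2, item J: Jutila's large values with Heath-Brown's third term, by
covering with windows and dyadic pieces.  Statement: helper98.  Proof: helper36, after I_G of
helper64.
-/

open MeasureTheory Set Filter Topology

noncomputable section

namespace Pool.Agent.Work.MP_a8fbd7_nt.OX

open Pool.Agent.Work.MP_56b8f5_nt

namespace J_aux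

/-- the bracket of `StJb` -/
def PJ (k : ℕ) (L T x : ℝ) : ℝ :=
  L ^ 2 * x ^ 2 + T ^ k * L ^ (2 * k) * x ^ (4 * k) +
    T ^ (2 / 3 : ℝ) * L ^ (4 * k) * x ^ (16 * (k : ℝ) / 3)

lemma PJ_nonneg {k : ℕ} {L T x : ℝ} (hL : 0 ≤ L) (hT : 0 ≤ T) (hx : 0 ≤ x) : 0 ≤ PJ k L T x := by
  unfold PJ
  positivity

lemma PJ_le {k : ℕ} (hk : 1 ≤ k) {A K L M T x : ℝ} (hA : 1 ≤ A) (hK : 1 ≤ K) (hL : 0 ≤ L)
    (hM : 0 ≤ M) (hT : 0 ≤ T) (hx : 0 ≤ x) (hML : M ≤ A * L) :
    PJ k M T (K * x) ≤ A ^ (4 * k) * K ^ (6 * k) * PJ k L T x := by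
  have hk1 : (1 : ℝ) ≤ k := by exact_mod_cast hk
  have hp : ∀ p : ℕ, p ≤ 4 * k → M ^ p ≤ A ^ (4 * k) * L ^ p := by
    intro p hp
    calc M ^ p ≤ (A * L) ^ p := pow_le_pow_left₀ hM hML p
      _ = A ^ p * L ^ p := mul_pow _ _ _
      _ ≤ A ^ (4 * k) * L ^ p :=
        mul_le_mul_of_nonneg_right (pow_le_pow_right₀ hA hp) (by positivity)
  have hq : ∀ q : ℕ, q ≤ 6 * k → (K * x) ^ q ≤ K ^ (6 * k) * x ^ q := by
    intro q hq
    rw [mul_pow]
    exact mul_le_mul_of_nonneg_right (pow_le_pow_right₀ hK hq) (by positivity)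
  have hr : (K * x) ^ (16 * (k : ℝ) / 3) ≤ K ^ (6 * k) * x ^ (16 * (k : ℝ) / 3) := by
    rw [Real.mul_rpow (by linarith) hx]
    apply mul_le_mul_of_nonneg_right _ (by positivity)
    calc K ^ (16 * (k : ℝ) / 3) ≤ K ^ (((6 * k : ℕ) : ℝ)) := by
          apply Real.rpow_le_rpow_of_exponent_le hK
          push_cast
          linarith
      _ = K ^ (6 * k) := Real.rpow_natCast _ _
  have t1 : M ^ 2 * (K * x) ^ 2 ≤ A ^ (4 * k) * K ^ (6 * k) * (L ^ 2 * x ^ 2) := by
    calc M ^ 2 * (K * x) ^ 2 ≤ (A ^ (4 * k) * L ^ 2) * (K ^ (6 * k) * x ^ 2) :=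
          mul_le_mul (hp 2 (by omega)) (hq 2 (by omega)) (by positivity) (by positivity)
      _ = _ := by ring
  have t2 : T ^ k * M ^ (2 * k) * (K * x) ^ (4 * k) ≤
      A ^ (4 * k) * K ^ (6 * k) * (T ^ k * L ^ (2 * k) * x ^ (4 * k)) := by
    calc T ^ k * M ^ (2 * k) * (K * x) ^ (4 * k)
        ≤ T ^ k * (A ^ (4 * k) * L ^ (2 * k)) * (K ^ (6 * k) * x ^ (4 * k)) := by
          apply mul_le_mul _ (hq _ (by omega)) (by positivity) (by positivity)
          exact mul_le_mul_of_nonneg_left (hp _ (by omega)) (by positivity)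
      _ = _ := by ring
  have t3 : T ^ (2 / 3 : ℝ) * M ^ (4 * k) * (K * x) ^ (16 * (k : ℝ) / 3) ≤
      A ^ (4 * k) * K ^ (6 * k) *
        (T ^ (2 / 3 : ℝ) * L ^ (4 * k) * x ^ (16 * (k : ℝ) / 3)) := by
    calc T ^ (2 / 3 : ℝ) * M ^ (4 * k) * (K * x) ^ (16 * (k : ℝ) / 3)
        ≤ T ^ (2 / 3 : ℝ) * (A ^ (4 * k) * L ^ (4 * k)) *
            (K ^ (6 * k) * x ^ (16 * (k : ℝ) / 3)) := by
          apply mul_le_mul _ hr (by positivity) (by positivity)
          exact mul_le_mul_of_nonneg_left (hp _ le_rfl) (by positivity)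
      _ = _ := by ring
  unfold PJ
  linarith

/-- covering an interval by windows -/
lemma card_windows {W : Finset ℝ} {T0 T H Q : ℝ} (hT : 0 ≤ T) (hH : 0 < H) (hQ : 0 ≤ Q)
    (hW : ∀ t ∈ W, T0 ≤ t ∧ t ≤ T0 + T)
    (hwin : ∀ a : ℝ, ((W.filter fun t => a ≤ t ∧ t ≤ a + H).card : ℝ) ≤ Q) :
    (W.card : ℝ) ≤ (1 + T / H) * Q := by
  classical
  set n : ℕ := ⌊T / H⌋₊ with hn
  have hsub : W ⊆ (Finset.range (n + 1)).biUnion fun i =>
      W.filter fun t => T0 + i * H ≤ t ∧ t ≤ T0 + i * H + H := by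
    intro t ht
    obtain ⟨h1, h2⟩ := hW t ht
    rw [Finset.mem_biUnion]
    have h0 : 0 ≤ (t - T0) / H := div_nonneg (by linarith) hH.le
    refine ⟨⌊(t - T0) / H⌋₊, ?_, ?_⟩
    · rw [Finset.mem_range]
      have : ⌊(t - T0) / H⌋₊ ≤ n := Nat.floor_le_floor (by gcongr; linarith)
      omega
    · rw [Finset.mem_filter]
      refine ⟨ht, ?_, ?_⟩
      · have := Nat.floor_le h0
        rw [le_div_iff₀ hH] at this
        linarith
      · have := (Nat.lt_floor_add_one ((t - T0) / H)).le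
        rw [div_le_iff₀ hH] at this
        linarith
  have h1 : (W.card : ℝ) ≤ ∑ i ∈ Finset.range (n + 1),
      ((W.filter fun t => T0 + i * H ≤ t ∧ t ≤ T0 + i * H + H).card : ℝ) := by
    have := (Finset.card_le_card hsub).trans Finset.card_biUnion_le
    exact_mod_cast this
  refine h1.trans ?_
  calc ∑ i ∈ Finset.range (n + 1),
      ((W.filter fun t => T0 + i * H ≤ t ∧ t ≤ T0 + i * H + H).card : ℝ)
      ≤ ∑ i ∈ Finset.range (n + 1), Q := Finset.sum_le_sum fun i _ => hwin _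
    _ = ((n : ℝ) + 1) * Q := by
      rw [Finset.sum_const, Finset.card_range, nsmul_eq_mul]
      push_cast
      ring
    _ ≤ (1 + T / H) * Q := by
      apply mul_le_mul_of_nonneg_right _ hQ
      have := Nat.floor_le (div_nonneg hT hH.le)
      linarith

/-- covering by the dyadic pieces -/
lemma cover {W : Finset ℝ} {F : ℝ → ℂ} {D V : ℝ} {J : ℕ} (hJ : 1 ≤ J) (hD : 0 < D)
    (G : ℕ → ℝ → ℝ) (hval : ∀ t ∈ W, V ≤ ‖F t‖)
    (hFt : ∀ t, ‖F t‖ ≤ D * ∑ j ∈ Finset.range J, G j t) :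
    (W.card : ℝ) ≤ ∑ j ∈ Finset.range J, ((W.filter fun t => V / (D * J) ≤ G j t).card : ℝ) := by
  classical
  have hJ1 : (1 : ℝ) ≤ J := by exact_mod_cast hJ
  have hcov : W ⊆ (Finset.range J).biUnion fun j => W.filter fun t => V / (D * J) ≤ G j t := by
    intro t ht
    rw [Finset.mem_biUnion]
    by_contra hcon
    push Not at hcon
    have h3 : ∀ j ∈ Finset.range J, G j t < V / (D * J) := by
      intro j hj
      have := hcon j hj
      simp only [Finset.mem_filter, not_and, not_le] at this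
      exact this ht
    have hne : (Finset.range J).Nonempty := ⟨0, Finset.mem_range.2 (by omega)⟩
    have h4 : ∑ j ∈ Finset.range J, G j t < ∑ j ∈ Finset.range J, V / (D * J) :=
      Finset.sum_lt_sum_of_nonempty hne h3
    rw [Finset.sum_const, Finset.card_range, nsmul_eq_mul] at h4
    have h5 := hval t ht
    have h6 := hFt t
    have h7 : D * ∑ j ∈ Finset.range J, G j t < D * (J * (V / (D * J))) :=
      mul_lt_mul_of_pos_left h4 hD
    have h8 : D * (J * (V / (D * J))) = V := by field_simp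
    linarith
  have := (Finset.card_le_card hcov).trans Finset.card_biUnion_le
  exact_mod_cast this

end J_aux

open J_aux in
theorem iJ (h1 : StJb) (h2 : StDy) : StJ := by
  classical
  intro k ε B hk hε hB
  obtain ⟨C0, hC0, hJb⟩ := h1 k ε hk hε
  obtain ⟨J, hJ, hDy⟩ := h2 B hB
  have hJ1 : (1 : ℝ) ≤ J := by exact_mod_cast hJ
  have hJpos : (0 : ℝ) < J := by linarith
  set A : ℝ := 2 ^ J with hA
  have hA1 : 1 ≤ A := one_le_pow₀ (by norm_num)
  have hA0 : 0 < A := by linarith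
  have hAe : 1 ≤ A ^ ε := Real.one_le_rpow hA1 hε.le
  set G : ℝ := A ^ (4 * k) * (J : ℝ) ^ (6 * k) with hG
  have hG1 : 1 ≤ G := one_le_mul_of_one_le_of_one_le (one_le_pow₀ hA1) (one_le_pow₀ hJ1)
  set C1 : ℝ := J * (C0 * (A ^ ε * G)) with hC1
  have hC11 : 1 ≤ C1 := one_le_mul_of_one_le_of_one_le hJ1 (one_le_mul_of_one_le_of_one_le hC0
    (one_le_mul_of_one_le_of_one_le hAe hG1))
  set C2 : ℝ := C0 * A ^ ε * A ^ (3 / 2 : ℝ) * (J : ℝ) ^ 2 with hC2
  have hC21 : 1 ≤ C2 := one_le_mul_of_one_le_of_one_le (one_le_mul_of_one_le_of_one_le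
    (one_le_mul_of_one_le_of_one_le hC0 hAe) (Real.one_le_rpow hA1 (by norm_num)))
    (one_le_pow₀ hJ1)
  refine ⟨C1 + C2, by linarith, ?_⟩
  intro F L D V T0 T T1 W hL hT hT1 hD hV hF hW hyp
  obtain ⟨b, M, hb, hM, hFt⟩ := hDy F L D hL hD hF
  obtain ⟨hsep, hint, hval⟩ := hW
  have hL0 : (0 : ℝ) < L := by linarith
  have hT10 : (0 : ℝ) < T1 := by linarith
  have hDV : 0 ≤ D / V := by positivity
  have hLT : 0 ≤ (L * T1) ^ ε := by positivity
  -- each piece
  have hpiece : ∀ j ∈ Finset.range J,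
      ((W.filter fun t => V / (D * J) ≤ ‖UC.Sd (M j) (b j) t‖).card : ℝ) ≤
      (C0 * (A ^ ε * G)) * ((L * T1) ^ ε * ((1 + T / T1) * PJ k L T1 (D / V))) := by
    intro j hj
    rw [Finset.mem_range] at hj
    obtain ⟨-, hM2, hM3⟩ := hM j hj
    have hM0 : 0 < M j := by linarith
    have hMT : (M j * T1) ^ ε ≤ A ^ ε * (L * T1) ^ ε := by
      rw [← Real.mul_rpow hA0.le (by positivity)]
      apply Real.rpow_le_rpow (by positivity) _ hε.le
      calc M j * T1 ≤ A * L * T1 := mul_le_mul_of_nonneg_right hM3 hT10.le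
        _ = A * (L * T1) := by ring
    have hV2 : 0 < V / (D * J) := by positivity
    have hcond : C0 * (M j * T1) ^ ε * (M j) ^ (3 / 2 : ℝ) ≤ (V / (D * J)) ^ 2 := by
      have h3 : (M j) ^ (3 / 2 : ℝ) ≤ A ^ (3 / 2 : ℝ) * L ^ (3 / 2 : ℝ) := by
        rw [← Real.mul_rpow hA0.le hL0.le]
        exact Real.rpow_le_rpow hM0.le hM3 (by norm_num)
      have h4 : (V / (D * J)) ^ 2 = (V / D) ^ 2 / (J : ℝ) ^ 2 := by
        field_simp
      rw [h4, le_div_iff₀ (by positivity)]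
      have h5 : (C2 * (L * T1) ^ ε) * L ^ (3 / 2 : ℝ) ≤
          ((C1 + C2) * (L * T1) ^ ε) * L ^ (3 / 2 : ℝ) := by
        apply mul_le_mul_of_nonneg_right _ (by positivity)
        apply mul_le_mul_of_nonneg_right _ hLT
        linarith
      calc C0 * (M j * T1) ^ ε * (M j) ^ (3 / 2 : ℝ) * (J : ℝ) ^ 2
          ≤ C0 * (A ^ ε * (L * T1) ^ ε) * (A ^ (3 / 2 : ℝ) * L ^ (3 / 2 : ℝ)) * (J : ℝ) ^ 2 := by
            apply mul_le_mul_of_nonneg_right _ (by positivity)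
            apply mul_le_mul _ h3 (by positivity) (by positivity)
            exact mul_le_mul_of_nonneg_left hMT (by linarith)
        _ = (C2 * (L * T1) ^ ε) * L ^ (3 / 2 : ℝ) := by rw [hC2]; ring
        _ ≤ _ := h5
        _ ≤ _ := hyp
    set Q : ℝ := C0 * (M j * T1) ^ ε * PJ k (M j) T1 (1 / (V / (D * J))) with hQ
    have hQ0 : 0 ≤ Q := by
      have : 0 ≤ PJ k (M j) T1 (1 / (V / (D * J))) := PJ_nonneg hM0.le hT10.le (by positivity)
      positivity
    set Wj : Finset ℝ := W.filter fun t => V / (D * J) ≤ ‖UC.Sd (M j) (b j) t‖ with hWj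
    have hwin : ∀ a : ℝ, ((Wj.filter fun t => a ≤ t ∧ t ≤ a + T1).card : ℝ) ≤ Q := by
      intro a
      refine hJb (M j) (V / (D * J)) a T1 (b j) _ hM2 hT1 hV2 (hb j) ⟨?_, ?_, ?_⟩ hcond
      · intro s hs t ht hst
        rw [Finset.mem_filter, hWj, Finset.mem_filter] at hs ht
        exact hsep s hs.1.1 t ht.1.1 hst
      · intro t ht
        rw [Finset.mem_filter] at ht
        exact ht.2
      · intro t ht
        rw [Finset.mem_filter, hWj, Finset.mem_filter] at ht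
        exact ht.1.2
    have h3 := card_windows (by linarith : (0 : ℝ) ≤ T) hT10 hQ0 (W := Wj) (T0 := T0)
      (fun t ht => hint t (by rw [hWj, Finset.mem_filter] at ht; exact ht.1)) hwin
    refine h3.trans ?_
    have h5 : Q ≤ C0 * (A ^ ε * G) * ((L * T1) ^ ε * PJ k L T1 (D / V)) := by
      have h7 : PJ k (M j) T1 (1 / (V / (D * J))) ≤ G * PJ k L T1 (D / V) := by
        have h8 : 1 / (V / (D * J)) = J * (D / V) := by field_simp
        rw [h8]
        exact PJ_le hk hA1 hJ1 hL0.le hM0.le hT10.le hDV hM3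
      rw [hQ]
      calc C0 * (M j * T1) ^ ε * PJ k (M j) T1 (1 / (V / (D * J)))
          ≤ C0 * (A ^ ε * (L * T1) ^ ε) * (G * PJ k L T1 (D / V)) := by
            apply mul_le_mul _ h7 (PJ_nonneg hM0.le hT10.le (by positivity)) (by positivity)
            exact mul_le_mul_of_nonneg_left hMT (by linarith)
        _ = C0 * (A ^ ε * G) * ((L * T1) ^ ε * PJ k L T1 (D / V)) := by ring
    have hTL' : 0 ≤ T / T1 := by positivity
    calc (1 + T / T1) * Q ≤ (1 + T / T1) *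
          (C0 * (A ^ ε * G) * ((L * T1) ^ ε * PJ k L T1 (D / V))) :=
          mul_le_mul_of_nonneg_left h5 (by linarith)
      _ = _ := by ring
  have h9 := cover (W := W) (F := F) (V := V) hJ hD (fun j t => ‖UC.Sd (M j) (b j) t‖) hval hFt
  have h10 : (W.card : ℝ) ≤ C1 * ((L * T1) ^ ε * ((1 + T / T1) * PJ k L T1 (D / V))) := by
    refine h9.trans ((Finset.sum_le_sum hpiece).trans (le_of_eq ?_))
    rw [Finset.sum_const, Finset.card_range, nsmul_eq_mul, hC1]
    ring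
  have h11 : 0 ≤ (L * T1) ^ ε * ((1 + T / T1) * PJ k L T1 (D / V)) := by
    have := PJ_nonneg (k := k) hL0.le hT10.le hDV
    positivity
  have h12 : C1 * ((L * T1) ^ ε * ((1 + T / T1) * PJ k L T1 (D / V))) ≤
      (C1 + C2) * ((L * T1) ^ ε * ((1 + T / T1) * PJ k L T1 (D / V))) := by
    apply mul_le_mul_of_nonneg_right _ h11
    linarith
  calc (W.card : ℝ) ≤ _ := h10.trans h12
    _ = _ := by
      unfold PJ
      ring

end Pool.Agent.Work.MP_a8fbd7_nt.OX
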