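import Pool.Agent.Work.MP_a8fbd7_nt.OX.LV.Stmts2

/-!
MP_a8fbd7_nt, block OX, part LV2, item J2: monotonicity of `Ss` and weights.
-/

open MeasureTheory Set Filter Topology

noncomputable section

namespace Pool.Agent.Work.MP_a8fbd7_nt.OX

open Pool.Agent.Work.MP_56b8f5_nt

namespace J2_aux

/-- the block is a finite sum -/
theorem bl_eq {w : ℝ → ℝ} {a b : ℝ} (ha : 0 < a) (hs : ∀ x, w x ≠ 0 → a ≤ x ∧ x ≤ b) {N : ℝ}
    (hN : 0 < N) (t : ℝ) :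
    UC.Bl w N t = UC.Dp ⌊b * N⌋₊ (fun n => ((w ((n : ℝ) / N) : ℝ) : ℂ)) t := by
  unfold UC.Bl UC.Dp
  apply tsum_eq_sum
  intro n hn
  have h0 : w ((n : ℝ) / N) = 0 := by
    by_contra h
    obtain ⟨h1, h2⟩ := hs _ h
    apply hn
    rw [Finset.mem_Icc]
    constructor
    · by_contra h3
      have h4 : n = 0 := by omega
      rw [h4] at h1
      simp at h1
      linarith
    · apply Nat.le_floor
      rwa [div_le_iff₀ hN] at h2
  rw [h0]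
  simp

theorem bounded {w : ℝ → ℝ} {a b : ℝ} (hc : Continuous w)
    (hs : ∀ x, w x ≠ 0 → a ≤ x ∧ x ≤ b) : ∃ M : ℝ, 0 ≤ M ∧ ∀ x, |w x| ≤ M := by
  obtain ⟨M, hM⟩ := (isCompact_Icc (a := a) (b := b)).exists_bound_of_continuousOn hc.continuousOn
  refine ⟨max M 0, le_max_right _ _, ?_⟩
  intro x
  by_cases hx : w x = 0
  · rw [hx, abs_zero]
    exact le_max_right _ _
  · have h := hM x ⟨(hs x hx).1, (hs x hx).2⟩
    rw [Real.norm_eq_abs] at h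
    exact h.trans (le_max_left _ _)

theorem ss_nonneg (K : ℝ) (W : Finset ℝ) : 0 ≤ Ss K W :=
  Finset.sum_nonneg fun _ _ => Finset.sum_nonneg fun _ _ => sq_nonneg _

theorem dp_smul (Y : ℕ) (D t : ℝ) :
    UC.Dp Y (fun _ => ((D : ℝ) : ℂ)) t = (D : ℂ) * UC.Dp Y (fun _ => 1) t := by
  unfold UC.Dp
  rw [Finset.mul_sum]
  refine Finset.sum_congr rfl fun n _ => ?_
  ring

theorem dp_trunc {Y Y' : ℕ} (h : Y ≤ Y') (t : ℝ) :
    UC.Dp Y' (fun n => if n ≤ Y then 1 else 0) t = UC.Dp Y (fun _ => 1) t := by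
  unfold UC.Dp
  have h1 : Finset.Icc 1 Y ⊆ Finset.Icc 1 Y' := Finset.Icc_subset_Icc le_rfl h
  rw [← Finset.sum_subset h1]
  · refine Finset.sum_congr rfl fun n hn => ?_
    beta_reduce
    rw [if_pos (Finset.mem_Icc.1 hn).2]
  · intro n hn hn2
    rw [Finset.mem_Icc] at hn hn2
    beta_reduce
    rw [if_neg (fun h3 => hn2 ⟨hn.1, h3⟩), zero_mul]

end J2_aux

open J2_aux in
theorem iJ2 (h1 : StJ1) : StJ2 := by
  have hi : ∀ (K K' : ℝ) (W : Finset ℝ), K ≤ K' → Ss K W ≤ Ss K' W := by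
    intro K K' W hK
    have h := h1 ⌊K'⌋₊ (fun n => if n ≤ ⌊K⌋₊ then 1 else 0) (fun _ => 1) W 0 (by
      intro n _
      by_cases hn : n ≤ ⌊K⌋₊
      · simp [hn]
      · simp [hn])
    have e1 : ∀ s t : ℝ, UC.Dp ⌊K'⌋₊ (fun n => if n ≤ ⌊K⌋₊ then 1 else 0) (s - t + 0) =
        UC.Dp ⌊K⌋₊ (fun _ => 1) (s - t) := by
      intro s t
      rw [dp_trunc (Nat.floor_le_floor hK), add_zero]
    have e2 : ∀ s t : ℝ, UC.Dp ⌊K'⌋₊ (fun _ => (((1 : ℝ)) : ℂ)) (s - t) =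
        UC.Dp ⌊K'⌋₊ (fun _ => 1) (s - t) := by
      intro s t
      rw [Complex.ofReal_one]
    simp only [e1, e2] at h
    exact h
  have hii : ∀ (K D y : ℝ) (a : ℕ → ℂ) (W : Finset ℝ), 0 ≤ D → (∀ n, ‖a n‖ ≤ D) →
      ∑ s ∈ W, ∑ t ∈ W, ‖UC.Dp ⌊K⌋₊ a (s - t + y)‖ ^ 2 ≤ D ^ 2 * Ss K W := by
    intro K D y a W hD ha
    refine (h1 ⌊K⌋₊ a (fun _ => D) W y (fun n _ => ha n)).trans (le_of_eq ?_)
    unfold Ss
    rw [Finset.mul_sum]
    refine Finset.sum_congr rfl fun s _ => ?_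
    rw [Finset.mul_sum]
    refine Finset.sum_congr rfl fun t _ => ?_
    rw [dp_smul, norm_mul, mul_pow, Complex.norm_real, Real.norm_eq_abs, sq_abs]
  refine ⟨hi, hii, ?_⟩
  intro w hw
  obtain ⟨a, b, ha, hab, hs⟩ := hw.supp
  obtain ⟨M, hM0, hM⟩ := bounded hw.smooth.continuous hs
  refine ⟨max 1 (max (M ^ 2) b), le_max_left _ _, ?_⟩
  intro N y W hN
  have e1 : ∀ s t : ℝ, UC.Bl w N (s - t + y) =
      UC.Dp ⌊b * N⌋₊ (fun n => ((w ((n : ℝ) / N) : ℝ) : ℂ)) (s - t + y) := fun s t =>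
    bl_eq ha hs hN _
  simp only [e1]
  have h2 := hii (b * N) M y (fun n => ((w ((n : ℝ) / N) : ℝ) : ℂ)) W hM0 (by
    intro n
    rw [Complex.norm_real, Real.norm_eq_abs]
    exact hM _)
  have hb : b ≤ max 1 (max (M ^ 2) b) := (le_max_right _ _).trans (le_max_right _ _)
  have hMC : M ^ 2 ≤ max 1 (max (M ^ 2) b) := (le_max_left _ _).trans (le_max_right _ _)
  have h3 : Ss (b * N) W ≤ Ss (max 1 (max (M ^ 2) b) * N) W :=
    hi _ _ _ (mul_le_mul_of_nonneg_right hb hN.le)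
  refine h2.trans ?_
  calc M ^ 2 * Ss (b * N) W ≤ M ^ 2 * Ss (max 1 (max (M ^ 2) b) * N) W :=
        mul_le_mul_of_nonneg_left h3 (sq_nonneg _)
    _ ≤ _ := mul_le_mul_of_nonneg_right hMC (ss_nonneg _ _)

end Pool.Agent.Work.MP_a8fbd7_nt.OX
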