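import Mathlib
import Pool.Agent.Work.MP_a8fbd7_nt.OX.LV.Stmts2
import Pool.Agent.Work.MP_cb106b_nt.Ct.DivB

/-!
MP_a8fbd7_nt, block OX, part LV2: item J3 (amplification).
-/

open MeasureTheory Set Filter Topology

noncomputable section

namespace Pool.Agent.Work.MP_a8fbd7_nt.OX

open Pool.Agent.Work.MP_56b8f5_nt

namespace J3_aux

/-- `g_s(n) = n^{-is}` -/
def e (n : ℕ) (s : ℝ) : ℂ := (n : ℂ) ^ (-((s : ℂ) * Complex.I))

/-- `f(m,n) = ∑_s m^{-is} conj(n^{-is})` -/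
def f (W : Finset ℝ) (m n : ℕ) : ℂ := ∑ s ∈ W, e m s * (starRingEnd ℂ) (e n s)

lemma e_norm (n : ℕ) (hn : 1 ≤ n) (s : ℝ) : ‖e n s‖ = 1 := by
  unfold e
  rw [Complex.norm_natCast_cpow_of_pos (by omega)]
  simp

lemma e_conj (n : ℕ) (hn : 1 ≤ n) (s : ℝ) : e n s * (starRingEnd ℂ) (e n s) = 1 := by
  rw [Complex.mul_conj, Complex.normSq_eq_norm_sq, e_norm n hn]
  simp

lemma e_mul (p n : ℕ) (s : ℝ) : e (p * n) s = e p s * e n s := by
  unfold e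
  rw [Nat.cast_mul, Complex.natCast_mul_natCast_cpow]

lemma e_sub (n : ℕ) (hn : 1 ≤ n) (s t : ℝ) : e n (s - t) = e n s * (starRingEnd ℂ) (e n t) := by
  have h1 : e n (s - t) * e n t = e n s := by
    unfold e
    rw [← Complex.cpow_add _ _ (by exact_mod_cast (by omega : n ≠ 0))]
    congr 1
    push_cast
    ring
  rw [← h1, mul_assoc, e_conj n hn, mul_one]

lemma f_scale (W : Finset ℝ) (p m n : ℕ) (hp : 1 ≤ p) : f W (p * m) (p * n) = f W m n := by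
  unfold f
  refine Finset.sum_congr rfl fun s _ => ?_
  rw [e_mul, e_mul, map_mul]
  have := e_conj p hp s
  calc e p s * e m s * ((starRingEnd ℂ) (e p s) * (starRingEnd ℂ) (e n s))
      = (e p s * (starRingEnd ℂ) (e p s)) * (e m s * (starRingEnd ℂ) (e n s)) := by ring
    _ = _ := by rw [this, one_mul]

lemma Dp_eq (Y : ℕ) (s : ℝ) : UC.Dp Y (fun _ => 1) s = ∑ n ∈ Finset.Icc 1 Y, e n s := by
  unfold UC.Dp e
  refine Finset.sum_congr rfl fun n _ => ?_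
  rw [one_mul]

lemma expand (Y : ℕ) (W : Finset ℝ) :
    ∑ s ∈ W, ∑ t ∈ W, ‖UC.Dp Y (fun _ => 1) (s - t)‖ ^ 2 =
      ∑ m ∈ Finset.Icc 1 Y, ∑ n ∈ Finset.Icc 1 Y, ‖f W m n‖ ^ 2 := by
  have key : ((∑ s ∈ W, ∑ t ∈ W, ‖UC.Dp Y (fun _ => 1) (s - t)‖ ^ 2 : ℝ) : ℂ) =
      ((∑ m ∈ Finset.Icc 1 Y, ∑ n ∈ Finset.Icc 1 Y, ‖f W m n‖ ^ 2 : ℝ) : ℂ) := by
    push_cast
    have hL : ∀ s ∈ W, ∀ t ∈ W, ((‖UC.Dp Y (fun _ => 1) (s - t)‖ : ℂ)) ^ 2 =
        ∑ m ∈ Finset.Icc 1 Y, ∑ n ∈ Finset.Icc 1 Y,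
          (e m s * (starRingEnd ℂ) (e n s)) * ((starRingEnd ℂ) (e m t) * e n t) := by
      intro s _ t _
      rw [← Complex.mul_conj', Dp_eq, map_sum, Finset.sum_mul_sum]
      refine Finset.sum_congr rfl fun m hm => Finset.sum_congr rfl fun n hn => ?_
      rw [e_sub m (Finset.mem_Icc.1 hm).1, e_sub n (Finset.mem_Icc.1 hn).1, map_mul, Complex.conj_conj]
      ring
    have hR : ∀ m ∈ Finset.Icc 1 Y, ∀ n ∈ Finset.Icc 1 Y, ((‖f W m n‖ : ℂ)) ^ 2 =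
        ∑ s ∈ W, ∑ t ∈ W,
          (e m s * (starRingEnd ℂ) (e n s)) * ((starRingEnd ℂ) (e m t) * e n t) := by
      intro m _ n _
      rw [← Complex.mul_conj', f, map_sum, Finset.sum_mul_sum]
      refine Finset.sum_congr rfl fun s _ => Finset.sum_congr rfl fun t _ => ?_
      rw [map_mul, Complex.conj_conj]
    rw [Finset.sum_congr rfl fun s hs => Finset.sum_congr rfl fun t ht => hL s hs t ht]
    rw [Finset.sum_congr rfl fun m hm => Finset.sum_congr rfl fun n hn => hR m hm n hn]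
    calc ∑ s ∈ W, ∑ t ∈ W, ∑ m ∈ Finset.Icc 1 Y, ∑ n ∈ Finset.Icc 1 Y,
          (e m s * (starRingEnd ℂ) (e n s)) * ((starRingEnd ℂ) (e m t) * e n t)
        = ∑ s ∈ W, ∑ m ∈ Finset.Icc 1 Y, ∑ t ∈ W, ∑ n ∈ Finset.Icc 1 Y,
          (e m s * (starRingEnd ℂ) (e n s)) * ((starRingEnd ℂ) (e m t) * e n t) :=
          Finset.sum_congr rfl fun s _ => Finset.sum_comm
      _ = ∑ m ∈ Finset.Icc 1 Y, ∑ s ∈ W, ∑ t ∈ W, ∑ n ∈ Finset.Icc 1 Y,
          (e m s * (starRingEnd ℂ) (e n s)) * ((starRingEnd ℂ) (e m t) * e n t) := Finset.sum_comm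
      _ = ∑ m ∈ Finset.Icc 1 Y, ∑ s ∈ W, ∑ n ∈ Finset.Icc 1 Y, ∑ t ∈ W,
          (e m s * (starRingEnd ℂ) (e n s)) * ((starRingEnd ℂ) (e m t) * e n t) :=
          Finset.sum_congr rfl fun m _ => Finset.sum_congr rfl fun s _ => Finset.sum_comm
      _ = _ := Finset.sum_congr rfl fun m _ => Finset.sum_comm
  exact_mod_cast key

lemma amplify (W : Finset ℝ) (P Y Z : ℕ) (hPY : P * Y ≤ Z) (D : ℝ)
    (hD : ∀ N ∈ Finset.Icc 1 Z, ((N.divisors.card : ℕ) : ℝ) ≤ D) :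
    (P : ℝ) * ∑ m ∈ Finset.Icc 1 Y, ∑ n ∈ Finset.Icc 1 Y, ‖f W m n‖ ^ 2 ≤
      D * ∑ m ∈ Finset.Icc 1 Z, ∑ n ∈ Finset.Icc 1 Z, ‖f W m n‖ ^ 2 := by
  classical
  set A : Finset (ℕ × (ℕ × ℕ)) := Finset.Icc 1 P ×ˢ (Finset.Icc 1 Y ×ˢ Finset.Icc 1 Y) with hA
  set B : Finset (ℕ × ℕ) := Finset.Icc 1 Z ×ˢ Finset.Icc 1 Z with hB
  have h1 : (P : ℝ) * ∑ m ∈ Finset.Icc 1 Y, ∑ n ∈ Finset.Icc 1 Y, ‖f W m n‖ ^ 2 =
      ∑ x ∈ A, ‖f W (x.1 * x.2.1) (x.1 * x.2.2)‖ ^ 2 := by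
    rw [hA, Finset.sum_product]
    have : ∀ p ∈ Finset.Icc 1 P, ∑ y ∈ Finset.Icc 1 Y ×ˢ Finset.Icc 1 Y, ‖f W (p * y.1) (p * y.2)‖ ^ 2 =
        ∑ m ∈ Finset.Icc 1 Y, ∑ n ∈ Finset.Icc 1 Y, ‖f W m n‖ ^ 2 := by
      intro p hp
      rw [Finset.sum_product]
      refine Finset.sum_congr rfl fun m _ => Finset.sum_congr rfl fun n _ => ?_
      simp only
      rw [f_scale W p m n (Finset.mem_Icc.1 hp).1]
    rw [Finset.sum_congr rfl this, Finset.sum_const, Nat.card_Icc, nsmul_eq_mul]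
    simp
  have hmaps : ∀ x ∈ A, (x.1 * x.2.1, x.1 * x.2.2) ∈ B := by
    intro x hx
    simp only [hA, Finset.mem_product, Finset.mem_Icc] at hx
    simp only [hB, Finset.mem_product, Finset.mem_Icc]
    obtain ⟨⟨h1, h2⟩, ⟨h3, h4⟩, h5, h6⟩ := hx
    refine ⟨⟨Nat.mul_pos h1 h3, (Nat.mul_le_mul h2 h4).trans hPY⟩,
      ⟨Nat.mul_pos h1 h5, (Nat.mul_le_mul h2 h6).trans hPY⟩⟩
  rw [h1, ← Finset.sum_fiberwise_of_maps_to hmaps, ← Finset.sum_product', Finset.mul_sum]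
  refine Finset.sum_le_sum fun y hy => ?_
  have h2 : ∑ x ∈ A with (x.1 * x.2.1, x.1 * x.2.2) = y, ‖f W (x.1 * x.2.1) (x.1 * x.2.2)‖ ^ 2 =
      ((A.filter fun x => (x.1 * x.2.1, x.1 * x.2.2) = y).card : ℝ) * ‖f W y.1 y.2‖ ^ 2 := by
    rw [Finset.sum_congr rfl (g := fun _ => ‖f W y.1 y.2‖ ^ 2), Finset.sum_const, nsmul_eq_mul]
    intro x hx
    have := (Finset.mem_filter.1 hx).2
    rw [← this]
  rw [h2]
  refine mul_le_mul_of_nonneg_right ?_ (by positivity)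
  have hy2 : y.2 ∈ Finset.Icc 1 Z := by
    simp only [hB, Finset.mem_product] at hy
    exact hy.2
  refine le_trans ?_ (hD y.2 hy2)
  have hc : (A.filter fun x => (x.1 * x.2.1, x.1 * x.2.2) = y).card ≤ y.2.divisors.card := by
    refine Finset.card_le_card_of_injOn (fun x => x.1) ?_ ?_
    · intro x hx
      have hx2 := (Finset.mem_filter.1 hx).2
      have : x.1 * x.2.2 = y.2 := by rw [← hx2]
      simp only [Finset.mem_coe, Nat.mem_divisors]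
      refine ⟨⟨x.2.2, this.symm⟩, ?_⟩
      have := (Finset.mem_Icc.1 hy2).1
      omega
    · intro x hx x' hx' hxx
      simp only at hxx
      have hx1 := (Finset.mem_filter.1 hx).1
      have hx2 := (Finset.mem_filter.1 hx).2
      have hx3 := (Finset.mem_filter.1 hx').2
      simp only [hA, Finset.mem_product, Finset.mem_Icc] at hx1
      have hpos : 0 < x.1 := hx1.1.1
      have e1 : x.1 * x.2.1 = x.1 * x'.2.1 := by
        have := congrArg Prod.fst (hx2.trans hx3.symm)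
        simp only at this
        rw [this, hxx]
      have e2 : x.1 * x.2.2 = x.1 * x'.2.2 := by
        have := congrArg Prod.snd (hx2.trans hx3.symm)
        simp only at this
        rw [this, hxx]
      have e3 := Nat.eq_of_mul_eq_mul_left hpos e1
      have e4 := Nat.eq_of_mul_eq_mul_left hpos e2
      exact Prod.ext hxx (Prod.ext e3 e4)
  exact_mod_cast hc

end J3_aux

open J3_aux in
theorem iJ3 : StJ3 := by
  intro ε hε
  obtain ⟨C, hC1, hC⟩ := Pool.Agent.Work.MP_cb106b_nt.Ct.divisor_bound ε hε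
  refine ⟨2 * C, by linarith, ?_⟩
  intro K K' W hK hKK
  have hK0 : 0 < K := by linarith
  have hK'0 : 0 < K' := by linarith
  have hK'1 : 1 ≤ K' := hK.trans hKK
  set P : ℕ := ⌊K' / K⌋₊ with hP
  have hq : 1 ≤ K' / K := (one_le_div hK0).2 hKK
  have hPle : (P : ℝ) ≤ K' / K := Nat.floor_le (by positivity)
  have hPge : K' / K / 2 ≤ P := by
    have h1 : K' / K < P + 1 := Nat.lt_floor_add_one _
    have h2 : (1 : ℝ) ≤ P := by
      have : 1 ≤ P := Nat.le_floor (by simpa using hq)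
      exact_mod_cast this
    linarith
  have hPY : P * ⌊K⌋₊ ≤ ⌊K'⌋₊ := by
    refine Nat.le_floor ?_
    push_cast
    have h1 : ((⌊K⌋₊ : ℕ) : ℝ) ≤ K := Nat.floor_le hK0.le
    calc (P : ℝ) * (⌊K⌋₊ : ℝ) ≤ (K' / K) * K := mul_le_mul hPle h1 (by positivity) (by positivity)
      _ = K' := by field_simp
  have hD : ∀ N ∈ Finset.Icc 1 ⌊K'⌋₊, ((N.divisors.card : ℕ) : ℝ) ≤ C * K' ^ ε := by
    intro N hN
    obtain ⟨h1, h2⟩ := Finset.mem_Icc.1 hN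
    refine (hC N h1).trans ?_
    have h3 : (N : ℝ) ≤ K' := (Nat.le_floor_iff hK'0.le).1 h2
    exact mul_le_mul_of_nonneg_left (Real.rpow_le_rpow (by positivity) h3 hε.le) (by linarith)
  have hmain := amplify W P ⌊K⌋₊ ⌊K'⌋₊ hPY (C * K' ^ ε) hD
  rw [← expand, ← expand] at hmain
  change (P : ℝ) * Ss K W ≤ C * K' ^ ε * Ss K' W at hmain
  have hS0 : 0 ≤ Ss K W := by
    unfold Ss
    positivity
  have h3 : K' / K / 2 * Ss K W ≤ C * K' ^ ε * Ss K' W :=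
    (mul_le_mul_of_nonneg_right hPge hS0).trans hmain
  have h4 : Ss K W = 2 * (K / K') * (K' / K / 2 * Ss K W) := by
    field_simp
  rw [h4]
  calc 2 * (K / K') * (K' / K / 2 * Ss K W) ≤ 2 * (K / K') * (C * K' ^ ε * Ss K' W) :=
        mul_le_mul_of_nonneg_left h3 (by positivity)
    _ = 2 * C * K' ^ ε * (K / K') * Ss K' W := by ring

end Pool.Agent.Work.MP_a8fbd7_nt.OX
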