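/-
Block OX (problem MP_a8fbd7_nt), part LV2, item J4: smooth dyadic form of the double sums.
Author: helper22.
-/
import Pool.Agent.Work.MP_a8fbd7_nt.OX.LV.Stmts2
import Pool.Agent.Work.MP_56b8f5_nt.UC.I_Up1

set_option autoImplicit false

open MeasureTheory Set Filter Topology

noncomputable section

namespace Pool.Agent.Work.MP_a8fbd7_nt.OX

open Pool.Agent.Work.MP_56b8f5_nt
open Pool.Agent.Work.MP_56b8f5_nt.UC.Up1_aux (E Q sq_sum E_conj E_add Dp_E key F)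

namespace J4_aux

/-- the sum over a finite set -/
def DS (S : Finset ℕ) (τ : ℝ) : ℂ := ∑ n ∈ S, E (-(τ * Real.log n))

/-- the double sum as a sum of nonnegative terms -/
theorem double (S : Finset ℕ) (W : Finset ℝ) :
    ∑ s ∈ W, ∑ t ∈ W, ‖DS S (s - t)‖ ^ 2 =
      ∑ n ∈ S, ∑ m ∈ S, ‖Q W id (Real.log m - Real.log n)‖ ^ 2 := by
  have h1 : ∀ n m : ℕ, ((‖Q W id (Real.log m - Real.log n)‖ ^ 2 : ℝ) : ℂ) =
      ∑ s ∈ W, ∑ t ∈ W, E ((s - t) * (Real.log m - Real.log n)) := by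
    intro n m
    have e := sq_sum W (fun i => E (id i * (Real.log m - Real.log n)))
    unfold Q
    rw [e]
    refine Finset.sum_congr rfl fun i _ => Finset.sum_congr rfl fun j _ => ?_
    rw [E_conj, ← E_add]
    congr 1
    simp only [id]
    ring
  have h2 : ∀ s t : ℝ, ((‖DS S (s - t)‖ ^ 2 : ℝ) : ℂ) =
      ∑ n ∈ S, ∑ m ∈ S, E ((s - t) * (Real.log m - Real.log n)) := by
    intro s t
    unfold DS
    rw [sq_sum]
    refine Finset.sum_congr rfl fun n _ => Finset.sum_congr rfl fun m _ => ?_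
    rw [E_conj, ← E_add]
    congr 1
    ring
  have h3 : ((∑ s ∈ W, ∑ t ∈ W, ‖DS S (s - t)‖ ^ 2 : ℝ) : ℂ) =
      ((∑ n ∈ S, ∑ m ∈ S, ‖Q W id (Real.log m - Real.log n)‖ ^ 2 : ℝ) : ℂ) := by
    rw [Complex.ofReal_sum, Complex.ofReal_sum]
    simp_rw [Complex.ofReal_sum, h1, h2]
    calc _ = ∑ s ∈ W, ∑ n ∈ S, ∑ t ∈ W, ∑ m ∈ S, E ((s - t) * (Real.log m - Real.log n)) :=
          Finset.sum_congr rfl fun s _ => Finset.sum_comm
      _ = ∑ n ∈ S, ∑ s ∈ W, ∑ t ∈ W, ∑ m ∈ S, E ((s - t) * (Real.log m - Real.log n)) :=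
          Finset.sum_comm
      _ = ∑ n ∈ S, ∑ s ∈ W, ∑ m ∈ S, ∑ t ∈ W, E ((s - t) * (Real.log m - Real.log n)) :=
          Finset.sum_congr rfl fun n _ => Finset.sum_congr rfl fun s _ => Finset.sum_comm
      _ = _ := Finset.sum_congr rfl fun n _ => Finset.sum_comm
  exact_mod_cast h3

/-- a dyadic piece after multiplication by `p` -/
theorem piece (K : ℝ) (hK : 1 ≤ K) (W : Finset ℝ) (S : Finset ℕ) (p : ℕ) (hp : 1 ≤ p)
    (hS : ∀ n ∈ S, 1 ≤ n ∧ K < p * n ∧ (p : ℝ) * n ≤ 2 * K) :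
    ∑ s ∈ W, ∑ t ∈ W, ‖DS S (s - t)‖ ^ 2 ≤ ∑ s ∈ W, ∑ t ∈ W, ‖UC.Bl UB.om K (s - t)‖ ^ 2 := by
  rw [double]
  have hk := key hK W (id : ℝ → ℝ)
  simp only [id] at hk
  rw [← hk]
  have hinj : Set.InjOn (fun n : ℕ => p * n) S := by
    intro a _ b _ hab
    exact Nat.eq_of_mul_eq_mul_left (by omega) hab
  have hsub : S.image (fun n => p * n) ⊆ F K := by
    intro x hx
    obtain ⟨n, hn, rfl⟩ := Finset.mem_image.mp hx
    obtain ⟨h1, h2, h3⟩ := hS n hn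
    unfold F
    rw [Finset.mem_Icc]
    refine ⟨Nat.mul_pos (by omega) (by omega), Nat.le_floor ?_⟩
    push_cast
    linarith
  set f : ℕ → ℕ → ℝ := fun n m => UB.om ((n : ℝ) / K) * UB.om ((m : ℝ) / K) *
      ‖Q W id (Real.log m - Real.log n)‖ ^ 2 with hf
  have hf0 : ∀ n m, 0 ≤ f n m := fun n m =>
    mul_nonneg (mul_nonneg (UC.om_nonneg _) (UC.om_nonneg _)) (by positivity)
  have hle : ∑ n ∈ S.image (fun n => p * n), ∑ m ∈ S.image (fun n => p * n), f n m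
      ≤ ∑ n ∈ F K, ∑ m ∈ F K, f n m := by
    calc _ ≤ ∑ n ∈ S.image (fun n => p * n), ∑ m ∈ F K, f n m :=
          Finset.sum_le_sum fun n _ =>
            Finset.sum_le_sum_of_subset_of_nonneg hsub fun m _ _ => hf0 n m
      _ ≤ _ := Finset.sum_le_sum_of_subset_of_nonneg hsub fun n _ _ =>
          Finset.sum_nonneg fun m _ => hf0 n m
  refine le_trans (le_of_eq ?_) hle
  rw [Finset.sum_image hinj]
  refine Finset.sum_congr rfl fun n hn => ?_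
  rw [Finset.sum_image hinj]
  refine Finset.sum_congr rfl fun m hm => ?_
  obtain ⟨n1, n2, n3⟩ := hS n hn
  obtain ⟨m1, m2, m3⟩ := hS m hm
  have hK0 : 0 < K := by linarith
  have on : ∀ x : ℕ, K < p * x → (p : ℝ) * x ≤ 2 * K → UB.om (((p * x : ℕ) : ℝ) / K) = 1 := by
    intro x h1 h2
    apply UC.om_eq_one
    · rw [le_div_iff₀ hK0]; push_cast; linarith
    · rw [div_le_iff₀ hK0]; push_cast; linarith
  have hlog : ∀ x : ℕ, 1 ≤ x → Real.log ((p * x : ℕ) : ℝ) = Real.log p + Real.log x := by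
    intro x hx
    push_cast
    rw [Real.log_mul]
    · exact_mod_cast (by omega : p ≠ 0)
    · exact_mod_cast (by omega : x ≠ 0)
  simp only [hf]
  rw [on n n2 n3, on m m2 m3, hlog n n1, hlog m m1]
  have : Real.log (p : ℝ) + Real.log m - (Real.log p + Real.log n)
      = Real.log m - Real.log n := by ring
  rw [this]
  ring

/-- the index of a dyadic piece -/
def idx (K : ℝ) (n : ℕ) : ℕ := Nat.log 2 ⌊K / n⌋₊

/-- the number of pieces -/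
def JJ (K : ℝ) : ℕ := Nat.log 2 ⌊K⌋₊ + 1

/-- the pieces -/
def A (K : ℝ) (j : ℕ) : Finset ℕ := (Finset.Icc 1 ⌊K⌋₊).filter fun n => idx K n = j

theorem A_spec (K : ℝ) (hK : 1 ≤ K) (j n : ℕ) (hn : n ∈ A K j) :
    1 ≤ n ∧ K < ((2 ^ (j + 1) : ℕ) : ℝ) * n ∧ ((2 ^ (j + 1) : ℕ) : ℝ) * n ≤ 2 * K := by
  unfold A at hn
  rw [Finset.mem_filter, Finset.mem_Icc] at hn
  obtain ⟨⟨h1, h2⟩, h3⟩ := hn
  have hn0 : (0 : ℝ) < n := by exact_mod_cast h1
  have hnK : (n : ℝ) ≤ K := (Nat.le_floor_iff (by linarith)).mp h2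
  have hq1 : 1 ≤ K / n := by rw [le_div_iff₀ hn0]; linarith
  have hfl : ⌊K / n⌋₊ ≠ 0 := by
    have : 1 ≤ ⌊K / n⌋₊ := Nat.le_floor (by exact_mod_cast hq1)
    omega
  unfold idx at h3
  refine ⟨h1, ?_, ?_⟩
  · have h4 : ⌊K / n⌋₊ < 2 ^ (j + 1) := by
      rw [← h3]; exact Nat.lt_pow_succ_log_self (by norm_num) _
    have h5 : K / n < ((2 ^ (j + 1) : ℕ) : ℝ) := (Nat.floor_lt (by positivity)).mp h4
    rwa [div_lt_iff₀ hn0] at h5
  · have h4 : 2 ^ j ≤ ⌊K / n⌋₊ := by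
      rw [← h3]; exact Nat.pow_log_le_self 2 hfl
    have h5 : ((2 ^ j : ℕ) : ℝ) ≤ K / n := (Nat.le_floor_iff (by positivity)).mp h4
    rw [le_div_iff₀ hn0] at h5
    push_cast at h5 ⊢
    rw [pow_succ]
    linarith

theorem idx_lt (K : ℝ) (hK : 1 ≤ K) (n : ℕ) (hn : n ∈ Finset.Icc 1 ⌊K⌋₊) :
    idx K n ∈ Finset.range (JJ K) := by
  rw [Finset.mem_Icc] at hn
  rw [Finset.mem_range]
  unfold idx JJ
  refine Nat.lt_succ_of_le (Nat.log_mono_right (Nat.floor_le_floor ?_))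
  have hn0 : (1 : ℝ) ≤ n := by exact_mod_cast hn.1
  exact div_le_self (by linarith) hn0

theorem split (K : ℝ) (hK : 1 ≤ K) (τ : ℝ) :
    UC.Dp ⌊K⌋₊ (fun _ => 1) τ = ∑ j ∈ Finset.range (JJ K), DS (A K j) τ := by
  rw [Dp_E]
  unfold DS A
  rw [Finset.sum_fiberwise_of_maps_to (fun n hn => idx_lt K hK n hn)]
  refine Finset.sum_congr rfl fun n _ => ?_
  rw [one_mul]

theorem JJ_le (K ε : ℝ) (hK : 1 ≤ K) (hε : 0 < ε) :
    (JJ K : ℝ) ^ 2 ≤ (1 + 2 / (ε * Real.log 2)) ^ 2 * K ^ ε := by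
  have hl2 : 0 < Real.log 2 := Real.log_pos (by norm_num)
  have hfl : ⌊K⌋₊ ≠ 0 := by
    have : 1 ≤ ⌊K⌋₊ := Nat.le_floor (by exact_mod_cast hK)
    omega
  have h1 : (2 : ℝ) ^ (Nat.log 2 ⌊K⌋₊) ≤ K := by
    have := Nat.pow_log_le_self 2 hfl
    have h2 : ((2 ^ (Nat.log 2 ⌊K⌋₊) : ℕ) : ℝ) ≤ K :=
      (Nat.le_floor_iff (by linarith)).mp this
    exact_mod_cast h2
  have h2 : (Nat.log 2 ⌊K⌋₊ : ℝ) * Real.log 2 ≤ Real.log K := by
    have := Real.log_le_log (by positivity) h1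
    rwa [Real.log_pow] at this
  have h3 := Real.log_le_rpow_div (by linarith : 0 ≤ K) (show 0 < ε / 2 by positivity)
  have hK2 : 1 ≤ K ^ (ε / 2) := Real.one_le_rpow hK (by positivity)
  have h4 : (JJ K : ℝ) ≤ (1 + 2 / (ε * Real.log 2)) * K ^ (ε / 2) := by
    unfold JJ
    push_cast
    have h5 : (Nat.log 2 ⌊K⌋₊ : ℝ) ≤ (2 / (ε * Real.log 2)) * K ^ (ε / 2) := by
      have : (2 / (ε * Real.log 2)) * K ^ (ε / 2) = (K ^ (ε / 2) / (ε / 2)) / Real.log 2 := by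
        field_simp
      rw [this, le_div_iff₀ hl2]
      exact h2.trans h3
    linarith
  have h5 : K ^ ε = (K ^ (ε / 2)) ^ 2 := by
    rw [← Real.rpow_natCast, ← Real.rpow_mul (by linarith)]
    congr 1
    push_cast
    ring
  rw [h5, ← mul_pow]
  exact pow_le_pow_left₀ (by positivity) h4 2

end J4_aux

open J4_aux in
theorem iJ4 (_h1 : StJ1) : StJ4 := by
  intro ε hε
  have hl2 : 0 < Real.log 2 := Real.log_pos (by norm_num)
  have hc : 0 ≤ 2 / (ε * Real.log 2) := by positivity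
  refine ⟨(1 + 2 / (ε * Real.log 2)) ^ 2, by nlinarith, ?_⟩
  intro K W hK
  set B := ∑ s ∈ W, ∑ t ∈ W, ‖UC.Bl UB.om K (s - t)‖ ^ 2 with hB
  set B2 := ∑ s ∈ W, ∑ t ∈ W, ‖UC.Bl UB.om (2 * K) (s - t)‖ ^ 2 with hB2
  have hB0 : 0 ≤ B := Finset.sum_nonneg fun s _ => Finset.sum_nonneg fun t _ => by positivity
  have hB20 : 0 ≤ B2 := Finset.sum_nonneg fun s _ => Finset.sum_nonneg fun t _ => by positivity
  have hp : ∀ j, ∑ s ∈ W, ∑ t ∈ W, ‖DS (A K j) (s - t)‖ ^ 2 ≤ B := fun j =>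
    piece K hK W (A K j) (2 ^ (j + 1)) (Nat.one_le_two_pow) (fun n hn => A_spec K hK j n hn)
  have hcs : Ss K W ≤ (JJ K : ℝ) * ∑ j ∈ Finset.range (JJ K),
      ∑ s ∈ W, ∑ t ∈ W, ‖DS (A K j) (s - t)‖ ^ 2 := by
    have h1 : ∀ τ : ℝ, ‖UC.Dp ⌊K⌋₊ (fun _ => 1) τ‖ ^ 2 ≤
        (JJ K : ℝ) * ∑ j ∈ Finset.range (JJ K), ‖DS (A K j) τ‖ ^ 2 := by
      intro τ
      rw [split K hK τ]
      calc ‖∑ j ∈ Finset.range (JJ K), DS (A K j) τ‖ ^ 2
          ≤ (∑ j ∈ Finset.range (JJ K), ‖DS (A K j) τ‖) ^ 2 :=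
            pow_le_pow_left₀ (norm_nonneg _) (norm_sum_le _ _) 2
        _ ≤ ((Finset.range (JJ K)).card : ℝ) * ∑ j ∈ Finset.range (JJ K), ‖DS (A K j) τ‖ ^ 2 :=
            sq_sum_le_card_mul_sum_sq
        _ = _ := by rw [Finset.card_range]
    have h2 : ∑ j ∈ Finset.range (JJ K), ∑ s ∈ W, ∑ t ∈ W, ‖DS (A K j) (s - t)‖ ^ 2
        = ∑ s ∈ W, ∑ t ∈ W, ∑ j ∈ Finset.range (JJ K), ‖DS (A K j) (s - t)‖ ^ 2 := by
      rw [Finset.sum_comm]
      refine Finset.sum_congr rfl fun s _ => ?_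
      rw [Finset.sum_comm]
    rw [h2, Finset.mul_sum]
    unfold Ss
    refine Finset.sum_le_sum fun s _ => ?_
    rw [Finset.mul_sum]
    exact Finset.sum_le_sum fun t _ => h1 (s - t)
  have h3 : ∑ j ∈ Finset.range (JJ K), ∑ s ∈ W, ∑ t ∈ W, ‖DS (A K j) (s - t)‖ ^ 2
      ≤ (JJ K : ℝ) * B := by
    refine (Finset.sum_le_sum fun j _ => hp j).trans (le_of_eq ?_)
    rw [Finset.sum_const, Finset.card_range, nsmul_eq_mul]
  have h4 := JJ_le K ε hK hε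
  calc Ss K W ≤ (JJ K : ℝ) * ((JJ K : ℝ) * B) :=
        hcs.trans (mul_le_mul_of_nonneg_left h3 (by positivity))
    _ = (JJ K : ℝ) ^ 2 * B := by ring
    _ ≤ ((1 + 2 / (ε * Real.log 2)) ^ 2 * K ^ ε) * B := mul_le_mul_of_nonneg_right h4 hB0
    _ ≤ ((1 + 2 / (ε * Real.log 2)) ^ 2 * K ^ ε) * (B + B2) := by
        refine mul_le_mul_of_nonneg_left (by linarith) ?_
        have : 0 ≤ K ^ ε := Real.rpow_nonneg (by linarith) _
        positivity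

end Pool.Agent.Work.MP_a8fbd7_nt.OX
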