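import Pool.Agent.Work.MP_a8fbd7_nt.OX.LV.Stmts2
import Pool.Agent.Work.MP_56b8f5_nt.UC.I_Ow

/-!
MP_a8fbd7_nt, block OX, part LV2, item J5: the base bound for the double sums.
-/

set_option autoImplicit false

open MeasureTheory Set Filter Topology

noncomputable section

namespace Pool.Agent.Work.MP_a8fbd7_nt.OX

open Pool.Agent.Work.MP_56b8f5_nt

namespace J5_aux

/-- the double sum of the blocks -/
lemma blocks {C C2 : ℝ} (hC : 1 ≤ C)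
    (hKp : ∀ N t : ℝ, 0 < N → ‖UC.Bl UB.om N t‖ ≤ C * (N / (1 + t ^ 2) + Real.sqrt (1 + |t|)))
    {N T0 T : ℝ} {W : Finset ℝ} (hN : 0 < N) (hT : 1 ≤ T)
    (hS : ∀ x : ℝ, ∑ t ∈ W, 1 / (1 + (x - t) ^ 2) ≤ C2)
    (hW : ∀ t ∈ W, T0 ≤ t ∧ t ≤ T0 + T) :
    ∑ s ∈ W, ∑ t ∈ W, ‖UC.Bl UB.om N (s - t)‖ ^ 2 ≤
      2 * C ^ 2 * (C2 * N ^ 2 * W.card + 2 * T * (W.card : ℝ) ^ 2) := by
  have h1 : ∀ s ∈ W, ∀ t ∈ W, ‖UC.Bl UB.om N (s - t)‖ ^ 2 ≤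
      2 * C ^ 2 * (N ^ 2 * (1 / (1 + (s - t) ^ 2)) + 2 * T) := by
    intro s hs t ht
    have h2 := hKp N (s - t) hN
    have hτ : |s - t| ≤ T := by
      rw [abs_le]
      have := hW s hs
      have := hW t ht
      constructor <;> linarith
    have hq : 0 < 1 + (s - t) ^ 2 := by positivity
    have hsq : Real.sqrt (1 + |s - t|) ^ 2 = 1 + |s - t| := Real.sq_sqrt (by positivity)
    have hs0 := Real.sqrt_nonneg (1 + |s - t|)
    have hd0 : 0 ≤ N / (1 + (s - t) ^ 2) := by positivity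
    have h3 : ‖UC.Bl UB.om N (s - t)‖ ^ 2 ≤
        (C * (N / (1 + (s - t) ^ 2) + Real.sqrt (1 + |s - t|))) ^ 2 :=
      pow_le_pow_left₀ (norm_nonneg _) h2 2
    have h4 : (N / (1 + (s - t) ^ 2)) ^ 2 ≤ N ^ 2 * (1 / (1 + (s - t) ^ 2)) := by
      rw [div_pow, div_eq_mul_one_div]
      refine mul_le_mul_of_nonneg_left ?_ (by positivity)
      rw [div_le_div_iff₀ (by positivity) hq]
      nlinarith [sq_nonneg (s - t), sq_nonneg ((s - t) ^ 2)]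
    have h5 : (N / (1 + (s - t) ^ 2) + Real.sqrt (1 + |s - t|)) ^ 2 ≤
        2 * (N ^ 2 * (1 / (1 + (s - t) ^ 2)) + 2 * T) := by
      nlinarith [sq_nonneg (N / (1 + (s - t) ^ 2) - Real.sqrt (1 + |s - t|))]
    calc ‖UC.Bl UB.om N (s - t)‖ ^ 2
        ≤ C ^ 2 * (N / (1 + (s - t) ^ 2) + Real.sqrt (1 + |s - t|)) ^ 2 := by
          rw [← mul_pow]; exact h3
      _ ≤ C ^ 2 * (2 * (N ^ 2 * (1 / (1 + (s - t) ^ 2)) + 2 * T)) :=
          mul_le_mul_of_nonneg_left h5 (by positivity)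
      _ = _ := by ring
  calc ∑ s ∈ W, ∑ t ∈ W, ‖UC.Bl UB.om N (s - t)‖ ^ 2
      ≤ ∑ s ∈ W, ∑ t ∈ W, 2 * C ^ 2 * (N ^ 2 * (1 / (1 + (s - t) ^ 2)) + 2 * T) :=
        Finset.sum_le_sum fun s hs => Finset.sum_le_sum fun t ht => h1 s hs t ht
    _ = ∑ s ∈ W, 2 * C ^ 2 * (N ^ 2 * (∑ t ∈ W, 1 / (1 + (s - t) ^ 2)) + 2 * T * W.card) := by
        refine Finset.sum_congr rfl fun s _ => ?_
        rw [← Finset.mul_sum, Finset.sum_add_distrib, ← Finset.mul_sum, Finset.sum_const,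
          nsmul_eq_mul]
        ring
    _ ≤ ∑ s ∈ W, 2 * C ^ 2 * (N ^ 2 * C2 + 2 * T * W.card) := by
        refine Finset.sum_le_sum fun s _ => ?_
        refine mul_le_mul_of_nonneg_left ?_ (by positivity)
        have := mul_le_mul_of_nonneg_left (hS s) (sq_nonneg N)
        linarith
    _ = 2 * C ^ 2 * (C2 * N ^ 2 * W.card + 2 * T * (W.card : ℝ) ^ 2) := by
        rw [Finset.sum_const, nsmul_eq_mul]
        ring

end J5_aux

open J5_aux in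
theorem iJ5 (h1 : StJ4) (h2 : UC.StKp) (h3 : UC.StS2) : StJ5 := by
  intro ε hε
  obtain ⟨C4, hC4, h4⟩ := h1 ε hε
  obtain ⟨C, hC, hKp⟩ := h2 UB.om UC.isWt_om
  obtain ⟨C2, hC2, hS2⟩ := h3
  refine ⟨C4 * (10 * C ^ 2 * C2), ?_, ?_⟩
  · have : 1 ≤ C ^ 2 * C2 := one_le_mul_of_one_le_of_one_le (one_le_pow₀ hC) hC2
    nlinarith
  intro K T0 T W hK hT hsep hW
  have hS := (hS2 W hsep).1
  have hK0 : 0 < K := by linarith
  have a1 := blocks hC hKp hK0 hT hS hW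
  have a2 := blocks hC hKp (show 0 < 2 * K by linarith) hT hS hW
  have hKe : 0 ≤ K ^ ε := Real.rpow_nonneg hK0.le _
  have hR : (0 : ℝ) ≤ W.card := Nat.cast_nonneg _
  have hC20 : 0 ≤ C ^ 2 := by positivity
  calc Ss K W ≤ C4 * K ^ ε * ((∑ s ∈ W, ∑ t ∈ W, ‖UC.Bl UB.om K (s - t)‖ ^ 2) +
        ∑ s ∈ W, ∑ t ∈ W, ‖UC.Bl UB.om (2 * K) (s - t)‖ ^ 2) := h4 K W hK
    _ ≤ C4 * K ^ ε * (10 * C ^ 2 * C2 * (K ^ 2 * W.card + T * (W.card : ℝ) ^ 2)) := by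
        refine mul_le_mul_of_nonneg_left ?_ (by positivity)
        have e1 : 0 ≤ C ^ 2 * (T * (W.card : ℝ) ^ 2) * (C2 - 1) :=
          mul_nonneg (by positivity) (by linarith)
        have e2 : 0 ≤ C ^ 2 * (T * (W.card : ℝ) ^ 2) := by positivity
        linarith
    _ = C4 * (10 * C ^ 2 * C2) * K ^ ε * (K ^ 2 * W.card + T * (W.card : ℝ) ^ 2) := by ring

end Pool.Agent.Work.MP_a8fbd7_nt.OX
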