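import Pool.Agent.Work.MP_a8fbd7_nt.OX.LV.Stmts2
import Pool.Agent.Work.MP_56b8f5_nt.UC.I_T2

/-!
MP_a8fbd7_nt, block OX, part LV2, item J6: reflection for the double sums.  Author: helper92.
-/

set_option autoImplicit false

open MeasureTheory Set Filter Topology

noncomputable section

namespace Pool.Agent.Work.MP_a8fbd7_nt.OX

open Pool.Agent.Work.MP_56b8f5_nt
open Pool.Agent.Work.MP_56b8f5_nt.UC.T2_aux (wy wy_nonneg wy_int Kw Kw_nonneg int_bdd cs Gw Gw_nonneg)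

namespace J6_aux

/-- near pairs -/
lemma near {c1 c2 CS CN : ℝ} (hc1 : 0 < c1) (hc12 : c1 < c2) (hCS : 1 ≤ CS)
    (hS : ∀ (N t : ℝ) (m : ℤ), 0 < N → m ≠ 0 →
      ¬ (c1 * |t| ≤ |(m : ℝ)| * N ∧ |(m : ℝ)| * N ≤ c2 * |t| ∧ (m : ℝ) * t < 0) →
      ‖UC.Im UB.om N t m‖ ≤ CS * N / (|(m : ℝ)| * N + |t|) ^ 2)
    (hN0 : ∀ N t : ℝ, 0 < N → ‖UC.Im UB.om N t 0‖ ≤ CN * N / (1 + |t|) ^ 2)
    (hPo : ∀ N t : ℝ, 0 < N → (Summable fun m : ℤ => ‖UC.Im UB.om N t m‖) ∧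
      UC.Bl UB.om N t = ∑' m : ℤ, UC.Im UB.om N t m)
    {N t : ℝ} (hN : 1 ≤ N) (ht : |t| ≤ 1 / (2 * c2) * N) :
    ‖UC.Bl UB.om N t‖ ≤ CN * N / (1 + |t|) ^ 2 + CS * ∑' m : ℤ, 1 / (m : ℝ) ^ 2 := by
  have hc2 : 0 < c2 := hc1.trans hc12
  have hNp : 0 < N := by linarith
  have hsum : Summable fun m : ℤ => 1 / (m : ℝ) ^ 2 := Real.summable_one_div_int_pow.mpr (by norm_num)
  obtain ⟨hs, he⟩ := hPo N t hNp
  rw [he]
  refine (norm_tsum_le_tsum_norm hs).trans ?_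
  set a : ℝ := CN * N / (1 + |t|) ^ 2 with ha
  have hite : HasSum (fun m : ℤ => if m = 0 then a else 0) a := hasSum_ite_eq 0 a
  have hb : Summable fun m : ℤ => (if m = 0 then a else 0) + CS * (1 / (m : ℝ) ^ 2) :=
    hite.summable.add (hsum.mul_left CS)
  have hp : ∀ m : ℤ, ‖UC.Im UB.om N t m‖ ≤ (if m = 0 then a else 0) + CS * (1 / (m : ℝ) ^ 2) := by
    intro m
    by_cases hm0 : m = 0
    · subst hm0
      have := hN0 N t hNp
      simpa using this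
    · rw [if_neg hm0, zero_add]
      have hm1 : (1 : ℝ) ≤ |(m : ℝ)| := by
        have : (1 : ℤ) ≤ |m| := Int.one_le_abs hm0
        exact_mod_cast this
      have hx : c2 * |t| ≤ N / 2 := by
        calc c2 * |t| ≤ c2 * (1 / (2 * c2) * N) := by gcongr
          _ = N / 2 := by field_simp
      have h2 := hS N t m hNp hm0 (by
        rintro ⟨_, h, _⟩
        nlinarith)
      refine h2.trans ?_
      rw [div_le_iff₀ (by positivity), ← sq_abs (m : ℝ)]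
      have h3 : |(m : ℝ)| ^ 2 * N ^ 2 ≤ (|(m : ℝ)| * N + |t|) ^ 2 := by
        rw [← mul_pow]
        have := abs_nonneg t
        gcongr
        linarith
      calc CS * N ≤ CS * N ^ 2 := by
            have : N ≤ N ^ 2 := by nlinarith
            gcongr
        _ = CS * (1 / |(m : ℝ)| ^ 2) * (|(m : ℝ)| ^ 2 * N ^ 2) := by
            field_simp
        _ ≤ CS * (1 / |(m : ℝ)| ^ 2) * (|(m : ℝ)| * N + |t|) ^ 2 := by gcongr
  refine (hs.tsum_le_tsum hp hb).trans (le_of_eq ?_)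
  rw [hite.summable.tsum_add (hsum.mul_left CS), hite.tsum_eq, tsum_mul_left]

lemma sq_add (a b : ℝ) : (a + b) ^ 2 ≤ 2 * a ^ 2 + 2 * b ^ 2 := by
  nlinarith [sq_nonneg (a - b)]

/-- near pairs, squared -/
lemma near_sq {CN N t X Z : ℝ} (hCN : 1 ≤ CN) (hN : 1 ≤ N) (hX0 : 0 ≤ X)
    (h : X ≤ CN * N / (1 + |t|) ^ 2 + Z) :
    X ^ 2 ≤ 2 * CN ^ 2 * (N ^ 2 * (1 / (1 + t ^ 2))) + 2 * Z ^ 2 := by
  have h1 : X ^ 2 ≤ (CN * N / (1 + |t|) ^ 2 + Z) ^ 2 := pow_le_pow_left₀ hX0 h 2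
  refine h1.trans ((sq_add _ _).trans ?_)
  have h2 : (CN * N / (1 + |t|) ^ 2) ^ 2 ≤ CN ^ 2 * (N ^ 2 * (1 / (1 + t ^ 2))) := by
    rw [div_pow, mul_pow, ← mul_assoc, mul_one_div]
    have hq : 0 < 1 + t ^ 2 := by positivity
    refine div_le_div_of_nonneg_left (by positivity) hq ?_
    have h3 : 1 + t ^ 2 ≤ (1 + |t|) ^ 2 := by
      have := abs_nonneg t
      have h4 := sq_abs t
      nlinarith
    have h5 : 1 ≤ (1 + |t|) ^ 2 := by
      have := abs_nonneg t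
      nlinarith
    calc 1 + t ^ 2 ≤ (1 + |t|) ^ 2 * 1 := by linarith
      _ ≤ (1 + |t|) ^ 2 * (1 + |t|) ^ 2 := by gcongr
      _ = ((1 + |t|) ^ 2) ^ 2 := by ring
  linarith

/-- far pairs -/
lemma far {u : ℝ → ℝ} (hcont : ∀ N : ℝ, 0 < N → Continuous (UC.Bl u N)) {CB : ℝ}
    (hBb : ∀ N t : ℝ, 0 < N → ‖UC.Bl u N t‖ ≤ CB * N)
    {CR c : ℝ} (hCR : 1 ≤ CR) (hc : 0 < c)
    (hR : ∀ N D t : ℝ, 0 < N → 1 ≤ D → D ≤ |t| → |t| ≤ 2 * D →
      ‖UC.Bl UB.om N t‖ ≤ CR * (N / Real.sqrt D) *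
        (∫ y : ℝ, ‖UC.Bl u (D / N) (t + y)‖ / (1 + |y|) ^ 2) + CR / D + CR * N / D ^ 2)
    {N D x : ℝ} (hN : 1 ≤ N) (hD1 : 1 ≤ D) (hDN : c * N ≤ D) (hDx : D ≤ |x|) (hxD : |x| ≤ 2 * D) :
    ‖UC.Bl UB.om N x‖ ^ 2 ≤ 2 * (CR + CR / c) ^ 2 +
      2 * CR ^ 2 * Kw * (N ^ 2 / D * Gw u (D / N) x) := by
  have hDN0 : 0 < D / N := by positivity
  have hND : N / D ^ 2 ≤ 1 / c := by
    rw [div_le_div_iff₀ (by positivity) hc]
    nlinarith
  have h3 := hR N D x (by linarith) hD1 hDx hxD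
  set J : ℝ := ∫ y : ℝ, ‖UC.Bl u (D / N) (x + y)‖ / (1 + |y|) ^ 2 with hJ
  have hJ' : J = ∫ y : ℝ, ‖UC.Bl u (D / N) (x + y)‖ * wy y := by
    rw [hJ]; congr 1; funext y; simp only [wy]; ring
  have hcn : Continuous fun y => ‖UC.Bl u (D / N) (x + y)‖ :=
    ((hcont _ hDN0).comp (by fun_prop)).norm
  have hJ2 : J ^ 2 ≤ Kw * Gw u (D / N) x := by
    rw [hJ']
    exact cs hcn (B := CB * (D / N)) (fun y => by rw [abs_norm]; exact hBb _ _ hDN0)
  have hJ0 : 0 ≤ J := by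
    rw [hJ']; exact integral_nonneg (fun y => mul_nonneg (norm_nonneg _) (wy_nonneg y))
  have e1 : CR / D ≤ CR := div_le_self (by linarith) hD1
  have e2 : CR * N / D ^ 2 ≤ CR / c := by
    calc CR * N / D ^ 2 = CR * (N / D ^ 2) := by ring
      _ ≤ CR * (1 / c) := by gcongr
      _ = CR / c := by ring
  have h5 : ‖UC.Bl UB.om N x‖ ≤ (CR + CR / c) + CR * (N / Real.sqrt D) * J := by linarith
  have hsq : (CR * (N / Real.sqrt D) * J) ^ 2 = CR ^ 2 * (N ^ 2 / D) * J ^ 2 := by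
    rw [mul_pow, mul_pow, div_pow, Real.sq_sqrt (by linarith)]
  have h8 : ‖UC.Bl UB.om N x‖ ^ 2 ≤ ((CR + CR / c) + CR * (N / Real.sqrt D) * J) ^ 2 :=
    pow_le_pow_left₀ (norm_nonneg _) h5 2
  have h9 : CR ^ 2 * (N ^ 2 / D) * J ^ 2 ≤ CR ^ 2 * (N ^ 2 / D) * (Kw * Gw u (D / N) x) := by
    gcongr
  have h10 := sq_add (CR + CR / c) (CR * (N / Real.sqrt D) * J)
  rw [hsq] at h10
  calc ‖UC.Bl UB.om N x‖ ^ 2 ≤ 2 * (CR + CR / c) ^ 2 + 2 * (CR ^ 2 * (N ^ 2 / D) * J ^ 2) :=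
        h8.trans h10
    _ ≤ 2 * (CR + CR / c) ^ 2 + 2 * (CR ^ 2 * (N ^ 2 / D) * (Kw * Gw u (D / N) x)) := by
        linarith
    _ = _ := by ring

/-- the double sum of `Gw` -/
lemma sum_Gw {u : ℝ → ℝ} (hcont : ∀ N : ℝ, 0 < N → Continuous (UC.Bl u N)) {CB : ℝ}
    (hBb : ∀ N t : ℝ, 0 < N → ‖UC.Bl u N t‖ ≤ CB * N) {W : Finset ℝ} {N B : ℝ} (hN : 0 < N)
    (hB : ∀ y : ℝ, ∑ s ∈ W, ∑ t ∈ W, ‖UC.Bl u N (s - t + y)‖ ^ 2 ≤ B) :
    ∑ s ∈ W, ∑ t ∈ W, Gw u N (s - t) ≤ B * Kw := by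
  have hi : ∀ x : ℝ, Integrable (fun y => ‖UC.Bl u N (x + y)‖ ^ 2 * wy y) := by
    intro x
    refine int_bdd (((hcont _ hN).comp (by fun_prop)).norm.pow 2) (B := (CB * N) ^ 2) (fun y => ?_)
    rw [abs_pow, abs_norm]
    exact pow_le_pow_left₀ (norm_nonneg _) (hBb _ _ hN) 2
  have e1 : ∑ s ∈ W, ∑ t ∈ W, Gw u N (s - t) =
      ∫ y, ∑ s ∈ W, ∑ t ∈ W, ‖UC.Bl u N (s - t + y)‖ ^ 2 * wy y := by
    rw [integral_finsetSum _ (fun s _ => integrable_finsetSum _ (fun t _ => hi (s - t)))]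
    refine Finset.sum_congr rfl fun s _ => ?_
    rw [integral_finsetSum _ (fun t _ => hi (s - t))]
    rfl
  rw [e1]
  have h1 : ∫ y, ∑ s ∈ W, ∑ t ∈ W, ‖UC.Bl u N (s - t + y)‖ ^ 2 * wy y ≤ ∫ y, B * wy y := by
    refine integral_mono (integrable_finsetSum _ (fun s _ => integrable_finsetSum _
      (fun t _ => hi (s - t)))) (wy_int.const_mul _) (fun y => ?_)
    simp only
    simp only [← Finset.sum_mul]
    exact mul_le_mul_of_nonneg_right (hB y) (wy_nonneg y)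
  refine h1.trans (le_of_eq ?_)
  rw [integral_const_mul]; rfl

/-- `Ss` is nonnegative -/
lemma Ss_nonneg (K : ℝ) (W : Finset ℝ) : 0 ≤ Ss K W :=
  Finset.sum_nonneg fun _ _ => Finset.sum_nonneg fun _ _ => by positivity

lemma Ss_zero {K : ℝ} (hK : K < 1) (W : Finset ℝ) : Ss K W = 0 := by
  have h1 : ⌊K⌋₊ = 0 := Nat.floor_eq_zero.2 hK
  unfold Ss
  rw [h1]
  simp [UC.Dp]

/-- one scale: amplification -/
lemma scale {e Cu C3 : ℝ} (he : 0 < e) (hCu : 1 ≤ Cu) (hC3 : 1 ≤ C3) {W : Finset ℝ}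
    (h3 : ∀ (K K' : ℝ), 1 ≤ K → K ≤ K' → Ss K W ≤ C3 * K' ^ e * (K / K') * Ss K' W)
    {K N D T : ℝ} (hK : 1 ≤ K) (hKT : K ≤ T) (hKN : K ≤ N) (hNK : N ≤ 2 * K) (hD : 0 < D)
    (hDT : D ≤ T) :
    N ^ 2 / D * (Cu * Ss (Cu * (D / N)) W) ≤
      2 * Cu * C3 * Cu ^ e * T ^ e * (K ^ 2 / T * Ss (Cu * T / K) W) := by
  have hK0 : 0 < K := by linarith
  have hN0 : 0 < N := by linarith
  have hT0 : 0 < T := by linarith
  have hS0 := Ss_nonneg (Cu * T / K) W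
  have hRHS : 0 ≤ 2 * Cu * C3 * Cu ^ e * T ^ e * (K ^ 2 / T * Ss (Cu * T / K) W) := by positivity
  by_cases h1 : Cu * (D / N) < 1
  · rw [Ss_zero h1, mul_zero, mul_zero]
    exact hRHS
  · push Not at h1
    have h2 : Cu * (D / N) ≤ Cu * T / K := by
      rw [mul_div_assoc]
      gcongr
    have h4 := h3 _ _ h1 h2
    have h5 : (Cu * T / K) ^ e ≤ Cu ^ e * T ^ e := by
      rw [← Real.mul_rpow (by linarith) hT0.le]
      refine Real.rpow_le_rpow (by positivity) ?_ he.le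
      exact div_le_self (by positivity) hK
    have h6 : Cu * (D / N) / (Cu * T / K) = D * K / (N * T) := by
      field_simp
    rw [h6] at h4
    calc N ^ 2 / D * (Cu * Ss (Cu * (D / N)) W)
        ≤ N ^ 2 / D * (Cu * (C3 * (Cu * T / K) ^ e * (D * K / (N * T)) * Ss (Cu * T / K) W)) := by
          gcongr
      _ = N * K / T * (Cu * C3 * (Cu * T / K) ^ e * Ss (Cu * T / K) W) := by
          field_simp
      _ ≤ 2 * K * K / T * (Cu * C3 * (Cu ^ e * T ^ e) * Ss (Cu * T / K) W) := by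
          gcongr
      _ = _ := by ring

/-- the set of scales -/
lemma count {T e D0 : ℝ} (hT : 1 ≤ T) (he : 0 < e) (I0 : ℕ) (hI0 : I0 = ⌊Real.log T / Real.log 2⌋₊ + 1) :
    (((Finset.range I0).filter (fun i => (2 : ℝ) ^ i * D0 ≤ T)).card : ℝ) ≤
      (1 / e / Real.log 2 + 1) * T ^ e := by
  have hlog2 : 0 < Real.log 2 := Real.log_pos (by norm_num)
  have hT0 : 0 < T := by linarith
  have h1 : (((Finset.range I0).filter (fun i => (2 : ℝ) ^ i * D0 ≤ T)).card : ℝ) ≤ I0 := by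
    exact_mod_cast (Finset.card_filter_le _ _).trans (by simp)
  have h2 : (I0 : ℝ) ≤ Real.log T / Real.log 2 + 1 := by
    rw [hI0]; push_cast
    have := Nat.floor_le (div_nonneg (Real.log_nonneg hT) hlog2.le)
    linarith
  have h3 : Real.log T ≤ T ^ e / e := Real.log_le_rpow_div hT0.le he
  have h4 : 1 ≤ T ^ e := Real.one_le_rpow hT he.le
  calc _ ≤ Real.log T / Real.log 2 + 1 := h1.trans h2
    _ ≤ T ^ e / e / Real.log 2 + T ^ e := by gcongr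
    _ = (1 / e / Real.log 2 + 1) * T ^ e := by ring

end J6_aux

open J6_aux in
theorem iJ6 (h1 : StJ2) (h2 : StJ3) (h3 : StJ4) (h4 : UC.StRf) (h5 : UC.StPo) (h6 : UC.StN0)
    (h7 : UC.StNs) (h8 : UC.StBc) (h9 : UC.StS2) : StJ6 := by
  intro ε hε
  obtain ⟨CN, hCN1, hN0⟩ := h6 UB.om UC.isWt_om 2
  obtain ⟨c1, c2, CS, hc1, hc12, hCS1, hS⟩ := h7 UB.om UC.isWt_om
  obtain ⟨u, hu, hRf'⟩ := h4 UB.om UC.isWt_om
  obtain ⟨CR, hCR1, hR⟩ := hRf' 2 le_rfl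
  obtain ⟨_, hcont, _, CB, hCB1, hBb, _⟩ := h8 u hu
  obtain ⟨CC, hCC1, hcard⟩ := h9
  obtain ⟨hmono, _, hJ2⟩ := h1
  obtain ⟨Cu, hCu1, hU⟩ := hJ2 u hu
  have he : 0 < ε / 4 := by linarith
  obtain ⟨C3, hC31, hJ3⟩ := h2 (ε / 4) he
  obtain ⟨C4, hC41, hJ4⟩ := h3 (ε / 2) (by linarith)
  have hc2 : 0 < c2 := hc1.trans hc12
  obtain ⟨c, hc⟩ : ∃ c : ℝ, c = 1 / (2 * c2) := ⟨_, rfl⟩
  have hc0 : 0 < c := by rw [hc]; positivity
  obtain ⟨Z, hZ⟩ : ∃ Z : ℝ, Z = CS * ∑' m : ℤ, 1 / (m : ℝ) ^ 2 := ⟨_, rfl⟩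
  have hKw := Kw_nonneg
  obtain ⟨A1, hA1⟩ : ∃ A1 : ℝ, A1 = 2 * (CR + CR / c) ^ 2 + 2 * Z ^ 2 := ⟨_, rfl⟩
  obtain ⟨A2, hA2⟩ : ∃ A2 : ℝ, A2 = 2 * CR ^ 2 * Kw := ⟨_, rfl⟩
  obtain ⟨A3, hA3⟩ : ∃ A3 : ℝ, A3 = 2 * CN ^ 2 := ⟨_, rfl⟩
  have hA10 : 0 ≤ A1 := by rw [hA1]; positivity
  have hA20 : 0 ≤ A2 := by rw [hA2]; positivity
  have hA30 : 0 ≤ A3 := by rw [hA3]; positivity
  have hlog2 : 0 < Real.log 2 := Real.log_pos (by norm_num)
  obtain ⟨C5, hC5⟩ : ∃ C5 : ℝ, C5 = 1 / (ε / 4) / Real.log 2 + 1 := ⟨_, rfl⟩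
  have hC50 : 0 ≤ C5 := by rw [hC5]; positivity
  obtain ⟨E, hE⟩ : ∃ E : ℝ, E = C5 * A2 * Kw * (2 * Cu * C3 * Cu ^ (ε / 4)) := ⟨_, rfl⟩
  have hE0 : 0 ≤ E := by rw [hE]; positivity
  -- one block
  have block : ∀ (K T0 T : ℝ) (W : Finset ℝ), 1 ≤ K → K ≤ T → UC.Sep W →
      (∀ t ∈ W, T0 ≤ t ∧ t ≤ T0 + T) → ∀ N : ℝ, K ≤ N → N ≤ 2 * K →
      ∑ s ∈ W, ∑ t ∈ W, ‖UC.Bl UB.om N (s - t)‖ ^ 2 ≤
        4 * A3 * CC * (K ^ 2 * W.card) + A1 * (K * (W.card : ℝ) ^ 2) +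
          E * T ^ (ε / 2) * (K ^ 2 / T * Ss (Cu * T / K) W) := by
    intro K T0 T W hK hKT hSep hWT N hKN hNK
    have hT : 1 ≤ T := hK.trans hKT
    have hT0 : 0 < T := by linarith
    have hN : 1 ≤ N := hK.trans hKN
    obtain ⟨D0, hD0⟩ : ∃ D0 : ℝ, D0 = max 1 (c * N) := ⟨_, rfl⟩
    have hD01 : 1 ≤ D0 := by rw [hD0]; exact le_max_left _ _
    have hD0N : c * N ≤ D0 := by rw [hD0]; exact le_max_right _ _
    obtain ⟨I0, hI0⟩ : ∃ I0 : ℕ, I0 = ⌊Real.log T / Real.log 2⌋₊ + 1 := ⟨_, rfl⟩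
    obtain ⟨S, hSdef⟩ : ∃ S : Finset ℕ, S = (Finset.range I0).filter (fun i => (2 : ℝ) ^ i * D0 ≤ T) :=
      ⟨_, rfl⟩
    have hScard : (S.card : ℝ) ≤ C5 * T ^ (ε / 4) := by
      rw [hSdef, hC5]; exact count hT he I0 hI0
    have hpair : ∀ s ∈ W, ∀ t ∈ W, ‖UC.Bl UB.om N (s - t)‖ ^ 2 ≤
        A3 * (N ^ 2 * (1 / (1 + (s - t) ^ 2))) + A1 +
          ∑ i ∈ S, A2 * (N ^ 2 / (2 ^ i * D0) * Gw u (2 ^ i * D0 / N) (s - t)) := by
      intro s hs t ht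
      have hxT : |s - t| ≤ T := by
        rw [abs_le]
        constructor <;> linarith [(hWT s hs).1, (hWT s hs).2, (hWT t ht).1, (hWT t ht).2]
      have hsum0 : 0 ≤ ∑ i ∈ S, A2 * (N ^ 2 / (2 ^ i * D0) * Gw u (2 ^ i * D0 / N) (s - t)) := by
        refine Finset.sum_nonneg (fun i _ => ?_)
        have := Gw_nonneg u (2 ^ i * D0 / N) (s - t)
        positivity
      have hq0 : 0 ≤ A3 * (N ^ 2 * (1 / (1 + (s - t) ^ 2))) := by positivity
      by_cases hnear : |s - t| ≤ c * N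
      · have e1 := near hc1 hc12 hCS1 hS hN0 (fun N t hN => h5 UB.om UC.isWt_om N t hN) hN
          (t := s - t) (by rw [← hc]; exact hnear)
        rw [← hZ] at e1
        have e2 := near_sq hCN1 hN (norm_nonneg _) e1
        rw [← hA3] at e2
        have e3 : 2 * Z ^ 2 ≤ A1 := by
          rw [hA1]
          have : 0 ≤ 2 * (CR + CR / c) ^ 2 := by positivity
          linarith
        linarith
      · push Not at hnear
        have hne : s ≠ t := by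
          rintro rfl
          simp at hnear
          nlinarith
        have h1x : 1 ≤ |s - t| := hSep s hs t ht hne
        have hD0x : D0 ≤ |s - t| := by rw [hD0]; exact max_le h1x hnear.le
        obtain ⟨i, hi1, hi2⟩ := exists_nat_pow_near (x := |s - t| / D0) (y := (2 : ℝ))
          (by rw [le_div_iff₀ (by linarith)]; linarith) (by norm_num)
        have hD0p : 0 < D0 := by linarith
        rw [le_div_iff₀ hD0p] at hi1
        rw [div_lt_iff₀ hD0p] at hi2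
        have hiT : (2 : ℝ) ^ i * D0 ≤ T := hi1.trans hxT
        have hiS : i ∈ S := by
          rw [hSdef, Finset.mem_filter, Finset.mem_range]
          refine ⟨?_, hiT⟩
          rw [hI0]
          have h2i : (2 : ℝ) ^ i ≤ T := by
            have : (0 : ℝ) < 2 ^ i := by positivity
            nlinarith
          have h3 : (i : ℝ) * Real.log 2 ≤ Real.log T := by
            rw [← Real.log_pow]
            exact Real.log_le_log (by positivity) h2i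
          have h4 : i ≤ ⌊Real.log T / Real.log 2⌋₊ := by
            apply Nat.le_floor
            rw [le_div_iff₀ hlog2]; exact h3
          omega
        have h2i1 : (1 : ℝ) ≤ 2 ^ i := one_le_pow₀ (by norm_num)
        have e5 := far (D := 2 ^ i * D0) hcont (fun N t hN => hBb N t hN) hCR1 hc0 hR hN
          (by nlinarith) (by nlinarith) hi1 (by rw [pow_succ] at hi2; linarith)
        have e6 : A2 * (N ^ 2 / (2 ^ i * D0) * Gw u (2 ^ i * D0 / N) (s - t)) ≤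
            ∑ i ∈ S, A2 * (N ^ 2 / (2 ^ i * D0) * Gw u (2 ^ i * D0 / N) (s - t)) := by
          refine Finset.single_le_sum
            (f := fun i : ℕ => A2 * (N ^ 2 / (2 ^ i * D0) * Gw u (2 ^ i * D0 / N) (s - t)))
            (fun j _ => ?_) hiS
          have := Gw_nonneg u (2 ^ j * D0 / N) (s - t)
          positivity
        have e7 : 2 * (CR + CR / c) ^ 2 ≤ A1 := by
          rw [hA1]
          have : 0 ≤ 2 * Z ^ 2 := by positivity
          linarith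
        rw [← hA2] at e5
        linarith
    have hscale : ∀ i ∈ S, ∑ s ∈ W, ∑ t ∈ W, (N ^ 2 / (2 ^ i * D0) * Gw u (2 ^ i * D0 / N) (s - t)) ≤
        Kw * (2 * Cu * C3 * Cu ^ (ε / 4) * T ^ (ε / 4) * (K ^ 2 / T * Ss (Cu * T / K) W)) := by
      intro i hi
      rw [hSdef, Finset.mem_filter] at hi
      have hDT : (2 : ℝ) ^ i * D0 ≤ T := hi.2
      obtain ⟨D, hD⟩ : ∃ D : ℝ, D = 2 ^ i * D0 := ⟨_, rfl⟩
      rw [← hD] at hDT ⊢
      have hD0' : 0 < D := by rw [hD]; positivity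
      have hNp : 0 < D / N := by positivity
      have e1 := sum_Gw hcont (fun N t hN => hBb N t hN) hNp
        (fun y => hU (D / N) y W hNp)
      have e2 := scale he hCu1 hC31 (fun K K' a b => hJ3 K K' W a b) hK hKT hKN hNK hD0' hDT
      calc ∑ s ∈ W, ∑ t ∈ W, (N ^ 2 / D * Gw u (D / N) (s - t))
          = N ^ 2 / D * ∑ s ∈ W, ∑ t ∈ W, Gw u (D / N) (s - t) := by
            rw [Finset.mul_sum]
            refine Finset.sum_congr rfl fun s _ => ?_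
            rw [Finset.mul_sum]
        _ ≤ N ^ 2 / D * (Cu * Ss (Cu * (D / N)) W * Kw) := by gcongr
        _ = Kw * (N ^ 2 / D * (Cu * Ss (Cu * (D / N)) W)) := by ring
        _ ≤ _ := by gcongr
    have hS2 := (hcard W hSep).1
    have step1 : ∑ s ∈ W, ∑ t ∈ W, ‖UC.Bl UB.om N (s - t)‖ ^ 2 ≤
        A3 * N ^ 2 * (∑ s ∈ W, ∑ t ∈ W, 1 / (1 + (s - t) ^ 2)) + A1 * (W.card : ℝ) ^ 2 +
          ∑ i ∈ S, A2 * ∑ s ∈ W, ∑ t ∈ W, (N ^ 2 / (2 ^ i * D0) * Gw u (2 ^ i * D0 / N) (s - t)) := by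
      calc ∑ s ∈ W, ∑ t ∈ W, ‖UC.Bl UB.om N (s - t)‖ ^ 2
          ≤ ∑ s ∈ W, ∑ t ∈ W, (A3 * (N ^ 2 * (1 / (1 + (s - t) ^ 2))) + A1 +
            ∑ i ∈ S, A2 * (N ^ 2 / (2 ^ i * D0) * Gw u (2 ^ i * D0 / N) (s - t))) :=
            Finset.sum_le_sum (fun s hs => Finset.sum_le_sum (fun t ht => hpair s hs t ht))
        _ = _ := by
            simp only [Finset.sum_add_distrib, Finset.sum_const, nsmul_eq_mul]
            congr 1
            · congr 1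
              · rw [Finset.mul_sum]
                refine Finset.sum_congr rfl fun s _ => ?_
                rw [Finset.mul_sum]
                refine Finset.sum_congr rfl fun t _ => ?_
                ring
              · ring
            · simp only [Finset.mul_sum]
              symm
              rw [Finset.sum_comm]
              refine Finset.sum_congr rfl (fun s _ => ?_)
              rw [Finset.sum_comm]
    have step2 : ∑ s ∈ W, ∑ t ∈ W, 1 / (1 + (s - t) ^ 2) ≤ CC * W.card := by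
      calc ∑ s ∈ W, ∑ t ∈ W, 1 / (1 + (s - t) ^ 2) ≤ ∑ s ∈ W, CC :=
            Finset.sum_le_sum fun s _ => hS2 s
        _ = CC * W.card := by rw [Finset.sum_const, nsmul_eq_mul]; ring
    have hSs := Ss_nonneg (Cu * T / K) W
    have hTT : T ^ (ε / 4) * T ^ (ε / 4) = T ^ (ε / 2) := by
      rw [← Real.rpow_add hT0]; congr 1; ring
    have step3 : ∑ i ∈ S, A2 * ∑ s ∈ W, ∑ t ∈ W, (N ^ 2 / (2 ^ i * D0) * Gw u (2 ^ i * D0 / N) (s - t)) ≤
        E * T ^ (ε / 2) * (K ^ 2 / T * Ss (Cu * T / K) W) := by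
      calc _ ≤ ∑ i ∈ S, A2 * (Kw * (2 * Cu * C3 * Cu ^ (ε / 4) * T ^ (ε / 4) *
              (K ^ 2 / T * Ss (Cu * T / K) W))) := by
            refine Finset.sum_le_sum (fun i hi => ?_)
            exact mul_le_mul_of_nonneg_left (hscale i hi) hA20
        _ = S.card * (A2 * (Kw * (2 * Cu * C3 * Cu ^ (ε / 4) * T ^ (ε / 4) *
              (K ^ 2 / T * Ss (Cu * T / K) W)))) := by
            rw [Finset.sum_const, nsmul_eq_mul]
        _ ≤ C5 * T ^ (ε / 4) * (A2 * (Kw * (2 * Cu * C3 * Cu ^ (ε / 4) * T ^ (ε / 4) *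
              (K ^ 2 / T * Ss (Cu * T / K) W)))) := by
            refine mul_le_mul_of_nonneg_right hScard ?_
            positivity
        _ = C5 * A2 * Kw * (2 * Cu * C3 * Cu ^ (ε / 4)) * (T ^ (ε / 4) * T ^ (ε / 4)) *
              (K ^ 2 / T * Ss (Cu * T / K) W) := by ring
        _ = _ := by rw [hTT, hE]
    have hRc : (0 : ℝ) ≤ W.card := Nat.cast_nonneg _
    have step4 : A3 * N ^ 2 * (∑ s ∈ W, ∑ t ∈ W, 1 / (1 + (s - t) ^ 2)) ≤
        4 * A3 * CC * (K ^ 2 * W.card) := by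
      calc A3 * N ^ 2 * (∑ s ∈ W, ∑ t ∈ W, 1 / (1 + (s - t) ^ 2))
          ≤ A3 * (2 * K) ^ 2 * (CC * W.card) := by
            have : 0 ≤ CC * (W.card : ℝ) := by positivity
            gcongr
        _ = _ := by ring
    have step5 : A1 * (W.card : ℝ) ^ 2 ≤ A1 * (K * (W.card : ℝ) ^ 2) := by
      refine mul_le_mul_of_nonneg_left ?_ hA10
      nlinarith [sq_nonneg (W.card : ℝ)]
    linarith
  -- the end
  refine ⟨max Cu (C4 * (2 * (4 * A3 * CC + A1 + E)) + 1), le_max_of_le_left hCu1, ?_⟩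
  intro K T0 T W hK hKT hSep hWT
  have hT : 1 ≤ T := hK.trans hKT
  have hT0 : 0 < T := by linarith
  have hK0 : 0 < K := by linarith
  set C := max Cu (C4 * (2 * (4 * A3 * CC + A1 + E)) + 1) with hC
  have hCCu : Cu ≤ C := le_max_left _ _
  have hC0 : 0 ≤ C := by linarith
  have b1 := block K T0 T W hK hKT hSep hWT K le_rfl (by linarith)
  have b2 := block K T0 T W hK hKT hSep hWT (2 * K) (by linarith) le_rfl
  have hm : Ss (Cu * T / K) W ≤ Ss (C * T / K) W := by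
    refine hmono _ _ W ?_
    gcongr
  have hSs := Ss_nonneg (C * T / K) W
  have hSu := Ss_nonneg (Cu * T / K) W
  have hRc : (0 : ℝ) ≤ W.card := Nat.cast_nonneg _
  have hTe2 : 1 ≤ T ^ (ε / 2) := Real.one_le_rpow hT (by linarith)
  obtain ⟨P, hP⟩ : ∃ P : ℝ, P = K ^ 2 * W.card := ⟨_, rfl⟩
  obtain ⟨Q, hQ⟩ : ∃ Q : ℝ, Q = K * (W.card : ℝ) ^ 2 := ⟨_, rfl⟩
  obtain ⟨U, hUd⟩ : ∃ U : ℝ, U = K ^ 2 / T * Ss (C * T / K) W := ⟨_, rfl⟩
  have hP0 : 0 ≤ P := by rw [hP]; positivity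
  have hQ0 : 0 ≤ Q := by rw [hQ]; positivity
  have hU0 : 0 ≤ U := by rw [hUd]; positivity
  have hUu : K ^ 2 / T * Ss (Cu * T / K) W ≤ U := by
    rw [hUd]
    refine mul_le_mul_of_nonneg_left hm (by positivity)
  have key : ∀ X : ℝ, X ≤ 4 * A3 * CC * (K ^ 2 * W.card) + A1 * (K * (W.card : ℝ) ^ 2) +
      E * T ^ (ε / 2) * (K ^ 2 / T * Ss (Cu * T / K) W) →
      X ≤ (4 * A3 * CC + A1 + E) * T ^ (ε / 2) * (P + Q + U) := by
    intro X hX
    rw [← hP, ← hQ] at hX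
    have e1 : 4 * A3 * CC * P ≤ 4 * A3 * CC * T ^ (ε / 2) * (P + Q + U) := by
      calc 4 * A3 * CC * P = 4 * A3 * CC * 1 * (P + 0 + 0) := by ring
        _ ≤ 4 * A3 * CC * T ^ (ε / 2) * (P + Q + U) := by gcongr
    have e2 : A1 * Q ≤ A1 * T ^ (ε / 2) * (P + Q + U) := by
      calc A1 * Q = A1 * 1 * (0 + Q + 0) := by ring
        _ ≤ A1 * T ^ (ε / 2) * (P + Q + U) := by gcongr
    have e3 : E * T ^ (ε / 2) * (K ^ 2 / T * Ss (Cu * T / K) W) ≤ E * T ^ (ε / 2) * (P + Q + U) := by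
      refine mul_le_mul_of_nonneg_left (by linarith) (by positivity)
    calc X ≤ _ := hX
      _ ≤ 4 * A3 * CC * T ^ (ε / 2) * (P + Q + U) + A1 * T ^ (ε / 2) * (P + Q + U) +
          E * T ^ (ε / 2) * (P + Q + U) := by linarith
      _ = _ := by ring
  have k1 := key _ b1
  have k2 := key _ b2
  have hKe : K ^ (ε / 2) ≤ T ^ (ε / 2) := Real.rpow_le_rpow hK0.le hKT (by linarith)
  have hTT : T ^ (ε / 2) * T ^ (ε / 2) = T ^ ε := by
    rw [← Real.rpow_add hT0]; congr 1; ring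
  have hG0 : 0 ≤ (4 * A3 * CC + A1 + E) := by positivity
  rw [← hP, ← hQ, ← hUd]
  have hfin := hJ4 K W hK
  calc Ss K W ≤ _ := hfin
    _ ≤ C4 * K ^ (ε / 2) * (2 * ((4 * A3 * CC + A1 + E) * T ^ (ε / 2) * (P + Q + U))) := by
        refine mul_le_mul_of_nonneg_left (by linarith) (by positivity)
    _ ≤ C4 * T ^ (ε / 2) * (2 * ((4 * A3 * CC + A1 + E) * T ^ (ε / 2) * (P + Q + U))) := by
        gcongr
    _ = C4 * (2 * (4 * A3 * CC + A1 + E)) * (T ^ (ε / 2) * T ^ (ε / 2)) * (P + Q + U) := by ring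
    _ = C4 * (2 * (4 * A3 * CC + A1 + E)) * T ^ ε * (P + Q + U) := by rw [hTT]
    _ ≤ C * T ^ ε * (P + Q + U) := by
        have e1 : C4 * (2 * (4 * A3 * CC + A1 + E)) ≤ C := by
          have := le_max_right Cu (C4 * (2 * (4 * A3 * CC + A1 + E)) + 1)
          linarith
        gcongr

end Pool.Agent.Work.MP_a8fbd7_nt.OX
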