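import Mathlib
import Pool.Agent.Work.MP_a8fbd7_nt.OX.LV.Stmts2
import Pool.Agent.Work.MP_cb106b_nt.Ct.DivB

/-!
MP_a8fbd7_nt, block OX, part LV2, item J7: powers of a Dirichlet polynomial in the double sum.
-/

open MeasureTheory Set Filter Topology

noncomputable section

namespace Pool.Agent.Work.MP_a8fbd7_nt.OX

open Pool.Agent.Work.MP_56b8f5_nt

namespace J7_aux

/-- truncated coefficients -/
def tr (Y : ℕ) (a : ℕ → ℂ) (n : ℕ) : ℂ := if n ∈ Finset.Icc 1 Y then a n else 0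

/-- coefficients of the `(k+1)`-st power -/
def cv (Y : ℕ) (a : ℕ → ℂ) : ℕ → ℕ → ℂ
  | 0 => tr Y a
  | k + 1 => fun n => ∑ p ∈ n.divisorsAntidiagonal, cv Y a k p.1 * tr Y a p.2

lemma tr_supp {Y : ℕ} {a : ℕ → ℂ} {n : ℕ} (h : tr Y a n ≠ 0) : n ≤ Y := by
  by_contra h1
  apply h
  rw [tr, if_neg]
  intro h2
  exact h1 (Finset.mem_Icc.1 h2).2

lemma tr_zero (Y : ℕ) (a : ℕ → ℂ) : tr Y a 0 = 0 := by
  simp [tr]

lemma cv_zero (Y : ℕ) (a : ℕ → ℂ) (k : ℕ) : cv Y a k 0 = 0 := by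
  cases k with
  | zero => exact tr_zero Y a
  | succ k => simp [cv]

lemma cv_supp (Y : ℕ) (a : ℕ → ℂ) (k : ℕ) : ∀ n : ℕ, cv Y a k n ≠ 0 → n ≤ Y ^ (k + 1) := by
  induction k with
  | zero =>
    intro n h
    simpa using tr_supp h
  | succ k ih =>
    intro n h
    obtain ⟨p, hp, hp2⟩ := Finset.exists_ne_zero_of_sum_ne_zero h
    have h1 : cv Y a k p.1 ≠ 0 := fun h0 => hp2 (by rw [h0, zero_mul])
    have h2 : tr Y a p.2 ≠ 0 := fun h0 => hp2 (by rw [h0, mul_zero])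
    have h7 : p.1 * p.2 = n := (Nat.mem_divisorsAntidiagonal.1 hp).1
    rw [← h7, pow_succ _ (k + 1)]
    exact Nat.mul_le_mul (ih p.1 h1) (tr_supp h2)

lemma cv_bound (k : ℕ) :
    ∀ ε : ℝ, 0 < ε → ∃ C : ℝ, 1 ≤ C ∧ ∀ (Y : ℕ) (a : ℕ → ℂ), (∀ n, ‖a n‖ ≤ 1) →
      ∀ n : ℕ, ‖cv Y a k n‖ ≤ C * (n : ℝ) ^ ε := by
  have hbs : ∀ (Y : ℕ) (a : ℕ → ℂ), (∀ n, ‖a n‖ ≤ 1) → ∀ n : ℕ, ‖tr Y a n‖ ≤ 1 := by
    intro Y a ha n
    rw [tr]
    split_ifs
    · exact ha n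
    · simp
  induction k with
  | zero =>
    intro ε hε
    refine ⟨1, le_rfl, ?_⟩
    intro Y a ha n
    rcases Nat.eq_zero_or_pos n with h | h
    · subst h
      rw [cv_zero Y a 0]
      simp only [norm_zero]
      positivity
    · have h1 : (1 : ℝ) ≤ (n : ℝ) ^ ε := Real.one_le_rpow (by exact_mod_cast h) hε.le
      rw [one_mul]
      exact (hbs Y a ha n).trans h1
  | succ k ih =>
    intro ε hε
    obtain ⟨C, hC1, hC⟩ := ih (ε / 2) (by positivity)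
    obtain ⟨E, hE1, hE⟩ := Pool.Agent.Work.MP_cb106b_nt.Ct.divisor_bound (ε / 2) (by positivity)
    have h1 : 1 ≤ E * C := one_le_mul_of_one_le_of_one_le hE1 hC1
    refine ⟨E * C, h1, ?_⟩
    intro Y a ha n
    rcases Nat.eq_zero_or_pos n with h | h
    · subst h
      rw [cv_zero Y a _]
      simp only [norm_zero]
      positivity
    · have hn : (0 : ℝ) < n := by exact_mod_cast h
      have h2 : ∀ p ∈ n.divisorsAntidiagonal, ‖cv Y a k p.1 * tr Y a p.2‖ ≤ C * (n : ℝ) ^ (ε / 2) := by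
        intro p hp
        rw [norm_mul]
        have h3 : p.1 ≤ n := Nat.le_of_dvd h (Dvd.intro _ (Nat.mem_divisorsAntidiagonal.1 hp).1)
        have h4 : ((p.1 : ℕ) : ℝ) ^ (ε / 2) ≤ (n : ℝ) ^ (ε / 2) :=
          Real.rpow_le_rpow (by positivity) (by exact_mod_cast h3) (by positivity)
        calc ‖cv Y a k p.1‖ * ‖tr Y a p.2‖ ≤ (C * (n : ℝ) ^ (ε / 2)) * 1 := by
              apply mul_le_mul _ (hbs Y a ha _) (norm_nonneg _) (by positivity)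
              exact (hC Y a ha p.1).trans (by gcongr)
          _ = C * (n : ℝ) ^ (ε / 2) := mul_one _
      have h5 : n.divisorsAntidiagonal.card = n.divisors.card := by
        have := Nat.sum_divisorsAntidiagonal (M := ℕ) (n := n) (fun _ _ => 1)
        simpa using this
      calc ‖cv Y a (k + 1) n‖ = ‖∑ p ∈ n.divisorsAntidiagonal, cv Y a k p.1 * tr Y a p.2‖ := rfl
        _ ≤ ∑ p ∈ n.divisorsAntidiagonal, C * (n : ℝ) ^ (ε / 2) := norm_sum_le_of_le _ h2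
        _ = (n.divisors.card : ℝ) * (C * (n : ℝ) ^ (ε / 2)) := by
              rw [Finset.sum_const, h5, nsmul_eq_mul]
        _ ≤ (E * (n : ℝ) ^ (ε / 2)) * (C * (n : ℝ) ^ (ε / 2)) := by
              have := hE n h
              gcongr
        _ = E * C * ((n : ℝ) ^ (ε / 2) * (n : ℝ) ^ (ε / 2)) := by ring
        _ = E * C * (n : ℝ) ^ ε := by
              rw [← Real.rpow_add hn, add_halves]

lemma term_eq (a : ℕ → ℂ) (t : ℝ) {n : ℕ} (hn : n ≠ 0) :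
    LSeries.term a (t * Complex.I) n = a n * (n : ℂ) ^ (-(t * Complex.I)) := by
  rw [LSeries.term_of_ne_zero hn, div_eq_mul_inv, Complex.cpow_neg]

lemma term_supp {a : ℕ → ℂ} {Y : ℕ} (h : ∀ n, a n ≠ 0 → n ≤ Y) (t : ℝ) :
    ∀ n, n ∉ Finset.Icc 1 Y → LSeries.term a (t * Complex.I) n = 0 := by
  intro n hn
  rcases Nat.eq_zero_or_pos n with h0 | h0
  · subst h0; simp
  · have h1 : ¬ n ≤ Y := fun h2 => hn (Finset.mem_Icc.2 ⟨h0, h2⟩)
    have h2 : a n = 0 := by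
      by_contra h3
      exact h1 (h n h3)
    rw [term_eq a t (by omega), h2, zero_mul]

lemma summ {a : ℕ → ℂ} {Y : ℕ} (h : ∀ n, a n ≠ 0 → n ≤ Y) (t : ℝ) :
    LSeriesSummable a (t * Complex.I) :=
  summable_of_ne_finset_zero (s := Finset.Icc 1 Y) (term_supp h t)

lemma LS_eq {a : ℕ → ℂ} {Y : ℕ} (h : ∀ n, a n ≠ 0 → n ≤ Y) (t : ℝ) :
    LSeries a (t * Complex.I) = UC.Dp Y a t := by
  rw [LSeries, tsum_eq_sum (s := Finset.Icc 1 Y) (term_supp h t), UC.Dp]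
  apply Finset.sum_congr rfl
  intro n hn
  exact term_eq a t (by have := (Finset.mem_Icc.1 hn).1; omega)

lemma Dp_tr (Y : ℕ) (a : ℕ → ℂ) (t : ℝ) : UC.Dp Y a t = UC.Dp Y (tr Y a) t := by
  rw [UC.Dp, UC.Dp]
  apply Finset.sum_congr rfl
  intro n hn
  rw [tr, if_pos hn]

lemma Dp_pow (Y : ℕ) (a : ℕ → ℂ) (t : ℝ) (k : ℕ) :
    UC.Dp Y a t ^ (k + 1) = LSeries (cv Y a k) (t * Complex.I) := by
  have h0 : UC.Dp Y a t = LSeries (cv Y a 0) (t * Complex.I) := by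
    rw [Dp_tr]
    exact (LS_eq (fun n hn => tr_supp hn) t).symm
  induction k with
  | zero => rw [zero_add, pow_one, h0]
  | succ k ih =>
    have h2 := LSeries_convolution' (summ (cv_supp Y a k) t) (summ (cv_supp Y a 0) t)
    rw [pow_succ, ih, h0, ← h2, LSeries.convolution_def]
    rfl

end J7_aux

open J7_aux in
theorem iJ7 (_h1 : StJ1) (h2 : StJ2) : StJ7 := by
  intro k ε hk hε
  obtain ⟨_, hD, _⟩ := h2
  obtain ⟨j, rfl⟩ : ∃ j, k = j + 1 := ⟨k - 1, by omega⟩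
  have hkpos : (0 : ℝ) < ((j + 1 : ℕ) : ℝ) := by exact_mod_cast Nat.succ_pos j
  obtain ⟨C, hC1, hC⟩ := cv_bound j (ε / 2 / ((j + 1 : ℕ) : ℝ)) (by positivity)
  refine ⟨C ^ 2, one_le_pow₀ hC1, ?_⟩
  intro K y a W hK ha
  have hK0 : 0 < K := by linarith
  set Y : ℕ := ⌊K⌋₊ with hY
  have hYK : (Y : ℝ) ≤ K := Nat.floor_le hK0.le
  have hsup : ∀ n, cv Y a j n ≠ 0 → (n : ℝ) ≤ K ^ (j + 1) := by
    intro n hn
    have h1 : (n : ℝ) ≤ (Y : ℝ) ^ (j + 1) := by exact_mod_cast cv_supp Y a j n hn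
    exact h1.trans (pow_le_pow_left₀ (by positivity) hYK _)
  have hsup2 : ∀ n, cv Y a j n ≠ 0 → n ≤ ⌊K ^ (j + 1)⌋₊ := fun n hn => Nat.le_floor (hsup n hn)
  have hb : ∀ n, ‖cv Y a j n‖ ≤ C * K ^ (ε / 2) := by
    intro n
    by_cases hn : cv Y a j n = 0
    · rw [hn]
      simp only [norm_zero]
      positivity
    · have h1 := hsup n hn
      refine (hC Y a ha n).trans ?_
      have h3 : (n : ℝ) ^ (ε / 2 / ((j + 1 : ℕ) : ℝ)) ≤ K ^ (ε / 2) := by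
        calc (n : ℝ) ^ (ε / 2 / ((j + 1 : ℕ) : ℝ)) ≤ (K ^ (j + 1)) ^ (ε / 2 / ((j + 1 : ℕ) : ℝ)) :=
              Real.rpow_le_rpow (by positivity) h1 (by positivity)
          _ = K ^ (ε / 2) := by
              rw [← Real.rpow_natCast K (j + 1), ← Real.rpow_mul hK0.le]
              congr 1
              field_simp
      gcongr
  have key := hD (K ^ (j + 1)) (C * K ^ (ε / 2)) y (cv Y a j) W (by positivity) hb
  have h4 : ∀ τ : ℝ, ‖UC.Dp Y a τ‖ ^ (2 * (j + 1)) = ‖UC.Dp ⌊K ^ (j + 1)⌋₊ (cv Y a j) τ‖ ^ 2 := by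
    intro τ
    rw [← LS_eq hsup2 τ, ← Dp_pow, norm_pow, ← pow_mul, mul_comm]
  calc ∑ s ∈ W, ∑ t ∈ W, ‖UC.Dp Y a (s - t + y)‖ ^ (2 * (j + 1))
      = ∑ s ∈ W, ∑ t ∈ W, ‖UC.Dp ⌊K ^ (j + 1)⌋₊ (cv Y a j) (s - t + y)‖ ^ 2 := by
        apply Finset.sum_congr rfl
        intro s _
        apply Finset.sum_congr rfl
        intro t _
        exact h4 _
    _ ≤ (C * K ^ (ε / 2)) ^ 2 * Ss (K ^ (j + 1)) W := key
    _ = C ^ 2 * K ^ ε * Ss (K ^ (j + 1)) W := by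
        have h5 : (K ^ (ε / 2)) ^ 2 = K ^ ε := by
          rw [← Real.rpow_natCast, ← Real.rpow_mul hK0.le]
          congr 1
          push_cast
          ring
        rw [mul_pow, h5]

end Pool.Agent.Work.MP_a8fbd7_nt.OX
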