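import Mathlib
import Pool.Agent.Work.MP_a8fbd7_nt.OX.LV.Stmts2

/-!
MP_a8fbd7_nt, block OX, part LV2, item J8: the first form of the bound of Heath-Brown.
-/

open MeasureTheory Set Filter Topology

noncomputable section

namespace Pool.Agent.Work.MP_a8fbd7_nt.OX

open Pool.Agent.Work.MP_56b8f5_nt

namespace J8_aux

lemma Ss_nonneg (K : ℝ) (W : Finset ℝ) : 0 ≤ Ss K W := by
  unfold Ss
  exact Finset.sum_nonneg fun s _ => Finset.sum_nonneg fun t _ => by positivity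

/-- Cauchy-Schwarz over the pairs -/
lemma Ss_sq (K : ℝ) (W : Finset ℝ) :
    (Ss K W) ^ 2 ≤ (W.card : ℝ) ^ 2 *
      ∑ s ∈ W, ∑ t ∈ W, ‖UC.Dp ⌊K⌋₊ (fun _ => 1) (s - t + 0)‖ ^ (2 * 2) := by
  have h := sq_sum_le_card_mul_sum_sq (s := W ×ˢ W)
    (f := fun p : ℝ × ℝ => ‖UC.Dp ⌊K⌋₊ (fun _ => 1) (p.1 - p.2)‖ ^ 2)
  rw [Finset.sum_product, Finset.sum_product, Finset.card_product] at h
  unfold Ss
  refine h.trans (le_of_eq ?_)
  push_cast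
  rw [sq]
  congr 1
  refine Finset.sum_congr rfl fun s _ => Finset.sum_congr rfl fun t _ => ?_
  rw [add_zero, ← pow_mul]

/-- the quadratic inequality -/
lemma quad {X Y A B M : ℝ} (hX : 0 ≤ X) (hM : 0 ≤ M)
    (h1 : X ≤ A + B * Y) (h2 : (B * Y) ^ 2 ≤ M * X) : X ≤ 2 * A + M := by
  have h3 : B * Y ≤ (X + M) / 2 := by
    by_contra hc
    push Not at hc
    have h4 : 0 ≤ (X + M) / 2 := by positivity
    have h5 : ((X + M) / 2) ^ 2 < (B * Y) ^ 2 := by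
      apply pow_lt_pow_left₀ hc h4 (by norm_num)
    nlinarith [sq_nonneg (X - M)]
  linarith

end J8_aux

open J8_aux

theorem iJ8 (h1 : StJ2) (h2 : StJ3) (h3 : StJ5) (h4 : StJ6) (h5 : StJ7) : StJ8 := by
  intro ε hε
  set δ : ℝ := ε / 5 with hδ
  have hδ0 : 0 < δ := by positivity
  obtain ⟨C2, hC2, H2⟩ := h2 δ hδ0
  obtain ⟨C5, hC5, H5⟩ := h3 δ hδ0
  obtain ⟨c, hc, H6⟩ := h4 δ hδ0
  obtain ⟨C7, hC7, H7⟩ := h5 2 δ (by norm_num) hδ0
  have hmono := h1.1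
  set C' : ℝ := 2 * c ^ 3 + c ^ 6 * C7 with hC'
  have hC'1 : 1 ≤ C' := by
    have e1 : 1 ≤ c ^ 3 := one_le_pow₀ hc
    have e2 : 1 ≤ c ^ 6 := one_le_pow₀ hc
    nlinarith [mul_nonneg (by linarith : (0:ℝ) ≤ c ^ 6) (by linarith : (0:ℝ) ≤ C7)]
  set CA : ℝ := C2 * C' with hCA
  have hCA1 : 1 ≤ CA := one_le_mul_of_one_le_of_one_le hC2 hC'1
  set CB : ℝ := c + c ^ 2 * CA with hCB
  have hc2 : 1 ≤ c ^ 2 := one_le_pow₀ hc
  have hCB1 : 1 ≤ CB := by nlinarith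
  refine ⟨CA + CB + C5 * c ^ 3, ?_, ?_⟩
  · have : 0 ≤ C5 * c ^ 3 := by positivity
    linarith
  intro K T0 T W hK hT hW hWT
  set R : ℝ := (W.card : ℝ) with hR
  have hR0 : 0 ≤ R := by positivity
  have hK0 : 0 < K := by linarith
  have hT0 : 0 < T := by linarith
  have hKT : 1 ≤ K * T := one_le_mul_of_one_le_of_one_le hK hT
  -- powers
  have hpT : T ^ (5 * δ) ≤ (K * T) ^ ε := by
    have : 5 * δ = ε := by rw [hδ]; ring
    rw [this]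
    exact Real.rpow_le_rpow hT0.le (by nlinarith) hε.le
  have hpK : K ^ δ ≤ (K * T) ^ ε := by
    calc K ^ δ ≤ (K * T) ^ δ := Real.rpow_le_rpow hK0.le (by nlinarith) hδ0.le
      _ ≤ (K * T) ^ ε := Real.rpow_le_rpow_of_exponent_le hKT (by rw [hδ]; linarith)
  have hKTe : 0 ≤ (K * T) ^ ε := by positivity
  have hmain : 0 ≤ K ^ 2 * R + K * R ^ 2 + K * T ^ (2 / 3 : ℝ) * R := by positivity
  have hT23 : 1 ≤ T ^ (2 / 3 : ℝ) := Real.one_le_rpow hT (by norm_num)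
  have hc3 : 1 ≤ c ^ 3 := one_le_pow₀ hc
  -- the trivial cases
  by_cases hcase : K > T ∨ c * T ^ (2 / 3 : ℝ) > T
  · have hTK : T ≤ c ^ 3 * K := by
      rcases hcase with h | h
      · nlinarith
      · have e1 : T ^ (1 / 3 : ℝ) ≤ c := by
          have e2 : T = T ^ (2 / 3 : ℝ) * T ^ (1 / 3 : ℝ) := by
            rw [← Real.rpow_add hT0]; norm_num
          have e3 : T ^ (2 / 3 : ℝ) * T ^ (1 / 3 : ℝ) < T ^ (2 / 3 : ℝ) * c := by
            rw [← e2]; linarith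
          exact (lt_of_mul_lt_mul_left e3 (by positivity)).le
        have e4 : T ≤ c ^ 3 := by
          have e5 : T = (T ^ (1 / 3 : ℝ)) ^ 3 := by
            rw [← Real.rpow_natCast, ← Real.rpow_mul hT0.le]; norm_num
          rw [e5]
          exact pow_le_pow_left₀ (by positivity) e1 3
        nlinarith
    have h := H5 K T0 T W hK hT hW hWT
    have hb : K ^ 2 * R + T * R ^ 2 ≤ c ^ 3 * (K ^ 2 * R + K * R ^ 2 + K * T ^ (2 / 3 : ℝ) * R) := by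
      have e1 : K ^ 2 * R ≤ c ^ 3 * (K ^ 2 * R) := le_mul_of_one_le_left (by positivity) hc3
      have e2 : T * R ^ 2 ≤ c ^ 3 * K * R ^ 2 := mul_le_mul_of_nonneg_right hTK (by positivity)
      have e3 : 0 ≤ c ^ 3 * (K * T ^ (2 / 3 : ℝ) * R) := by positivity
      linarith
    calc Ss K W ≤ C5 * K ^ δ * (K ^ 2 * R + T * R ^ 2) := h
      _ ≤ C5 * (K * T) ^ ε * (c ^ 3 * (K ^ 2 * R + K * R ^ 2 + K * T ^ (2 / 3 : ℝ) * R)) := by
          gcongr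
      _ = (C5 * c ^ 3) * (K * T) ^ ε * (K ^ 2 * R + K * R ^ 2 + K * T ^ (2 / 3 : ℝ) * R) := by ring
      _ ≤ (CA + CB + C5 * c ^ 3) * (K * T) ^ ε *
            (K ^ 2 * R + K * R ^ 2 + K * T ^ (2 / 3 : ℝ) * R) := by
          gcongr
          linarith
  push Not at hcase
  obtain ⟨hKleT, hK1T⟩ := hcase
  set K1 : ℝ := c * T ^ (2 / 3 : ℝ) with hK1
  have hK1one : 1 ≤ K1 := one_le_mul_of_one_le_of_one_le hc hT23
  have hK10 : 0 < K1 := by linarith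
  have hcT : c * T / K1 = T ^ (1 / 3 : ℝ) := by
    rw [hK1, div_eq_iff (by positivity)]
    have e2 : T = T ^ (1 / 3 : ℝ) * T ^ (2 / 3 : ℝ) := by
      rw [← Real.rpow_add hT0]; norm_num
    calc c * T = c * (T ^ (1 / 3 : ℝ) * T ^ (2 / 3 : ℝ)) := by rw [← e2]
      _ = T ^ (1 / 3 : ℝ) * (c * T ^ (2 / 3 : ℝ)) := by ring
  have hT13 : 1 ≤ T ^ (1 / 3 : ℝ) := Real.one_le_rpow hT (by norm_num)
  have hsq : (T ^ (1 / 3 : ℝ)) ^ 2 = T ^ (2 / 3 : ℝ) := by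
    rw [← Real.rpow_natCast, ← Real.rpow_mul hT0.le]; norm_num
  have hT13K : T ^ (1 / 3 : ℝ) ≤ K1 := by
    calc T ^ (1 / 3 : ℝ) ≤ T ^ (2 / 3 : ℝ) := Real.rpow_le_rpow_of_exponent_le hT (by norm_num)
      _ ≤ c * T ^ (2 / 3 : ℝ) := le_mul_of_one_le_left (by positivity) hc
  have hTd : 1 ≤ T ^ δ := Real.one_le_rpow hT hδ0.le
  -- step (1)
  have hX0 := Ss_nonneg K1 W
  have hY : (Ss (T ^ (1 / 3 : ℝ)) W) ^ 2 ≤ R ^ 2 * (C7 * T ^ δ * Ss K1 W) := by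
    refine (Ss_sq _ W).trans ?_
    refine mul_le_mul_of_nonneg_left ?_ (by positivity)
    have h7 := H7 (T ^ (1 / 3 : ℝ)) 0 (fun _ => 1) W hT13 (fun n => by simp)
    refine h7.trans ?_
    have e1 : Ss ((T ^ (1 / 3 : ℝ)) ^ 2) W ≤ Ss K1 W := by
      apply hmono
      rw [hsq]
      exact le_mul_of_one_le_left (by positivity) hc
    have e2 : (T ^ (1 / 3 : ℝ)) ^ δ ≤ T ^ δ := by
      apply Real.rpow_le_rpow (by positivity) _ hδ0.le
      calc T ^ (1 / 3 : ℝ) ≤ T ^ (1 : ℝ) := Real.rpow_le_rpow_of_exponent_le hT (by norm_num)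
        _ = T := Real.rpow_one T
    have e3 := Ss_nonneg ((T ^ (1 / 3 : ℝ)) ^ 2) W
    gcongr
  have hX1 := H6 K1 T0 T W hK1one hK1T hW hWT
  rw [hcT] at hX1
  have hT8 : K1 ^ 4 / T ^ 2 = c ^ 4 * T ^ (2 / 3 : ℝ) := by
    rw [hK1, div_eq_iff (by positivity), mul_pow, mul_assoc]
    congr 1
    rw [← Real.rpow_natCast, ← Real.rpow_natCast, ← Real.rpow_mul hT0.le, ← Real.rpow_add hT0]
    norm_num
  have hT4 : K1 ^ 2 = c ^ 2 * T ^ (4 / 3 : ℝ) := by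
    rw [hK1, mul_pow]
    congr 1
    rw [← Real.rpow_natCast, ← Real.rpow_mul hT0.le]
    norm_num
  have hT3d : T ^ δ * (T ^ δ * T ^ δ) = T ^ (3 * δ) := by
    rw [← Real.rpow_add hT0, ← Real.rpow_add hT0]
    congr 1
    ring
  have hT1d3 : T ^ δ ≤ T ^ (3 * δ) := Real.rpow_le_rpow_of_exponent_le hT (by linarith)
  have hX : Ss K1 W ≤ C' * T ^ (3 * δ) * (T ^ (4 / 3 : ℝ) * R + T ^ (2 / 3 : ℝ) * R ^ 2) := by
    have hq := quad (X := Ss K1 W) (Y := Ss (T ^ (1 / 3 : ℝ)) W)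
      (A := c * T ^ δ * (K1 ^ 2 * R + K1 * R ^ 2)) (B := c * T ^ δ * (K1 ^ 2 / T))
      (M := (c * T ^ δ * (K1 ^ 2 / T)) ^ 2 * (R ^ 2 * (C7 * T ^ δ))) hX0 (by positivity)
      (by refine hX1.trans (le_of_eq ?_); ring)
      (by
        rw [mul_pow]
        calc (c * T ^ δ * (K1 ^ 2 / T)) ^ 2 * (Ss (T ^ (1 / 3 : ℝ)) W) ^ 2
            ≤ (c * T ^ δ * (K1 ^ 2 / T)) ^ 2 * (R ^ 2 * (C7 * T ^ δ * Ss K1 W)) := by gcongr
          _ = _ := by ring)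
    have hM : (c * T ^ δ * (K1 ^ 2 / T)) ^ 2 * (R ^ 2 * (C7 * T ^ δ))
        = c ^ 6 * C7 * T ^ (3 * δ) * (T ^ (2 / 3 : ℝ) * R ^ 2) := by
      have e1 : (c * T ^ δ * (K1 ^ 2 / T)) ^ 2 * (R ^ 2 * (C7 * T ^ δ))
          = c ^ 2 * C7 * (T ^ δ * (T ^ δ * T ^ δ)) * (K1 ^ 4 / T ^ 2) * R ^ 2 := by
        field_simp
      rw [e1, hT8, hT3d]
      ring
    rw [hM] at hq
    have hA : c * T ^ δ * (K1 ^ 2 * R + K1 * R ^ 2)
        ≤ c ^ 3 * T ^ (3 * δ) * (T ^ (4 / 3 : ℝ) * R + T ^ (2 / 3 : ℝ) * R ^ 2) := by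
      rw [hT4, hK1]
      have e1 : c ^ 2 * T ^ (4 / 3 : ℝ) * R + c * T ^ (2 / 3 : ℝ) * R ^ 2
          ≤ c ^ 2 * (T ^ (4 / 3 : ℝ) * R + T ^ (2 / 3 : ℝ) * R ^ 2) := by
        have e2 : c ≤ c ^ 2 := by nlinarith
        have e3 : c * (T ^ (2 / 3 : ℝ) * R ^ 2) ≤ c ^ 2 * (T ^ (2 / 3 : ℝ) * R ^ 2) :=
          mul_le_mul_of_nonneg_right e2 (by positivity)
        linarith
      calc c * T ^ δ * (c ^ 2 * T ^ (4 / 3 : ℝ) * R + c * T ^ (2 / 3 : ℝ) * R ^ 2)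
          ≤ c * T ^ (3 * δ) * (c ^ 2 * (T ^ (4 / 3 : ℝ) * R + T ^ (2 / 3 : ℝ) * R ^ 2)) := by
            gcongr
        _ = _ := by ring
    have hB : c ^ 6 * C7 * T ^ (3 * δ) * (T ^ (2 / 3 : ℝ) * R ^ 2)
        ≤ c ^ 6 * C7 * T ^ (3 * δ) * (T ^ (4 / 3 : ℝ) * R + T ^ (2 / 3 : ℝ) * R ^ 2) := by
      have : 0 ≤ T ^ (4 / 3 : ℝ) * R := by positivity
      gcongr
      linarith
    calc Ss K1 W ≤ 2 * (c * T ^ δ * (K1 ^ 2 * R + K1 * R ^ 2)) +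
          c ^ 6 * C7 * T ^ (3 * δ) * (T ^ (2 / 3 : ℝ) * R ^ 2) := hq
      _ ≤ 2 * (c ^ 3 * T ^ (3 * δ) * (T ^ (4 / 3 : ℝ) * R + T ^ (2 / 3 : ℝ) * R ^ 2)) +
          c ^ 6 * C7 * T ^ (3 * δ) * (T ^ (4 / 3 : ℝ) * R + T ^ (2 / 3 : ℝ) * R ^ 2) := by
          linarith
      _ = _ := by rw [hC']; ring
  -- step (2)
  have hA2 : ∀ K2 : ℝ, 1 ≤ K2 → K2 ≤ K1 →
      Ss K2 W ≤ CA * T ^ (4 * δ) * (K2 * T ^ (2 / 3 : ℝ) * R + K2 * R ^ 2) := by
    intro K2 hK2 hK21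
    have h := H2 K2 K1 W hK2 hK21
    have e1 : K1 ^ δ ≤ T ^ δ := Real.rpow_le_rpow hK10.le hK1T hδ0.le
    have e2 : (K2 / K1) * Ss K1 W ≤
        C' * T ^ (3 * δ) * (K2 * T ^ (2 / 3 : ℝ) * R + K2 * R ^ 2) := by
      have e3 : K2 / K1 ≤ K2 / T ^ (2 / 3 : ℝ) := by
        apply div_le_div_of_nonneg_left (by linarith) (by positivity)
        exact le_mul_of_one_le_left (by positivity) hc
      calc (K2 / K1) * Ss K1 W ≤ (K2 / T ^ (2 / 3 : ℝ)) *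
            (C' * T ^ (3 * δ) * (T ^ (4 / 3 : ℝ) * R + T ^ (2 / 3 : ℝ) * R ^ 2)) := by
            have : 0 ≤ K2 := by linarith
            gcongr
        _ = C' * T ^ (3 * δ) * (K2 * T ^ (2 / 3 : ℝ) * R + K2 * R ^ 2) := by
            have e4 : T ^ (4 / 3 : ℝ) = T ^ (2 / 3 : ℝ) * T ^ (2 / 3 : ℝ) := by
              rw [← Real.rpow_add hT0]; norm_num
            rw [e4]
            field_simp
    have hT4d : T ^ δ * T ^ (3 * δ) = T ^ (4 * δ) := by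
      rw [← Real.rpow_add hT0]
      congr 1
      ring
    have hK20 : 0 ≤ K2 := by linarith
    calc Ss K2 W ≤ C2 * K1 ^ δ * (K2 / K1) * Ss K1 W := h
      _ = C2 * K1 ^ δ * ((K2 / K1) * Ss K1 W) := by ring
      _ ≤ C2 * T ^ δ * (C' * T ^ (3 * δ) * (K2 * T ^ (2 / 3 : ℝ) * R + K2 * R ^ 2)) := by
          gcongr
      _ = C2 * C' * (T ^ δ * T ^ (3 * δ)) * (K2 * T ^ (2 / 3 : ℝ) * R + K2 * R ^ 2) := by ring
      _ = _ := by rw [hT4d]
  have hT45 : T ^ (4 * δ) ≤ T ^ (5 * δ) := Real.rpow_le_rpow_of_exponent_le hT (by linarith)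
  rcases le_total K K1 with hKK | hKK
  · -- K ≤ K1
    have h := hA2 K hK hKK
    calc Ss K W ≤ CA * T ^ (4 * δ) * (K * T ^ (2 / 3 : ℝ) * R + K * R ^ 2) := h
      _ ≤ CA * (K * T) ^ ε * (K ^ 2 * R + K * R ^ 2 + K * T ^ (2 / 3 : ℝ) * R) := by
          have e1 : T ^ (4 * δ) ≤ (K * T) ^ ε := hT45.trans hpT
          have e2 : 0 ≤ K ^ 2 * R := by positivity
          have e3 : CA * T ^ (4 * δ) ≤ CA * (K * T) ^ ε :=
            mul_le_mul_of_nonneg_left e1 (by linarith)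
          refine mul_le_mul e3 (by linarith) (by positivity) (by positivity)
      _ ≤ (CA + CB + C5 * c ^ 3) * (K * T) ^ ε *
            (K ^ 2 * R + K * R ^ 2 + K * T ^ (2 / 3 : ℝ) * R) := by
          have : 0 ≤ C5 * c ^ 3 := by positivity
          gcongr
          linarith
  · -- K1 ≤ K ≤ T
    have h := H6 K T0 T W hK hKleT hW hWT
    have hq1 : 1 ≤ c * T / K := by
      rw [le_div_iff₀ hK0]
      nlinarith
    have hq2 : c * T / K ≤ K1 := by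
      calc c * T / K ≤ c * T / K1 := by
            apply div_le_div_of_nonneg_left (by positivity) hK10 hKK
        _ = T ^ (1 / 3 : ℝ) := hcT
        _ ≤ K1 := hT13K
    have h' := hA2 (c * T / K) hq1 hq2
    have e1 : K ^ 2 / T * Ss (c * T / K) W ≤
        c * CA * T ^ (4 * δ) * (K * T ^ (2 / 3 : ℝ) * R + K * R ^ 2) := by
      calc K ^ 2 / T * Ss (c * T / K) W ≤ K ^ 2 / T * (CA * T ^ (4 * δ) *
            (c * T / K * T ^ (2 / 3 : ℝ) * R + c * T / K * R ^ 2)) := by gcongr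
        _ = _ := by field_simp
    have hT4d : T ^ δ * T ^ (4 * δ) = T ^ (5 * δ) := by
      rw [← Real.rpow_add hT0]
      congr 1
      ring
    have hT15 : T ^ δ ≤ T ^ (5 * δ) := Real.rpow_le_rpow_of_exponent_le hT (by linarith)
    calc Ss K W ≤ c * T ^ δ * (K ^ 2 * R + K * R ^ 2 + K ^ 2 / T * Ss (c * T / K) W) := h
      _ ≤ c * T ^ δ * (K ^ 2 * R + K * R ^ 2 +
            c * CA * T ^ (4 * δ) * (K * T ^ (2 / 3 : ℝ) * R + K * R ^ 2)) := by gcongr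
      _ = c * T ^ δ * (K ^ 2 * R + K * R ^ 2) +
            c ^ 2 * CA * (T ^ δ * T ^ (4 * δ)) * (K * T ^ (2 / 3 : ℝ) * R + K * R ^ 2) := by ring
      _ ≤ c * T ^ (5 * δ) * (K ^ 2 * R + K * R ^ 2 + K * T ^ (2 / 3 : ℝ) * R) +
            c ^ 2 * CA * T ^ (5 * δ) * (K ^ 2 * R + K * R ^ 2 + K * T ^ (2 / 3 : ℝ) * R) := by
          rw [hT4d]
          have e2 : 0 ≤ K ^ 2 * R := by positivity
          have e3 : 0 ≤ K * T ^ (2 / 3 : ℝ) * R := by positivity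
          have e4 : c * T ^ δ * (K ^ 2 * R + K * R ^ 2) ≤
              c * T ^ (5 * δ) * (K ^ 2 * R + K * R ^ 2 + K * T ^ (2 / 3 : ℝ) * R) := by
            have e41 : c * T ^ δ ≤ c * T ^ (5 * δ) :=
              mul_le_mul_of_nonneg_left hT15 (by linarith)
            exact mul_le_mul e41 (by linarith) (by positivity) (by positivity)
          have e5 : c ^ 2 * CA * T ^ (5 * δ) * (K * T ^ (2 / 3 : ℝ) * R + K * R ^ 2) ≤
              c ^ 2 * CA * T ^ (5 * δ) * (K ^ 2 * R + K * R ^ 2 + K * T ^ (2 / 3 : ℝ) * R) := by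
            refine mul_le_mul_of_nonneg_left ?_ (by positivity)
            linarith
          linarith
      _ = CB * T ^ (5 * δ) * (K ^ 2 * R + K * R ^ 2 + K * T ^ (2 / 3 : ℝ) * R) := by
          rw [hCB]; ring
      _ ≤ (CA + CB + C5 * c ^ 3) * (K * T) ^ ε *
            (K ^ 2 * R + K * R ^ 2 + K * T ^ (2 / 3 : ℝ) * R) := by
          have : 0 ≤ C5 * c ^ 3 := by positivity
          gcongr
          linarith

end Pool.Agent.Work.MP_a8fbd7_nt.OX
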