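import Mathlib
import Pool.Agent.Work.MP_a8fbd7_nt.OX.LV.Stmts2

/-!
MP_a8fbd7_nt, block OX, part LV2, item J9: the bound of Heath-Brown (real exponents).
-/

open MeasureTheory Set Filter Topology

noncomputable section

namespace Pool.Agent.Work.MP_a8fbd7_nt.OX

open Pool.Agent.Work.MP_56b8f5_nt

namespace J9_aux

lemma Ss_nonneg (K : ℝ) (W : Finset ℝ) : 0 ≤ Ss K W := by
  unfold Ss
  exact Finset.sum_nonneg fun s _ => Finset.sum_nonneg fun t _ => by positivity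

/-- Cauchy-Schwarz over the pairs -/
lemma Ss_sq (K : ℝ) (W : Finset ℝ) :
    (Ss K W) ^ 2 ≤ (W.card : ℝ) ^ 2 *
      ∑ s ∈ W, ∑ t ∈ W, ‖UC.Dp ⌊K⌋₊ (fun _ => 1) (s - t + 0)‖ ^ (2 * 2) := by
  have h := sq_sum_le_card_mul_sum_sq (s := W ×ˢ W)
    (f := fun p : ℝ × ℝ => ‖UC.Dp ⌊K⌋₊ (fun _ => 1) (p.1 - p.2)‖ ^ 2)
  rw [Finset.sum_product, Finset.sum_product, Finset.card_product] at h
  unfold Ss
  refine h.trans (le_of_eq ?_)
  push_cast
  rw [sq]
  congr 1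
  refine Finset.sum_congr rfl fun s _ => Finset.sum_congr rfl fun t _ => ?_
  rw [add_zero, ← pow_mul]

end J9_aux

open J9_aux

theorem iJ9 (h1 : StJ2) (h2 : StJ3) (h3 : StJ5) (h4 : StJ6) (h5 : StJ7) (h6 : StJ8) : StJ9 := by
  intro ε hε
  obtain ⟨δ, hδ⟩ : ∃ x : ℝ, x = ε / 5 := ⟨_, rfl⟩
  have hδ0 : 0 < δ := by rw [hδ]; positivity
  obtain ⟨C2, hC2, H2⟩ := h2 δ hδ0
  obtain ⟨C5, hC5, H5⟩ := h3 δ hδ0
  obtain ⟨c, hc, H6⟩ := h4 δ hδ0
  obtain ⟨C7, hC7, H7⟩ := h5 2 δ (by norm_num) hδ0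
  obtain ⟨C8, hC8, H8⟩ := h6 (δ / 2) (by positivity)
  have hmono := h1.1
  have hc2 : 1 ≤ c ^ 2 := one_le_pow₀ hc
  have hc3 : 1 ≤ c ^ 3 := one_le_pow₀ hc
  have hC78 : 1 ≤ C7 * C8 := one_le_mul_of_one_le_of_one_le hC7 hC8
  obtain ⟨C', hC'⟩ : ∃ x : ℝ, x = c + 3 * c * (C7 * C8) := ⟨_, rfl⟩
  have hC'1 : 1 ≤ C' := by nlinarith
  obtain ⟨CA, hCA⟩ : ∃ x : ℝ, x = c * (C2 * C') := ⟨_, rfl⟩
  have hCA1 : 1 ≤ CA := by
    rw [hCA]
    exact one_le_mul_of_one_le_of_one_le hc (one_le_mul_of_one_le_of_one_le hC2 hC'1)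
  obtain ⟨CB, hCB⟩ : ∃ x : ℝ, x = c + c ^ 2 * CA := ⟨_, rfl⟩
  have hCB1 : 1 ≤ CB := by nlinarith
  refine ⟨CA + CB + C5 * c ^ 3 + 2 * C8, ?_, ?_⟩
  · have : 0 ≤ C5 * c ^ 3 := by positivity
    linarith
  intro K T0 T W hK hT hW hWT
  rcases W.eq_empty_or_nonempty with hW0 | hW0
  · subst hW0
    have : Ss K ∅ = 0 := by simp [Ss]
    rw [this]
    positivity
  set R : ℝ := (W.card : ℝ) with hR
  have hR1 : 1 ≤ R := by
    rw [hR]
    exact_mod_cast hW0.card_pos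
  have hRc : (W.card : ℝ) = R := rfl
  clear_value R
  have hR0 : 0 < R := by linarith
  have hK0 : 0 < K := by linarith
  have hT0 : 0 < T := by linarith
  have hKT : 1 ≤ K * T := one_le_mul_of_one_le_of_one_le hK hT
  -- powers
  have hpT : T ^ (5 * δ) ≤ (K * T) ^ ε := by
    have : 5 * δ = ε := by rw [hδ]; ring
    rw [this]
    exact Real.rpow_le_rpow hT0.le (le_mul_of_one_le_left hT0.le hK) hε.le
  have hpK : K ^ δ ≤ (K * T) ^ ε := by
    calc K ^ δ ≤ (K * T) ^ δ := Real.rpow_le_rpow hK0.le (le_mul_of_one_le_right hK0.le hT) hδ0.le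
      _ ≤ (K * T) ^ ε := Real.rpow_le_rpow_of_exponent_le hKT (by rw [hδ]; linarith)
  have hKTe : 0 ≤ (K * T) ^ ε := by positivity
  obtain ⟨P, hP⟩ : ∃ x : ℝ, x = T ^ (1 / 2 : ℝ) * R ^ (5 / 4 : ℝ) := ⟨_, rfl⟩
  have hP0 : 0 < P := by rw [hP]; positivity
  have hgoal : K ^ 2 * R + K * R ^ 2 + K * T ^ (1 / 2 : ℝ) * R ^ (5 / 4 : ℝ)
      = K ^ 2 * R + K * R ^ 2 + K * P := by rw [hP]; ring
  rw [hgoal]
  have hmain : 0 ≤ K ^ 2 * R + K * R ^ 2 + K * P := by positivity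
  have hT23 : 1 ≤ T ^ (2 / 3 : ℝ) := Real.one_le_rpow hT (by norm_num)
  -- large `R`
  by_cases hRT : T ^ (2 / 3 : ℝ) < R
  · have h := H8 K T0 T W hK hT hW hWT
    rw [hRc] at h
    have e1 : K * T ^ (2 / 3 : ℝ) * R ≤ K * R ^ 2 := by
      calc K * T ^ (2 / 3 : ℝ) * R ≤ K * R * R := by gcongr
        _ = K * R ^ 2 := by ring
    have e2 : (K * T) ^ (δ / 2) ≤ (K * T) ^ ε :=
      Real.rpow_le_rpow_of_exponent_le hKT (by rw [hδ]; linarith)
    calc Ss K W ≤ C8 * (K * T) ^ (δ / 2) * (K ^ 2 * R + K * R ^ 2 + K * T ^ (2 / 3 : ℝ) * R) := h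
      _ ≤ C8 * (K * T) ^ ε * (2 * (K ^ 2 * R + K * R ^ 2 + K * P)) := by
          have e3 : K ^ 2 * R + K * R ^ 2 + K * T ^ (2 / 3 : ℝ) * R
              ≤ 2 * (K ^ 2 * R + K * R ^ 2 + K * P) := by
            have e4 : 0 ≤ K ^ 2 * R := by positivity
            have e5 : 0 ≤ K * P := by positivity
            linarith
          gcongr
      _ = (2 * C8) * (K * T) ^ ε * (K ^ 2 * R + K * R ^ 2 + K * P) := by ring
      _ ≤ (CA + CB + C5 * c ^ 3 + 2 * C8) * (K * T) ^ ε * (K ^ 2 * R + K * R ^ 2 + K * P) := by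
          have : 0 ≤ C5 * c ^ 3 := by positivity
          gcongr
          linarith
  push Not at hRT
  -- the trivial cases
  by_cases hcase : K > T ∨ c * T ^ (2 / 3 : ℝ) > T
  · have hTK : T ≤ c ^ 3 * K := by
      rcases hcase with h | h
      · exact (le_of_lt h).trans (le_mul_of_one_le_left hK0.le hc3)
      · have e1 : T ^ (1 / 3 : ℝ) ≤ c := by
          have e2 : T = T ^ (2 / 3 : ℝ) * T ^ (1 / 3 : ℝ) := by
            rw [← Real.rpow_add hT0]; norm_num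
          have e3 : T ^ (2 / 3 : ℝ) * T ^ (1 / 3 : ℝ) < T ^ (2 / 3 : ℝ) * c := by
            rw [← e2]; linarith
          exact (lt_of_mul_lt_mul_left e3 (by positivity)).le
        have e4 : T ≤ c ^ 3 := by
          have e5 : T = (T ^ (1 / 3 : ℝ)) ^ 3 := by
            rw [← Real.rpow_natCast, ← Real.rpow_mul hT0.le]; norm_num
          rw [e5]
          exact pow_le_pow_left₀ (by positivity) e1 3
        exact e4.trans (le_mul_of_one_le_right (by positivity) hK)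
    have h := H5 K T0 T W hK hT hW hWT
    rw [hRc] at h
    have hb : K ^ 2 * R + T * R ^ 2 ≤ c ^ 3 * (K ^ 2 * R + K * R ^ 2 + K * P) := by
      have e1 : K ^ 2 * R ≤ c ^ 3 * (K ^ 2 * R) := le_mul_of_one_le_left (by positivity) hc3
      have e2 : T * R ^ 2 ≤ c ^ 3 * K * R ^ 2 := mul_le_mul_of_nonneg_right hTK (by positivity)
      have e3 : 0 ≤ c ^ 3 * (K * P) := by positivity
      linarith
    calc Ss K W ≤ C5 * K ^ δ * (K ^ 2 * R + T * R ^ 2) := h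
      _ ≤ C5 * (K * T) ^ ε * (c ^ 3 * (K ^ 2 * R + K * R ^ 2 + K * P)) := by
          gcongr
      _ = (C5 * c ^ 3) * (K * T) ^ ε * (K ^ 2 * R + K * R ^ 2 + K * P) := by ring
      _ ≤ (CA + CB + C5 * c ^ 3 + 2 * C8) * (K * T) ^ ε *
            (K ^ 2 * R + K * R ^ 2 + K * P) := by
          gcongr
          linarith
  push Not at hcase
  obtain ⟨hKleT, hK1T⟩ := hcase
  -- the variables `h = T^{1/2}`, `r = R^{1/4}`
  obtain ⟨h, hh0, hh⟩ : ∃ h : ℝ, 0 < h ∧ T ^ (1 / 2 : ℝ) = h := ⟨_, by positivity, rfl⟩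
  obtain ⟨r, hr0, hr⟩ : ∃ r : ℝ, 0 < r ∧ R ^ (1 / 4 : ℝ) = r := ⟨_, by positivity, rfl⟩
  have hTh : T = h ^ 2 := by
    rw [← hh, ← Real.rpow_natCast, ← Real.rpow_mul hT0.le]; norm_num
  have hRr : R = r ^ 4 := by
    rw [← hr, ← Real.rpow_natCast, ← Real.rpow_mul hR0.le]; norm_num
  have hPhr : P = h * r ^ 5 := by
    rw [hP, hh]
    congr 1
    rw [← hr, ← Real.rpow_natCast, ← Real.rpow_mul hR0.le]; norm_num
  have hr1 : 1 ≤ r := by rw [← hr]; exact Real.one_le_rpow hR1 (by norm_num)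
  have hh1 : 1 ≤ h := by rw [← hh]; exact Real.one_le_rpow hT (by norm_num)
  have hr3 : r ^ 3 ≤ h := by
    have e1 : r ^ 3 = R ^ (3 / 4 : ℝ) := by
      rw [← hr, ← Real.rpow_natCast, ← Real.rpow_mul hR0.le]; norm_num
    rw [e1, ← hh]
    calc R ^ (3 / 4 : ℝ) ≤ (T ^ (2 / 3 : ℝ)) ^ (3 / 4 : ℝ) :=
          Real.rpow_le_rpow hR0.le hRT (by norm_num)
      _ = T ^ (1 / 2 : ℝ) := by rw [← Real.rpow_mul hT0.le]; norm_num
  have hrT13 : T ^ (2 / 3 : ℝ) * r ^ 2 ≤ T := by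
    have e1 : r ^ 2 = R ^ (1 / 2 : ℝ) := by
      rw [← hr, ← Real.rpow_natCast, ← Real.rpow_mul hR0.le]; norm_num
    rw [e1]
    calc T ^ (2 / 3 : ℝ) * R ^ (1 / 2 : ℝ) ≤ T ^ (2 / 3 : ℝ) * (T ^ (2 / 3 : ℝ)) ^ (1 / 2 : ℝ) := by
          gcongr
      _ = T := by
          rw [← Real.rpow_mul hT0.le, ← Real.rpow_add hT0]; norm_num
  obtain ⟨K2, hK2⟩ : ∃ x : ℝ, x = c * (h * r) := ⟨_, rfl⟩
  have hhr : 1 ≤ h * r := one_le_mul_of_one_le_of_one_le hh1 hr1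
  have hK2one : 1 ≤ K2 := by rw [hK2]; exact one_le_mul_of_one_le_of_one_le hc hhr
  have hK20 : 0 < K2 := by linarith
  have hK2T : K2 ≤ T := by
    refine le_trans ?_ hK1T
    rw [hK2]
    have e1 : h * r ≤ T ^ (2 / 3 : ℝ) := by
      rw [← hh, ← hr]
      calc T ^ (1 / 2 : ℝ) * R ^ (1 / 4 : ℝ) ≤ T ^ (1 / 2 : ℝ) * (T ^ (2 / 3 : ℝ)) ^ (1 / 4 : ℝ) := by
            gcongr
        _ = T ^ (2 / 3 : ℝ) := by
            rw [← Real.rpow_mul hT0.le, ← Real.rpow_add hT0]; norm_num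
    gcongr
  -- `Q = cT/K2`
  obtain ⟨Q, hQ⟩ : ∃ x : ℝ, x = h / r := ⟨_, rfl⟩
  have hQ0 : 0 < Q := by rw [hQ]; positivity
  have hcT : c * T / K2 = Q := by
    rw [hK2, hQ, hTh]
    field_simp
  have hQ1 : 1 ≤ Q := by
    rw [hQ, le_div_iff₀ hr0]
    have : r ≤ r ^ 3 := le_self_pow₀ hr1 (by norm_num)
    linarith
  have hQK : Q ≤ K2 := by
    calc Q ≤ h := by
          rw [hQ]
          exact div_le_self hh0.le hr1
      _ ≤ h * r := le_mul_of_one_le_right hh0.le hr1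
      _ ≤ c * (h * r) := le_mul_of_one_le_left (by positivity) hc
      _ = K2 := hK2.symm
  have hQT : Q ≤ T := hQK.trans hK2T
  have hTd : 1 ≤ T ^ δ := Real.one_le_rpow hT hδ0.le
  have hTT : 1 ≤ T * T := one_le_mul_of_one_le_of_one_le hT hT
  -- step (1)
  have hQ2 : Q ^ 2 ≤ T := by
    rw [hQ, hTh, div_pow]
    exact div_le_self (by positivity) (one_le_pow₀ hr1)
  have hSQ2 : Ss (Q ^ 2) W ≤ 3 * C8 * T ^ δ * T ^ 2 := by
    have e0 := H8 (Q ^ 2) T0 T W (one_le_pow₀ hQ1) hT hW hWT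
    rw [hRc] at e0
    refine e0.trans ?_
    have e1 : (Q ^ 2 * T) ^ (δ / 2) ≤ T ^ δ := by
      calc (Q ^ 2 * T) ^ (δ / 2) ≤ (T ^ 2) ^ (δ / 2) := by
            apply Real.rpow_le_rpow (by positivity) _ (by positivity)
            rw [sq T]
            gcongr
        _ = T ^ δ := by
            rw [← Real.rpow_natCast, ← Real.rpow_mul hT0.le]
            congr 1
            push_cast
            ring
    have e2 : (Q ^ 2) ^ 2 * R = T ^ 2 := by
      rw [hQ, hRr, hTh]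
      field_simp
    have e3 : Q ^ 2 * R ^ 2 ≤ T ^ 2 := by
      have e31 : Q ^ 2 * R ^ 2 = (h * r ^ 3) ^ 2 := by
        rw [hQ, hRr]
        field_simp
      rw [e31]
      have e32 : h * r ^ 3 ≤ T := by
        rw [hTh, sq]
        gcongr
      gcongr
    have e4 : Q ^ 2 * T ^ (2 / 3 : ℝ) * R ≤ T ^ 2 := by
      have e41 : Q ^ 2 * T ^ (2 / 3 : ℝ) * R = T * (T ^ (2 / 3 : ℝ) * r ^ 2) := by
        have e42 : Q ^ 2 * R = T * r ^ 2 := by
          rw [hQ, hRr, hTh]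
          field_simp
        calc Q ^ 2 * T ^ (2 / 3 : ℝ) * R = (Q ^ 2 * R) * T ^ (2 / 3 : ℝ) := by ring
          _ = _ := by rw [e42]; ring
      rw [e41, sq T]
      exact mul_le_mul_of_nonneg_left hrT13 hT0.le
    calc C8 * (Q ^ 2 * T) ^ (δ / 2) *
          ((Q ^ 2) ^ 2 * R + Q ^ 2 * R ^ 2 + Q ^ 2 * T ^ (2 / 3 : ℝ) * R)
        ≤ C8 * T ^ δ * (T ^ 2 + T ^ 2 + T ^ 2) := by
          rw [e2]
          gcongr
      _ = _ := by ring
  have hSQ : Ss Q W ≤ 3 * (C7 * C8) * T ^ (2 * δ) * (R * T) := by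
    have e0 := H7 Q 0 (fun _ => 1) W hQ1 (fun n => by simp)
    have e1 : (Ss Q W) ^ 2 ≤ (3 * (C7 * C8) * T ^ (2 * δ) * (R * T)) ^ 2 := by
      refine (Ss_sq Q W).trans ?_
      rw [hRc]
      have e2 : Q ^ δ ≤ T ^ δ := Real.rpow_le_rpow hQ0.le hQT hδ0.le
      have e3 : 1 ≤ 3 * (C7 * C8) := by linarith
      have e4 : T ^ δ * T ^ δ = T ^ (2 * δ) := by
        rw [← Real.rpow_add hT0]
        congr 1
        ring
      have e5 : 1 ≤ T ^ (2 * δ) := Real.one_le_rpow hT (by positivity)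
      calc R ^ 2 * ∑ s ∈ W, ∑ t ∈ W, ‖UC.Dp ⌊Q⌋₊ (fun _ => 1) (s - t + 0)‖ ^ (2 * 2)
          ≤ R ^ 2 * (C7 * Q ^ δ * Ss (Q ^ 2) W) := by gcongr
        _ ≤ R ^ 2 * (C7 * T ^ δ * (3 * C8 * T ^ δ * T ^ 2)) := by
            have := Ss_nonneg (Q ^ 2) W
            gcongr
        _ = (3 * (C7 * C8)) * (T ^ δ * T ^ δ) * (R * T) ^ 2 := by ring
        _ = (3 * (C7 * C8)) * T ^ (2 * δ) * (R * T) ^ 2 := by rw [e4]
        _ ≤ (3 * (C7 * C8)) ^ 2 * (T ^ (2 * δ)) ^ 2 * (R * T) ^ 2 := by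
            have e6 : 3 * (C7 * C8) ≤ (3 * (C7 * C8)) ^ 2 := le_self_pow₀ e3 (by norm_num)
            have e7 : T ^ (2 * δ) ≤ (T ^ (2 * δ)) ^ 2 := le_self_pow₀ e5 (by norm_num)
            gcongr
        _ = _ := by ring
    exact le_of_sq_le_sq e1 (by positivity)
  have hT3d : T ^ δ * T ^ (2 * δ) = T ^ (3 * δ) := by
    rw [← Real.rpow_add hT0]
    congr 1
    ring
  have hT13d : T ^ δ ≤ T ^ (3 * δ) := Real.rpow_le_rpow_of_exponent_le hT (by linarith)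
  have hX : Ss K2 W ≤ C' * T ^ (3 * δ) * (K2 ^ 2 * R + K2 * R ^ 2) := by
    have e0 := H6 K2 T0 T W hK2one hK2T hW hWT
    rw [hcT, hRc] at e0
    have e1 : K2 ^ 2 / T * (R * T) = K2 ^ 2 * R := by field_simp
    calc Ss K2 W ≤ c * T ^ δ * (K2 ^ 2 * R + K2 * R ^ 2 + K2 ^ 2 / T * Ss Q W) := e0
      _ ≤ c * T ^ δ * (K2 ^ 2 * R + K2 * R ^ 2 +
            K2 ^ 2 / T * (3 * (C7 * C8) * T ^ (2 * δ) * (R * T))) := by gcongr
      _ = c * T ^ δ * (K2 ^ 2 * R + K2 * R ^ 2) +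
            3 * c * (C7 * C8) * (T ^ δ * T ^ (2 * δ)) * (K2 ^ 2 / T * (R * T)) := by ring
      _ = c * T ^ δ * (K2 ^ 2 * R + K2 * R ^ 2) +
            3 * c * (C7 * C8) * T ^ (3 * δ) * (K2 ^ 2 * R) := by rw [hT3d, e1]
      _ ≤ c * T ^ (3 * δ) * (K2 ^ 2 * R + K2 * R ^ 2) +
            3 * c * (C7 * C8) * T ^ (3 * δ) * (K2 ^ 2 * R + K2 * R ^ 2) := by
          have e2 : 0 ≤ K2 * R ^ 2 := by positivity
          gcongr
          linarith
      _ = _ := by rw [hC']; ring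
  -- step (2)
  have hK2R : K2 * R = c * P := by
    rw [hK2, hRr, hPhr]
    ring
  have hA2 : ∀ K3 : ℝ, 1 ≤ K3 → K3 ≤ K2 →
      Ss K3 W ≤ CA * T ^ (4 * δ) * (K3 * P + K3 * R ^ 2) := by
    intro K3 hK3 hK32
    have h0 := H2 K3 K2 W hK3 hK32
    have hK30 : 0 ≤ K3 := by linarith
    have e1 : K2 ^ δ ≤ T ^ δ := Real.rpow_le_rpow hK20.le hK2T hδ0.le
    have e2 : (K3 / K2) * Ss K2 W ≤ C' * T ^ (3 * δ) * (K3 * (c * P) + K3 * R ^ 2) := by
      calc (K3 / K2) * Ss K2 W ≤ (K3 / K2) *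
            (C' * T ^ (3 * δ) * (K2 ^ 2 * R + K2 * R ^ 2)) := by
            gcongr
        _ = C' * T ^ (3 * δ) * (K3 * (K2 * R) + K3 * R ^ 2) := by
            field_simp
        _ = _ := by rw [hK2R]
    have e3 : K3 * (c * P) + K3 * R ^ 2 ≤ c * (K3 * P + K3 * R ^ 2) := by
      have e31 : K3 * R ^ 2 ≤ c * (K3 * R ^ 2) := le_mul_of_one_le_left (by positivity) hc
      linarith
    have hT4d : T ^ δ * T ^ (3 * δ) = T ^ (4 * δ) := by
      rw [← Real.rpow_add hT0]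
      congr 1
      ring
    calc Ss K3 W ≤ C2 * K2 ^ δ * (K3 / K2) * Ss K2 W := h0
      _ = C2 * K2 ^ δ * ((K3 / K2) * Ss K2 W) := by ring
      _ ≤ C2 * T ^ δ * (C' * T ^ (3 * δ) * (K3 * (c * P) + K3 * R ^ 2)) := by
          have e4 : 0 ≤ K3 / K2 * Ss K2 W := mul_nonneg (by positivity) (Ss_nonneg K2 W)
          gcongr
      _ ≤ C2 * T ^ δ * (C' * T ^ (3 * δ) * (c * (K3 * P + K3 * R ^ 2))) := by
          gcongr
      _ = c * (C2 * C') * (T ^ δ * T ^ (3 * δ)) * (K3 * P + K3 * R ^ 2) := by ring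
      _ = _ := by rw [hT4d, hCA]
  have hT45 : T ^ (4 * δ) ≤ T ^ (5 * δ) := Real.rpow_le_rpow_of_exponent_le hT (by linarith)
  rcases le_total K K2 with hKK | hKK
  · -- K ≤ K2
    have h0 := hA2 K hK hKK
    calc Ss K W ≤ CA * T ^ (4 * δ) * (K * P + K * R ^ 2) := h0
      _ ≤ CA * (K * T) ^ ε * (K ^ 2 * R + K * R ^ 2 + K * P) := by
          have e1 : T ^ (4 * δ) ≤ (K * T) ^ ε := hT45.trans hpT
          have e2 : 0 ≤ K ^ 2 * R := by positivity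
          have e3 : CA * T ^ (4 * δ) ≤ CA * (K * T) ^ ε :=
            mul_le_mul_of_nonneg_left e1 (by linarith)
          refine mul_le_mul e3 (by linarith) (by positivity) (by positivity)
      _ ≤ (CA + CB + C5 * c ^ 3 + 2 * C8) * (K * T) ^ ε *
            (K ^ 2 * R + K * R ^ 2 + K * P) := by
          have : 0 ≤ C5 * c ^ 3 := by positivity
          gcongr
          linarith
  · -- K2 ≤ K ≤ T
    have h0 := H6 K T0 T W hK hKleT hW hWT
    rw [hRc] at h0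
    have hq1 : 1 ≤ c * T / K := by
      rw [le_div_iff₀ hK0, one_mul]
      exact hKleT.trans (le_mul_of_one_le_left hT0.le hc)
    have hq2 : c * T / K ≤ K2 := by
      calc c * T / K ≤ c * T / K2 := by
            apply div_le_div_of_nonneg_left (by positivity) hK20 hKK
        _ = Q := hcT
        _ ≤ K2 := hQK
    have h' := hA2 (c * T / K) hq1 hq2
    have e1 : K ^ 2 / T * Ss (c * T / K) W ≤
        c * CA * T ^ (4 * δ) * (K * P + K * R ^ 2) := by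
      calc K ^ 2 / T * Ss (c * T / K) W ≤ K ^ 2 / T * (CA * T ^ (4 * δ) *
            (c * T / K * P + c * T / K * R ^ 2)) := by gcongr
        _ = _ := by field_simp
    have hT4d : T ^ δ * T ^ (4 * δ) = T ^ (5 * δ) := by
      rw [← Real.rpow_add hT0]
      congr 1
      ring
    have hT15 : T ^ δ ≤ T ^ (5 * δ) := Real.rpow_le_rpow_of_exponent_le hT (by linarith)
    calc Ss K W ≤ c * T ^ δ * (K ^ 2 * R + K * R ^ 2 + K ^ 2 / T * Ss (c * T / K) W) := h0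
      _ ≤ c * T ^ δ * (K ^ 2 * R + K * R ^ 2 +
            c * CA * T ^ (4 * δ) * (K * P + K * R ^ 2)) := by gcongr
      _ = c * T ^ δ * (K ^ 2 * R + K * R ^ 2) +
            c ^ 2 * CA * (T ^ δ * T ^ (4 * δ)) * (K * P + K * R ^ 2) := by ring
      _ ≤ c * T ^ (5 * δ) * (K ^ 2 * R + K * R ^ 2 + K * P) +
            c ^ 2 * CA * T ^ (5 * δ) * (K ^ 2 * R + K * R ^ 2 + K * P) := by
          rw [hT4d]
          have e2 : 0 ≤ K ^ 2 * R := by positivity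
          have e3 : 0 ≤ K * P := by positivity
          have e4 : c * T ^ δ * (K ^ 2 * R + K * R ^ 2) ≤
              c * T ^ (5 * δ) * (K ^ 2 * R + K * R ^ 2 + K * P) := by
            have e41 : c * T ^ δ ≤ c * T ^ (5 * δ) :=
              mul_le_mul_of_nonneg_left hT15 (by linarith)
            exact mul_le_mul e41 (by linarith) (by positivity) (by positivity)
          have e5 : c ^ 2 * CA * T ^ (5 * δ) * (K * P + K * R ^ 2) ≤
              c ^ 2 * CA * T ^ (5 * δ) * (K ^ 2 * R + K * R ^ 2 + K * P) := by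
            refine mul_le_mul_of_nonneg_left ?_ (by positivity)
            linarith
          linarith
      _ = CB * T ^ (5 * δ) * (K ^ 2 * R + K * R ^ 2 + K * P) := by
          rw [hCB]; ring
      _ ≤ (CA + CB + C5 * c ^ 3 + 2 * C8) * (K * T) ^ ε *
            (K ^ 2 * R + K * R ^ 2 + K * P) := by
          have : 0 ≤ C5 * c ^ 3 := by positivity
          gcongr
          linarith

end Pool.Agent.Work.MP_a8fbd7_nt.OX
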