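import Pool.Agent.Work.MP_a8fbd7_nt.OX.LV.Stmts2

/-!
MP_a8fbd7_nt, block OX, part LV2, item Jb: large values in one window (solving for `R`).
-/

open MeasureTheory Set Filter Topology

noncomputable section

namespace Pool.Agent.Work.MP_a8fbd7_nt.OX

open Pool.Agent.Work.MP_56b8f5_nt

namespace Jb_aux

/-- solving `V² R² ≤ B R^{2-x}` for `R` -/
theorem solve {V R B x p : ℝ} (hV : 0 < V) (hR : 0 < R) (hx : 0 < x) (hxp : x * p = 1)
    (h : V ^ 2 * R ^ 2 ≤ B * R ^ (2 - x)) : R ≤ (B * (1 / V) ^ 2) ^ p := by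
  have h1 : R ^ 2 = R ^ (2 - x) * R ^ x := by
    rw [← Real.rpow_add hR, sub_add_cancel]
    norm_num
  have h2 : 0 < R ^ (2 - x) := Real.rpow_pos_of_pos hR _
  have h3 : R ^ x ≤ B * (1 / V) ^ 2 := by
    rw [h1] at h
    have h4 : (V ^ 2 * R ^ x) * R ^ (2 - x) ≤ B * R ^ (2 - x) := by
      calc (V ^ 2 * R ^ x) * R ^ (2 - x) = V ^ 2 * (R ^ (2 - x) * R ^ x) := by ring
        _ ≤ _ := h
    have h5 := le_of_mul_le_mul_right h4 h2
    have h6 : (V ^ 2 * R ^ x) * (1 / V) ^ 2 ≤ B * (1 / V) ^ 2 :=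
      mul_le_mul_of_nonneg_right h5 (by positivity)
    calc R ^ x = (V ^ 2 * R ^ x) * (1 / V) ^ 2 := by field_simp
      _ ≤ _ := h6
  have hp : 0 < p := by
    by_contra hp
    push Not at hp
    nlinarith
  calc R = (R ^ x) ^ p := by rw [← Real.rpow_mul hR.le, hxp, Real.rpow_one]
    _ ≤ _ := Real.rpow_le_rpow (Real.rpow_nonneg hR.le _) h3 hp.le

end Jb_aux

open Jb_aux in
theorem iJb (h1 : StJa) : StJb := by
  intro k ε hk hε
  have hkR : (1 : ℝ) ≤ k := by exact_mod_cast hk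
  set ε' : ℝ := ε * (3 / (8 * k)) with hε'
  have hε'0 : 0 < ε' := by positivity
  obtain ⟨Ca, hCa, hJa⟩ := h1 k ε' hk hε'0
  set q : ℝ := 8 * k / 3 with hq
  have hq1 : 1 ≤ q := by rw [hq]; linarith
  have hq2 : (2 * k : ℝ) ≤ q := by rw [hq]; linarith
  set C : ℝ := (6 * Ca) ^ q with hC
  have h6 : 1 ≤ 6 * Ca := by linarith
  have hC1 : 1 ≤ C := Real.one_le_rpow h6 (by linarith)
  refine ⟨C, hC1, ?_⟩
  intro L V T0 T a W hL hT hV ha hW hyp
  have hJ := hJa L V T0 T a W hL hT hV ha hW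
  have hLT : 1 ≤ L * T := by nlinarith
  have hLT0 : 0 < L * T := by linarith
  have hL0 : 0 < L := by linarith
  have hT0 : 0 < T := by linarith
  set M : ℝ := 6 * Ca * (L * T) ^ ε' with hM
  have hLTe : 1 ≤ (L * T) ^ ε' := Real.one_le_rpow hLT hε'0.le
  have hM1 : 1 ≤ M := by rw [hM]; nlinarith
  have hM0 : 0 < M := by linarith
  set Λ : ℝ := C * (L * T) ^ ε with hΛ
  have hMq : M ^ q = Λ := by
    rw [hM, Real.mul_rpow (by linarith) (by positivity), ← Real.rpow_mul hLT0.le, hΛ, hC]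
    congr 2
    rw [hε', hq]
    field_simp
  have hMΛ : M ≤ Λ := by
    rw [← hMq]
    calc M = M ^ (1 : ℝ) := (Real.rpow_one M).symm
      _ ≤ M ^ q := Real.rpow_le_rpow_of_exponent_le hM1 hq1
  have hM2k : M ^ (2 * k) ≤ Λ := by
    rw [← hMq]
    calc M ^ (2 * k) = M ^ ((2 * k : ℕ) : ℝ) := (Real.rpow_natCast M (2 * k)).symm
      _ ≤ M ^ q := Real.rpow_le_rpow_of_exponent_le hM1 (by push_cast; exact hq2)
  have hΛ0 : 0 < Λ := by linarith
  -- the three terms on the right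
  have hX1 : 0 ≤ L ^ 2 * (1 / V) ^ 2 := by positivity
  have hX2 : 0 ≤ T ^ k * L ^ (2 * k) * (1 / V) ^ (4 * k) := by positivity
  have hX3 : 0 ≤ T ^ (2 / 3 : ℝ) * L ^ (4 * k) * (1 / V) ^ (16 * (k : ℝ) / 3) := by positivity
  have hgoal : ∀ X : ℝ, (X = L ^ 2 * (1 / V) ^ 2 ∨ X = T ^ k * L ^ (2 * k) * (1 / V) ^ (4 * k) ∨
      X = T ^ (2 / 3 : ℝ) * L ^ (4 * k) * (1 / V) ^ (16 * (k : ℝ) / 3)) → (W.card : ℝ) ≤ Λ * X →
      (W.card : ℝ) ≤ Λ * (L ^ 2 * (1 / V) ^ 2 + T ^ k * L ^ (2 * k) * (1 / V) ^ (4 * k) +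
        T ^ (2 / 3 : ℝ) * L ^ (4 * k) * (1 / V) ^ (16 * (k : ℝ) / 3)) := by
    intro X hX hW
    refine hW.trans (mul_le_mul_of_nonneg_left ?_ hΛ0.le)
    rcases hX with rfl | rfl | rfl <;> linarith
  rcases Nat.eq_zero_or_pos W.card with h0 | hpos
  · rw [h0]
    push_cast
    positivity
  have hR : (0 : ℝ) < W.card := by exact_mod_cast hpos
  set R : ℝ := (W.card : ℝ) with hRdef
  have hthird : Ca * (L * T) ^ ε' * (L ^ (3 / 2 : ℝ) * R ^ 2) ≤ V ^ 2 * R ^ 2 / 6 := by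
    have h2 : M * L ^ (3 / 2 : ℝ) ≤ V ^ 2 :=
      (mul_le_mul_of_nonneg_right hMΛ (by positivity)).trans hyp
    have h3 : M * L ^ (3 / 2 : ℝ) * R ^ 2 ≤ V ^ 2 * R ^ 2 :=
      mul_le_mul_of_nonneg_right h2 (by positivity)
    have h4 : Ca * (L * T) ^ ε' * (L ^ (3 / 2 : ℝ) * R ^ 2) = M * L ^ (3 / 2 : ℝ) * R ^ 2 / 6 := by
      rw [hM]; ring
    rw [h4]
    linarith
  set A1 : ℝ := L ^ 2 * R with hA1
  set A2 : ℝ := L * T ^ (1 / 2 : ℝ) * R ^ (2 - 1 / (2 * (k : ℝ))) with hA2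
  set A3 : ℝ := L ^ (3 / 2 : ℝ) * T ^ (1 / (4 * (k : ℝ))) * R ^ (2 - 3 / (8 * (k : ℝ))) with hA3
  have hsum : 5 * (V ^ 2 * R ^ 2) ≤ M * A1 + M * A2 + M * A3 := by
    have h4 : Ca * (L * T) ^ ε' * (A1 + A2 + L ^ (3 / 2 : ℝ) * R ^ 2 + A3) =
        Ca * (L * T) ^ ε' * (L ^ (3 / 2 : ℝ) * R ^ 2) + (M * A1 + M * A2 + M * A3) / 6 := by
      rw [hM]; ring
    rw [h4] at hJ
    linarith
  have hcases : V ^ 2 * R ^ 2 ≤ M * A1 ∨ V ^ 2 * R ^ 2 ≤ M * A2 ∨ V ^ 2 * R ^ 2 ≤ M * A3 := by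
    by_contra hcon
    push Not at hcon
    obtain ⟨c1, c2, c3⟩ := hcon
    have : 0 < V ^ 2 * R ^ 2 := by positivity
    linarith
  clear_value M Λ q
  rcases hcases with h | h | h
  · apply hgoal _ (Or.inl rfl)
    have h2 : V ^ 2 * R ≤ M * L ^ 2 := by
      have h3 : (V ^ 2 * R) * R ≤ (M * L ^ 2) * R := by
        rw [hA1] at h
        calc (V ^ 2 * R) * R = V ^ 2 * R ^ 2 := by ring
          _ ≤ M * (L ^ 2 * R) := h
          _ = _ := by ring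
      exact le_of_mul_le_mul_right h3 hR
    calc R = (V ^ 2 * R) * (1 / V) ^ 2 := by field_simp
      _ ≤ (M * L ^ 2) * (1 / V) ^ 2 := mul_le_mul_of_nonneg_right h2 (by positivity)
      _ = M * (L ^ 2 * (1 / V) ^ 2) := by ring
      _ ≤ Λ * (L ^ 2 * (1 / V) ^ 2) := mul_le_mul_of_nonneg_right hMΛ hX1
  · apply hgoal _ (Or.inr (Or.inl rfl))
    have h2 : R ≤ (M * (L * T ^ (1 / 2 : ℝ)) * (1 / V) ^ 2) ^ ((2 * k : ℕ) : ℝ) := by
      apply solve hV hR (x := 1 / (2 * (k : ℝ))) (by positivity) (by push_cast; field_simp)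
      rw [hA2] at h
      calc V ^ 2 * R ^ 2 ≤ _ := h
        _ = _ := by ring
    rw [Real.rpow_natCast] at h2
    have h3 : (M * (L * T ^ (1 / 2 : ℝ)) * (1 / V) ^ 2) ^ (2 * k) =
        M ^ (2 * k) * (T ^ k * L ^ (2 * k) * (1 / V) ^ (4 * k)) := by
      have e1 : (T ^ (1 / 2 : ℝ)) ^ (2 * k) = T ^ k := by
        rw [pow_mul, ← Real.rpow_natCast (T ^ (1 / 2 : ℝ)) 2, ← Real.rpow_mul hT0.le]
        norm_num
      have e2 : ((1 / V) ^ 2) ^ (2 * k) = (1 / V) ^ (4 * k) := by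
        rw [← pow_mul]
        congr 1
        ring
      rw [mul_pow, mul_pow, mul_pow, e1, e2]
      ring
    rw [h3] at h2
    exact h2.trans (mul_le_mul_of_nonneg_right hM2k hX2)
  · apply hgoal _ (Or.inr (Or.inr rfl))
    have h2 : R ≤ (M * (L ^ (3 / 2 : ℝ) * T ^ (1 / (4 * (k : ℝ)))) * (1 / V) ^ 2) ^ q := by
      apply solve hV hR (x := 3 / (8 * (k : ℝ))) (by positivity) (by rw [hq]; field_simp)
      rw [hA3] at h
      calc V ^ 2 * R ^ 2 ≤ _ := h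
        _ = _ := by ring
    have h3 : (M * (L ^ (3 / 2 : ℝ) * T ^ (1 / (4 * (k : ℝ)))) * (1 / V) ^ 2) ^ q =
        M ^ q * (T ^ (2 / 3 : ℝ) * L ^ (4 * k) * (1 / V) ^ (16 * (k : ℝ) / 3)) := by
      have e1 : (L ^ (3 / 2 : ℝ)) ^ q = L ^ (4 * k) := by
        rw [← Real.rpow_mul hL0.le, ← Real.rpow_natCast L (4 * k)]
        congr 1
        rw [hq]
        push_cast
        ring
      have e2 : (T ^ (1 / (4 * (k : ℝ)))) ^ q = T ^ (2 / 3 : ℝ) := by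
        rw [← Real.rpow_mul hT0.le]
        congr 1
        rw [hq]
        field_simp
        norm_num
      have e3 : ((1 / V) ^ 2) ^ q = (1 / V) ^ (16 * (k : ℝ) / 3) := by
        rw [← Real.rpow_natCast (1 / V) 2, ← Real.rpow_mul (by positivity)]
        congr 1
        rw [hq]
        push_cast
        ring
      rw [Real.mul_rpow (by positivity) (by positivity), Real.mul_rpow hM0.le (by positivity),
        Real.mul_rpow (by positivity) (by positivity), e1, e2, e3]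
      ring
    rw [h3, hMq] at h2
    exact h2

end Pool.Agent.Work.MP_a8fbd7_nt.OX
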