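import Pool.Agent.Work.MP_a8fbd7_nt.OX.LV.Stmts

/-!
MP_a8fbd7_nt (primes in Oppermann intervals), block OX LV, item Mv: mean value form of the
large value estimate.
-/

set_option autoImplicit false

open MeasureTheory Set Filter Topology

noncomputable section

namespace Pool.Agent.Work.MP_a8fbd7_nt.OX

namespace Mv_aux

/-- `(1 + log Y)² ≤ (1 + log B + 2/ε)² L^ε` for `1 ≤ Y ≤ BL` -/
lemma log_bound (ε B L Y : ℝ) (hε : 0 < ε) (hB : 1 ≤ B) (hL : 1 ≤ L) (hY : 1 ≤ Y) (hYB : Y ≤ B * L) :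
    (1 + Real.log Y) ^ 2 ≤ (1 + Real.log B + 2 / ε) ^ 2 * L ^ ε := by
  have h0 : 0 ≤ Real.log Y := Real.log_nonneg hY
  have hB0 : 0 ≤ Real.log B := Real.log_nonneg hB
  have h1 : Real.log Y ≤ Real.log B + Real.log L := by
    rw [← Real.log_mul (by linarith) (by linarith)]
    exact Real.log_le_log (by linarith) hYB
  have h2 : Real.log L ≤ L ^ (ε / 2) / (ε / 2) := Real.log_le_rpow_div (by linarith) (by linarith)
  have h3 : (1 : ℝ) ≤ L ^ (ε / 2) := Real.one_le_rpow hL (by linarith)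
  have h4 : L ^ (ε / 2) / (ε / 2) = (2 / ε) * L ^ (ε / 2) := by
    field_simp
  have h5 : 1 + Real.log Y ≤ (1 + Real.log B + 2 / ε) * L ^ (ε / 2) := by
    have : (1 + Real.log B) * 1 ≤ (1 + Real.log B) * L ^ (ε / 2) :=
      mul_le_mul_of_nonneg_left h3 (by linarith)
    rw [h4] at h2
    nlinarith
  have h6 : (1 + Real.log Y) ^ 2 ≤ ((1 + Real.log B + 2 / ε) * L ^ (ε / 2)) ^ 2 :=
    pow_le_pow_left₀ (by linarith) h5 2
  have h7 : (L ^ (ε / 2)) ^ 2 = L ^ ε := by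
    rw [← Real.rpow_natCast, ← Real.rpow_mul (by linarith)]
    congr 1
    push_cast
    ring
  rw [mul_pow, h7] at h6
  exact h6

end Mv_aux

open Mv_aux

theorem iMv (h1 : Pool.Agent.Work.MP_56b8f5_nt.UC.StMv) : StMv := by
  obtain ⟨C1, hC1, hmv, -⟩ := h1
  intro ε B hε hB
  have hB0 : 0 ≤ Real.log B := Real.log_nonneg hB
  have h2e : 0 < 2 / ε := by positivity
  refine ⟨C1 * (1 + Real.log B + 2 / ε) ^ 2 * B ^ 2, ?_, ?_⟩
  · have h1 : (1 : ℝ) ≤ (1 + Real.log B + 2 / ε) ^ 2 := one_le_pow₀ (by linarith)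
    have h2 : (1 : ℝ) ≤ B ^ 2 := one_le_pow₀ hB
    exact one_le_mul_of_one_le_of_one_le (one_le_mul_of_one_le_of_one_le hC1 h1) h2
  intro F L D V T0 T W hL hT hD hV hF hW
  obtain ⟨a, haD, -, haF⟩ := hF
  obtain ⟨hsep, hint, hval⟩ := hW
  have hBL : 1 ≤ B * L := one_le_mul_of_one_le_of_one_le hB hL
  set Y : ℕ := ⌊B * L⌋₊ with hYdef
  have hY1 : 1 ≤ Y := (Nat.one_le_floor_iff (B * L)).mpr hBL
  have hYB : (Y : ℝ) ≤ B * L := Nat.floor_le (by linarith)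
  have hY1r : (1 : ℝ) ≤ Y := by exact_mod_cast hY1
  have hm := hmv T0 T W Y a hT hsep hint hY1
  have hsum : ∑ n ∈ Finset.Icc 1 Y, ‖a n‖ ^ 2 ≤ (Y : ℝ) * D ^ 2 := by
    calc ∑ n ∈ Finset.Icc 1 Y, ‖a n‖ ^ 2 ≤ ∑ n ∈ Finset.Icc 1 Y, D ^ 2 :=
          Finset.sum_le_sum (fun n _ => pow_le_pow_left₀ (norm_nonneg _) (haD n) 2)
      _ = (Y : ℝ) * D ^ 2 := by simp
  have hlow : (W.card : ℝ) * V ^ 2 ≤ ∑ t ∈ W, ‖Pool.Agent.Work.MP_56b8f5_nt.UC.Dp Y a t‖ ^ 2 := by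
    calc (W.card : ℝ) * V ^ 2 = ∑ t ∈ W, V ^ 2 := by simp
      _ ≤ ∑ t ∈ W, ‖Pool.Agent.Work.MP_56b8f5_nt.UC.Dp Y a t‖ ^ 2 := by
          refine Finset.sum_le_sum (fun t ht => ?_)
          have h := hval t ht
          rw [haF t] at h
          exact pow_le_pow_left₀ hV.le h 2
  have hlog := log_bound ε B L Y hε hB hL hY1r hYB
  have hLT : L ^ ε ≤ (L * T) ^ ε :=
    Real.rpow_le_rpow (by linarith) (by nlinarith) hε.le
  set K : ℝ := (1 + Real.log B + 2 / ε) ^ 2 with hK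
  have hK0 : 0 ≤ K := by positivity
  have hlog2 : (1 + Real.log Y) ^ 2 ≤ K * (L * T) ^ ε :=
    hlog.trans (mul_le_mul_of_nonneg_left hLT hK0)
  have hTY : (T + Y) * Y ≤ B ^ 2 * (L ^ 2 + T * L) := by
    have h1 : (T + Y) * (Y : ℝ) ≤ (T + B * L) * (B * L) :=
      mul_le_mul (by linarith) hYB (by linarith) (by nlinarith)
    have h2 : T * (B * L) ≤ B ^ 2 * (T * L) := by
      have : 0 ≤ T * L := by positivity
      nlinarith [mul_nonneg this (by nlinarith : (0 : ℝ) ≤ B ^ 2 - B)]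
    nlinarith
  have hmain : (W.card : ℝ) * V ^ 2 ≤
      C1 * (K * (L * T) ^ ε) * (B ^ 2 * (L ^ 2 + T * L)) * D ^ 2 := by
    have hC0 : 0 ≤ C1 := by linarith
    have hTL : 0 ≤ (L * T) ^ ε := by positivity
    calc (W.card : ℝ) * V ^ 2 ≤ C1 * (1 + Real.log Y) ^ 2 * (T + Y) * ∑ n ∈ Finset.Icc 1 Y, ‖a n‖ ^ 2 :=
          hlow.trans hm
      _ ≤ C1 * (1 + Real.log Y) ^ 2 * (T + Y) * ((Y : ℝ) * D ^ 2) :=
          mul_le_mul_of_nonneg_left hsum (by positivity)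
      _ = C1 * (1 + Real.log Y) ^ 2 * ((T + Y) * Y) * D ^ 2 := by ring
      _ ≤ C1 * (K * (L * T) ^ ε) * (B ^ 2 * (L ^ 2 + T * L)) * D ^ 2 := by
          refine mul_le_mul_of_nonneg_right ?_ (by positivity)
          refine mul_le_mul ?_ hTY (by positivity) (by positivity)
          exact mul_le_mul_of_nonneg_left hlog2 hC0
  have hV2 : 0 < V ^ 2 := by positivity
  have hfin : C1 * K * B ^ 2 * (L * T) ^ ε * ((L ^ 2 + T * L) * (D / V) ^ 2) =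
      (C1 * (K * (L * T) ^ ε) * (B ^ 2 * (L ^ 2 + T * L)) * D ^ 2) / V ^ 2 := by
    rw [div_pow]
    ring
  rw [hfin, le_div_iff₀ hV2]
  exact hmain

end Pool.Agent.Work.MP_a8fbd7_nt.OX
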