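import Mathlib
import Pool.Agent.Work.MP_a8fbd7_nt.OX.LV.Stmts

/-!
MP_a8fbd7_nt, block OX, part LV, item Rb: the reflected block is a Dirichlet polynomial.
-/

open MeasureTheory Set Filter Topology

noncomputable section

namespace Pool.Agent.Work.MP_a8fbd7_nt.OX

open Pool.Agent.Work.MP_56b8f5_nt

namespace Rb_aux

/-- a weight is bounded -/
lemma bdd (u : ℝ → ℝ) (hu : UC.IsWt u) : ∃ C : ℝ, ∀ x, |u x| ≤ C := by
  obtain ⟨a, b, ha, hab, hs⟩ := hu.supp
  have hc : Continuous u := hu.smooth.continuous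
  have hK : IsCompact (Icc a b) := isCompact_Icc
  obtain ⟨C, hC⟩ := hK.exists_bound_of_continuousOn hc.continuousOn
  refine ⟨max C 0, fun x => ?_⟩
  by_cases hx : u x = 0
  · rw [hx, abs_zero]; exact le_max_right _ _
  · have h := hC x ⟨(hs x hx).1, (hs x hx).2⟩
    rw [Real.norm_eq_abs] at h
    exact h.trans (le_max_left _ _)

end Rb_aux

theorem iRb : StRb := by
  intro u hu
  obtain ⟨a, b, ha, hab, hs⟩ := hu.supp
  obtain ⟨C, hC⟩ := Rb_aux.bdd u hu
  have hB1 : (1 : ℝ) ≤ max 1 (max C (max b (1 / a))) := le_max_left _ _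
  have hBC : C ≤ max 1 (max C (max b (1 / a))) := (le_max_left _ _).trans (le_max_right _ _)
  have hBb : b ≤ max 1 (max C (max b (1 / a))) :=
    ((le_max_left _ _).trans (le_max_right _ _)).trans (le_max_right _ _)
  have hBa : 1 / a ≤ max 1 (max C (max b (1 / a))) :=
    ((le_max_right _ _).trans (le_max_right _ _)).trans (le_max_right _ _)
  generalize max 1 (max C (max b (1 / a))) = B at hB1 hBC hBb hBa
  have hB0 : 0 < B := by linarith
  refine ⟨B, hB1, fun M y hM => ?_⟩
  have hn0 : ∀ n : ℕ, u ((n : ℝ) / M) ≠ 0 → 1 ≤ n ∧ M / B ≤ n ∧ (n : ℝ) ≤ B * M := by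
    intro n hn
    obtain ⟨h1, h2⟩ := hs _ hn
    rw [le_div_iff₀ hM] at h1
    rw [div_le_iff₀ hM] at h2
    have hnpos : (0 : ℝ) < n := lt_of_lt_of_le (by positivity) h1
    refine ⟨by exact_mod_cast hnpos, ?_, h2.trans (by gcongr)⟩
    rw [div_le_iff₀ hB0]
    have h3 : 1 ≤ B * a := by
      rw [div_le_iff₀ ha] at hBa; exact hBa
    calc M = 1 * M := (one_mul _).symm
      _ ≤ (B * a) * M := by gcongr
      _ = (a * M) * B := by ring
      _ ≤ n * B := by gcongr
  refine ⟨fun n => if n = 0 then 0 else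
    ((u ((n : ℝ) / M) : ℝ) : ℂ) * (n : ℂ) ^ (-((y : ℂ) * Complex.I)), fun n => ?_, fun n hn => ?_,
    fun t => ?_⟩
  · by_cases h : n = 0
    · simp only [h, if_true, norm_zero]; exact hB0.le
    · simp only [h, if_false, norm_mul, Complex.norm_real, Real.norm_eq_abs]
      have h1 : ‖(n : ℂ) ^ (-((y : ℂ) * Complex.I))‖ = 1 := by
        rw [Complex.norm_natCast_cpow_of_pos (Nat.pos_of_ne_zero h)]
        simp
      rw [h1, mul_one]
      exact (hC _).trans hBC
  · by_cases h : n = 0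
    · simp [h] at hn
    · simp only [h, if_false] at hn
      refine hn0 n ?_
      intro h0
      rw [h0] at hn
      simp at hn
  · show UC.Bl u M (t + y) = _
    unfold UC.Bl UC.Dp
    rw [tsum_eq_sum (s := Finset.Icc 1 ⌊B * M⌋₊)]
    · refine Finset.sum_congr rfl fun n hn => ?_
      have hn1 : n ≠ 0 := by
        have := (Finset.mem_Icc.mp hn).1; omega
      have hnC : (n : ℂ) ≠ 0 := by exact_mod_cast hn1
      simp only [hn1, if_false]
      rw [mul_assoc, ← Complex.cpow_add _ _ hnC]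
      congr 2
      push_cast
      ring
    · intro n hn
      have h0 : u ((n : ℝ) / M) = 0 := by
        by_contra hne
        obtain ⟨h1, -, h3⟩ := hn0 n hne
        exact hn (Finset.mem_Icc.mpr ⟨h1, Nat.le_floor h3⟩)
      rw [h0]
      simp

end Pool.Agent.Work.MP_a8fbd7_nt.OX
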