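import Pool.Agent.Work.MP_a8fbd7_nt.OX.LV.I_Pr
import Pool.Agent.Work.MP_a8fbd7_nt.OX.LV.I_Pf
import Pool.Agent.Work.MP_a8fbd7_nt.OX.LV.I_Dy
import Pool.Agent.Work.MP_a8fbd7_nt.OX.LV.I_Mv
import Pool.Agent.Work.MP_a8fbd7_nt.OX.LV.I_Hx
import Pool.Agent.Work.MP_a8fbd7_nt.OX.LV.I_G0
import Pool.Agent.Work.MP_a8fbd7_nt.OX.LV.I_G
import Pool.Agent.Work.MP_a8fbd7_nt.OX.LV.I_Rb
import Pool.Agent.Work.MP_a8fbd7_nt.OX.LV.I_J1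
import Pool.Agent.Work.MP_a8fbd7_nt.OX.LV.I_J2
import Pool.Agent.Work.MP_a8fbd7_nt.OX.LV.I_J3
import Pool.Agent.Work.MP_a8fbd7_nt.OX.LV.I_J4
import Pool.Agent.Work.MP_a8fbd7_nt.OX.LV.I_J5
import Pool.Agent.Work.MP_a8fbd7_nt.OX.LV.I_J6
import Pool.Agent.Work.MP_a8fbd7_nt.OX.LV.I_J7
import Pool.Agent.Work.MP_a8fbd7_nt.OX.LV.I_J8
import Pool.Agent.Work.MP_a8fbd7_nt.OX.LV.I_J9
import Pool.Agent.Work.MP_a8fbd7_nt.OX.LV.I_Ja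
import Pool.Agent.Work.MP_a8fbd7_nt.OX.LV.I_Jb
import Pool.Agent.Work.MP_a8fbd7_nt.OX.LV.I_J
import Pool.Agent.Work.MP_56b8f5_nt.UC.I_Mel
import Pool.Agent.Work.MP_56b8f5_nt.UC.I_Gam
import Pool.Agent.Work.MP_56b8f5_nt.UC.I_Imf
import Pool.Agent.Work.MP_56b8f5_nt.UC.I_Ns
import Pool.Agent.Work.MP_56b8f5_nt.UC.I_N0
import Pool.Agent.Work.MP_56b8f5_nt.UC.I_Po
import Pool.Agent.Work.MP_56b8f5_nt.UC.I_Bc
import Pool.Agent.Work.MP_56b8f5_nt.UC.I_Rf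
import Pool.Agent.Work.MP_56b8f5_nt.UC.I_Kp
import Pool.Agent.Work.MP_56b8f5_nt.UC.I_Kd
import Pool.Agent.Work.MP_56b8f5_nt.UC.I_Mv
import Pool.Agent.Work.MP_56b8f5_nt.UC.I_Pw
import Pool.Agent.Work.MP_56b8f5_nt.UC.I_Mk
import Pool.Agent.Work.MP_56b8f5_nt.UC.I_S2
import Pool.Agent.Work.MP_56b8f5_nt.UC.I_Tr
import Pool.Agent.Work.MP_56b8f5_nt.UC.I_Du
import Pool.Agent.Work.MP_56b8f5_nt.UC.I_X3
import Pool.Agent.Work.MP_56b8f5_nt.UC.I_T2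
import Pool.Agent.Work.MP_56b8f5_nt.UC.I_Jr
import Pool.Agent.Work.MP_56b8f5_nt.UC.I_T3a
import Pool.Agent.Work.MP_56b8f5_nt.UC.I_T3b
import Pool.Agent.Work.MP_56b8f5_nt.UC.I_Mj
import Pool.Agent.Work.MP_56b8f5_nt.UC.I_Af
import Pool.Agent.Work.MP_56b8f5_nt.UC.I_R24
import Pool.Agent.Work.MP_56b8f5_nt.UC.I_T3
import Pool.Agent.Work.MP_56b8f5_nt.UC.I_Up1
import Pool.Agent.Work.MP_56b8f5_nt.UC.I_Up
import Pool.Agent.Work.MP_56b8f5_nt.UC.I_GM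
import Pool.Agent.Work.MP_56b8f5_nt.UC.I_Hx

/-!
MP_a8fbd7_nt, block OX, part LV: everything together.
-/

namespace Pool.Agent.Work.MP_a8fbd7_nt.OX

open Pool.Agent.Work.MP_56b8f5_nt

namespace LVin

theorem mel : UC.StMel := UC.iMel
theorem gam : UC.StGam := UC.iGam
theorem imf : UC.StImf := UC.iImf mel gam
theorem ns : UC.StNs := UC.iNs
theorem n0 : UC.StN0 := UC.iN0 mel
theorem po : UC.StPo := UC.iPo
theorem bc : UC.StBc := UC.iBc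
theorem rf : UC.StRf := UC.iRf mel gam imf ns n0 po bc
theorem kp : UC.StKp := UC.iKp rf bc
theorem kd : UC.StKd := UC.iKd ns po
theorem mv : UC.StMv := UC.iMv
theorem pw : UC.StPw := UC.iPw
theorem mk : UC.StMk := UC.iMk mv pw bc
theorem s2 : UC.StS2 := UC.iS2
theorem tr : UC.StTr := UC.iTr
theorem du : UC.StDu := UC.iDu
theorem x3 : UC.StX3 := UC.iX3 tr du kd n0 bc s2
theorem t2 : UC.StT2 := UC.iT2 kd n0 rf mk ns bc s2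
theorem jr : UC.StJr := UC.iJr
theorem t3a : UC.StT3a := UC.iT3a jr
theorem t3b : UC.StT3b := UC.iT3b
theorem mj : UC.StMj := UC.iMj
theorem af : UC.StAf := UC.iAf mj
theorem r24 : UC.StR24 := UC.iR24 s2
theorem t3 : UC.StT3 := UC.iT3 t3a t3b af r24
theorem up1 : UC.StUp1 := UC.iUp1 mv
theorem up : UC.StUp := UC.iUp up1 kp s2
theorem gm : UC.StGM := UC.iGM x3 t2 t3
theorem hx : UC.StHx := UC.iHx du kp s2

end LVin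

theorem lv_Pr : StPr := iPr
theorem lv_Pf : StPf := iPf lv_Pr
theorem lv_Dy : StDy := iDy
theorem lv_Mv : StMv := iMv LVin.mv
theorem lv_Hx : StHx := iHx LVin.hx lv_Dy
theorem lv_G0 : StG0 := iG0 LVin.gm LVin.up
theorem lv_G : StG := iG lv_G0 lv_Dy
theorem lv_Rb : StRb := iRb
theorem lv_J1 : StJ1 := iJ1
theorem lv_J2 : StJ2 := iJ2 lv_J1
theorem lv_J3 : StJ3 := iJ3
theorem lv_J4 : StJ4 := iJ4 lv_J1
theorem lv_J5 : StJ5 := iJ5 lv_J4 LVin.kp LVin.s2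
theorem lv_J6 : StJ6 := iJ6 lv_J2 lv_J3 lv_J4 LVin.rf LVin.po LVin.n0 LVin.ns LVin.bc LVin.s2
theorem lv_J7 : StJ7 := iJ7 lv_J1 lv_J2
theorem lv_J8 : StJ8 := iJ8 lv_J2 lv_J3 lv_J5 lv_J6 lv_J7
theorem lv_J9 : StJ9 := iJ9 lv_J2 lv_J3 lv_J5 lv_J6 lv_J7 lv_J8
theorem lv_Ja : StJa := iJa LVin.du LVin.rf LVin.po LVin.n0 LVin.ns LVin.bc LVin.s2 lv_J2 lv_J7 lv_J9
theorem lv_Jb : StJb := iJb lv_Ja
theorem lv_J : StJ := iJ lv_Jb lv_Dy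

end Pool.Agent.Work.MP_a8fbd7_nt.OX
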