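import Pool.Agent.Work.MP_a8fbd7_nt.OX.LV.Stmts
import Pool.Agent.Work.MP_cb106b_nt.Ct.DivB

open MeasureTheory Set Filter Topology

noncomputable section

namespace Pool.Agent.Work.MP_a8fbd7_nt.OX

open Pool.Agent.Work.MP_56b8f5_nt

namespace Pr_aux

/-- Dirichlet convolution -/
def cv (a b : ℕ → ℂ) (n : ℕ) : ℂ := ∑ p ∈ n.divisorsAntidiagonal, a p.1 * b p.2

lemma floor_mem {x : ℝ} {d : ℕ} (h1 : 1 ≤ d) (h2 : (d : ℝ) ≤ x) : d ∈ Finset.Icc 1 ⌊x⌋₊ :=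
  Finset.mem_Icc.2 ⟨h1, Nat.le_floor h2⟩

end Pr_aux

open Pr_aux in
theorem iPr : StPr := by
  intro ε hε
  obtain ⟨C, hC1, hC⟩ := Pool.Agent.Work.MP_cb106b_nt.Ct.divisor_bound ε hε
  refine ⟨C, hC1, ?_⟩
  rintro F1 F2 L1 L2 B1 B2 D1 D2 hL1 hL2 hB1 hB2 hD1 hD2 ⟨a, ha, has, haF⟩ ⟨b, hb, hbs, hbF⟩
  have hX1 : (1 : ℝ) ≤ B1 * B2 := one_le_mul_of_one_le_of_one_le hB1 hB2
  have hX2 : (1 : ℝ) ≤ L1 * L2 := one_le_mul_of_one_le_of_one_le hL1 hL2
  have hX0 : (1 : ℝ) ≤ B1 * B2 * (L1 * L2) := one_le_mul_of_one_le_of_one_le hX1 hX2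
  have hsupp : ∀ n, cv a b n ≠ 0 → 1 ≤ n ∧ (L1 * L2) / (B1 * B2) ≤ n ∧
      (n : ℝ) ≤ B1 * B2 * (L1 * L2) := by
    intro n hn
    obtain ⟨p, hp, hpn⟩ := Finset.exists_ne_zero_of_sum_ne_zero hn
    obtain ⟨hpm, hn0⟩ := Nat.mem_divisorsAntidiagonal.1 hp
    obtain ⟨h1, h2, h3⟩ := has p.1 (left_ne_zero_of_mul hpn)
    obtain ⟨h4, h5, h6⟩ := hbs p.2 (right_ne_zero_of_mul hpn)
    have hcast : (n : ℝ) = (p.1 : ℝ) * (p.2 : ℝ) := by rw [← hpm]; push_cast; ring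
    refine ⟨Nat.one_le_iff_ne_zero.2 hn0, ?_, ?_⟩
    · rw [hcast, mul_div_mul_comm]
      exact mul_le_mul h2 h5 (by positivity) (by positivity)
    · rw [hcast]
      calc (p.1 : ℝ) * (p.2 : ℝ) ≤ (B1 * L1) * (B2 * L2) :=
            mul_le_mul h3 h6 (by positivity) (by positivity)
        _ = B1 * B2 * (L1 * L2) := by ring
  refine ⟨cv a b, ?_, hsupp, ?_⟩
  · intro n
    by_cases hn : cv a b n = 0
    · rw [hn, norm_zero]
      positivity
    · obtain ⟨h1, _, h3⟩ := hsupp n hn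
      have h4 : ‖cv a b n‖ ≤ (n.divisors.card : ℝ) * (D1 * D2) := by
        unfold cv
        refine (norm_sum_le _ _).trans ?_
        have h5 : ∀ p ∈ n.divisorsAntidiagonal, ‖a p.1 * b p.2‖ ≤ D1 * D2 := by
          intro p _
          rw [norm_mul]
          exact mul_le_mul (ha _) (hb _) (norm_nonneg _) hD1
        refine (Finset.sum_le_sum h5).trans ?_
        rw [Finset.sum_const, nsmul_eq_mul]
        have h6 : n.divisorsAntidiagonal.card = n.divisors.card := by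
          rw [← Nat.map_div_right_divisors, Finset.card_map]
        rw [h6]
      refine h4.trans ?_
      refine mul_le_mul_of_nonneg_right ?_ (by positivity)
      refine (hC n h1).trans ?_
      refine mul_le_mul_of_nonneg_left ?_ (by linarith)
      exact Real.rpow_le_rpow (by positivity) h3 hε.le
  · intro t
    show F1 t * F2 t = _
    rw [haF, hbF]
    unfold UC.Dp
    rw [Finset.sum_mul_sum, ← Finset.sum_product']
    have hmaps : ∀ p ∈ Finset.Icc 1 ⌊B1 * L1⌋₊ ×ˢ Finset.Icc 1 ⌊B2 * L2⌋₊,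
        p.1 * p.2 ∈ Finset.Icc 1 ⌊B1 * B2 * (L1 * L2)⌋₊ := by
      intro p hp
      obtain ⟨h1, h2⟩ := Finset.mem_product.1 hp
      obtain ⟨h1a, h1b⟩ := Finset.mem_Icc.1 h1
      obtain ⟨h2a, h2b⟩ := Finset.mem_Icc.1 h2
      have h3 : (p.1 : ℝ) ≤ B1 * L1 := (Nat.le_floor_iff (by positivity)).1 h1b
      have h4 : (p.2 : ℝ) ≤ B2 * L2 := (Nat.le_floor_iff (by positivity)).1 h2b
      refine floor_mem (Nat.mul_pos h1a h2a) ?_
      push_cast
      calc (p.1 : ℝ) * (p.2 : ℝ) ≤ (B1 * L1) * (B2 * L2) :=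
            mul_le_mul h3 h4 (by positivity) (by positivity)
        _ = B1 * B2 * (L1 * L2) := by ring
    rw [← Finset.sum_fiberwise_of_maps_to hmaps]
    refine Finset.sum_congr rfl fun n hn => ?_
    obtain ⟨hn1, _⟩ := Finset.mem_Icc.1 hn
    have hrhs : cv a b n * (n : ℂ) ^ (-(t * Complex.I)) = ∑ p ∈ n.divisorsAntidiagonal,
        (a p.1 * (p.1 : ℂ) ^ (-(t * Complex.I)) * (b p.2 * (p.2 : ℂ) ^ (-(t * Complex.I)))) := by
      unfold cv
      rw [Finset.sum_mul]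
      refine Finset.sum_congr rfl fun p hp => ?_
      obtain ⟨hpm, _⟩ := Nat.mem_divisorsAntidiagonal.1 hp
      have h1 : (n : ℂ) ^ (-(t * Complex.I)) =
          (p.1 : ℂ) ^ (-(t * Complex.I)) * (p.2 : ℂ) ^ (-(t * Complex.I)) := by
        rw [← hpm, Nat.cast_mul, Complex.natCast_mul_natCast_cpow]
      rw [h1]
      ring
    rw [hrhs]
    refine Finset.sum_subset ?_ ?_
    · intro p hp
      obtain ⟨_, h2⟩ := Finset.mem_filter.1 hp
      exact Nat.mem_divisorsAntidiagonal.2 ⟨h2, by omega⟩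
    · intro p hp hpn
      obtain ⟨hpm, _⟩ := Nat.mem_divisorsAntidiagonal.1 hp
      by_cases h1 : a p.1 = 0
      · rw [h1]; ring
      by_cases h2 : b p.2 = 0
      · rw [h2]; ring
      exfalso
      apply hpn
      obtain ⟨h3, _, h4⟩ := has p.1 h1
      obtain ⟨h5, _, h6⟩ := hbs p.2 h2
      exact Finset.mem_filter.2 ⟨Finset.mem_product.2 ⟨floor_mem h3 h4, floor_mem h5 h6⟩, hpm⟩

end Pool.Agent.Work.MP_a8fbd7_nt.OX
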