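import Mathlib
import Pool.Agent.Work.MP_a8fbd7_nt.OX.LV.Stmts2

/-!
MP_a8fbd7_nt, block OX, part LV2, item J1: positivity of double sums.
Statement: helper98.  Proof: helper64.
-/

open MeasureTheory Set Filter Topology

noncomputable section

namespace Pool.Agent.Work.MP_a8fbd7_nt.OX

open Pool.Agent.Work.MP_56b8f5_nt

namespace J1_aux

open ComplexConjugate

lemma key (S : Finset ℕ) (W : Finset ℝ) (u : ℝ → ℕ → ℂ) (c : ℕ → ℂ) :
    ((∑ s ∈ W, ∑ t ∈ W, ‖∑ n ∈ S, c n * (u s n * conj (u t n))‖ ^ 2 : ℝ) : ℂ) =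
      ∑ m ∈ S, ∑ n ∈ S, c m * conj (c n) *
        ((‖∑ s ∈ W, u s m * conj (u s n)‖ ^ 2 : ℝ) : ℂ) := by
  have hn : ∀ z : ℂ, ((‖z‖ ^ 2 : ℝ) : ℂ) = z * conj z := fun z => by
    rw [Complex.mul_conj']
    push_cast
    rfl
  have hL : ∀ s t : ℝ, ((‖∑ n ∈ S, c n * (u s n * conj (u t n))‖ ^ 2 : ℝ) : ℂ) =
      ∑ m ∈ S, ∑ n ∈ S, c m * conj (c n) *
        ((u s m * conj (u s n)) * (conj (u t m) * u t n)) := by
    intro s t
    rw [hn, map_sum, Finset.sum_mul_sum]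
    refine Finset.sum_congr rfl fun m _ => Finset.sum_congr rfl fun n _ => ?_
    simp only [map_mul, Complex.conj_conj]
    ring
  have hR : ∀ m n : ℕ, ((‖∑ s ∈ W, u s m * conj (u s n)‖ ^ 2 : ℝ) : ℂ) =
      ∑ s ∈ W, ∑ t ∈ W, (u s m * conj (u s n)) * (conj (u t m) * u t n) := by
    intro m n
    rw [hn, map_sum, Finset.sum_mul_sum]
    refine Finset.sum_congr rfl fun s _ => Finset.sum_congr rfl fun t _ => ?_
    simp only [map_mul, Complex.conj_conj]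
  have h1 : ((∑ s ∈ W, ∑ t ∈ W, ‖∑ n ∈ S, c n * (u s n * conj (u t n))‖ ^ 2 : ℝ) : ℂ) =
      ∑ s ∈ W, ∑ t ∈ W, ∑ m ∈ S, ∑ n ∈ S, c m * conj (c n) *
        ((u s m * conj (u s n)) * (conj (u t m) * u t n)) := by
    rw [Complex.ofReal_sum]
    refine Finset.sum_congr rfl fun s _ => ?_
    rw [Complex.ofReal_sum]
    exact Finset.sum_congr rfl fun t _ => hL s t
  rw [h1]
  have h2 : ∑ m ∈ S, ∑ n ∈ S, c m * conj (c n) *
        ((‖∑ s ∈ W, u s m * conj (u s n)‖ ^ 2 : ℝ) : ℂ) =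
      ∑ m ∈ S, ∑ n ∈ S, ∑ s ∈ W, ∑ t ∈ W, c m * conj (c n) *
        ((u s m * conj (u s n)) * (conj (u t m) * u t n)) := by
    refine Finset.sum_congr rfl fun m _ => Finset.sum_congr rfl fun n _ => ?_
    rw [hR, Finset.mul_sum]
    exact Finset.sum_congr rfl fun s _ => Finset.mul_sum _ _ _
  rw [h2]
  calc ∑ s ∈ W, ∑ t ∈ W, ∑ m ∈ S, ∑ n ∈ S, c m * conj (c n) *
        ((u s m * conj (u s n)) * (conj (u t m) * u t n))
      = ∑ s ∈ W, ∑ m ∈ S, ∑ t ∈ W, ∑ n ∈ S, c m * conj (c n) *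
        ((u s m * conj (u s n)) * (conj (u t m) * u t n)) :=
        Finset.sum_congr rfl fun s _ => Finset.sum_comm
    _ = ∑ m ∈ S, ∑ s ∈ W, ∑ t ∈ W, ∑ n ∈ S, c m * conj (c n) *
        ((u s m * conj (u s n)) * (conj (u t m) * u t n)) := Finset.sum_comm
    _ = ∑ m ∈ S, ∑ s ∈ W, ∑ n ∈ S, ∑ t ∈ W, c m * conj (c n) *
        ((u s m * conj (u s n)) * (conj (u t m) * u t n)) :=
        Finset.sum_congr rfl fun m _ => Finset.sum_congr rfl fun s _ => Finset.sum_comm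
    _ = ∑ m ∈ S, ∑ n ∈ S, ∑ s ∈ W, ∑ t ∈ W, c m * conj (c n) *
        ((u s m * conj (u s n)) * (conj (u t m) * u t n)) :=
        Finset.sum_congr rfl fun m _ => Finset.sum_comm

lemma main (S : Finset ℕ) (W : Finset ℝ) (u : ℝ → ℕ → ℂ) (c : ℕ → ℂ) (b : ℕ → ℝ)
    (h : ∀ n ∈ S, ‖c n‖ ≤ b n) :
    ∑ s ∈ W, ∑ t ∈ W, ‖∑ n ∈ S, c n * (u s n * conj (u t n))‖ ^ 2 ≤
      ∑ s ∈ W, ∑ t ∈ W, ‖∑ n ∈ S, (b n : ℂ) * (u s n * conj (u t n))‖ ^ 2 := by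
  have h1 := key S W u c
  have h2 := key S W u (fun n => (b n : ℂ))
  have h3 : ∑ s ∈ W, ∑ t ∈ W, ‖∑ n ∈ S, (b n : ℂ) * (u s n * conj (u t n))‖ ^ 2 =
      ∑ m ∈ S, ∑ n ∈ S, b m * b n * ‖∑ s ∈ W, u s m * conj (u s n)‖ ^ 2 := by
    have : ((∑ s ∈ W, ∑ t ∈ W, ‖∑ n ∈ S, (b n : ℂ) * (u s n * conj (u t n))‖ ^ 2 : ℝ) : ℂ) =
        ((∑ m ∈ S, ∑ n ∈ S, b m * b n * ‖∑ s ∈ W, u s m * conj (u s n)‖ ^ 2 : ℝ) : ℂ) := by
      rw [h2]
      push_cast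
      refine Finset.sum_congr rfl fun m _ => Finset.sum_congr rfl fun n _ => ?_
      rw [Complex.conj_ofReal]
    exact_mod_cast this
  rw [h3]
  have h4 : 0 ≤ ∑ s ∈ W, ∑ t ∈ W, ‖∑ n ∈ S, c n * (u s n * conj (u t n))‖ ^ 2 := by positivity
  calc ∑ s ∈ W, ∑ t ∈ W, ‖∑ n ∈ S, c n * (u s n * conj (u t n))‖ ^ 2
      = ‖((∑ s ∈ W, ∑ t ∈ W, ‖∑ n ∈ S, c n * (u s n * conj (u t n))‖ ^ 2 : ℝ) : ℂ)‖ := by
        rw [Complex.norm_real, Real.norm_of_nonneg h4]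
    _ ≤ ∑ m ∈ S, ∑ n ∈ S, ‖c m * conj (c n) *
        ((‖∑ s ∈ W, u s m * conj (u s n)‖ ^ 2 : ℝ) : ℂ)‖ := by
        rw [h1]
        exact (norm_sum_le _ _).trans (Finset.sum_le_sum fun m _ => norm_sum_le _ _)
    _ ≤ _ := by
        refine Finset.sum_le_sum fun m hm => Finset.sum_le_sum fun n hn => ?_
        rw [norm_mul, norm_mul, RCLike.norm_conj, Complex.norm_real,
          Real.norm_of_nonneg (by positivity)]
        apply mul_le_mul_of_nonneg_right _ (by positivity)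
        exact mul_le_mul (h m hm) (h n hn) (norm_nonneg _) ((norm_nonneg _).trans (h m hm))

lemma conj_pow (n : ℕ) (t : ℝ) :
    conj ((n : ℂ) ^ (-((t : ℂ) * Complex.I))) = (n : ℂ) ^ ((t : ℂ) * Complex.I) := by
  have h1 : (n : ℂ).arg ≠ Real.pi := by
    rw [Complex.natCast_arg]
    exact Real.pi_pos.ne
  have h2 := Complex.cpow_conj (n : ℂ) (-((t : ℂ) * Complex.I)) h1
  rw [Complex.conj_natCast] at h2
  rw [← h2]
  simp

lemma split {n : ℕ} (hn : 1 ≤ n) (s t y : ℝ) :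
    (n : ℂ) ^ (-(((s - t + y : ℝ) : ℂ) * Complex.I)) =
      (n : ℂ) ^ (-((y : ℂ) * Complex.I)) * ((n : ℂ) ^ (-((s : ℂ) * Complex.I)) *
        conj ((n : ℂ) ^ (-((t : ℂ) * Complex.I)))) := by
  have h0 : (n : ℂ) ≠ 0 := by exact_mod_cast (by omega : n ≠ 0)
  rw [conj_pow, ← Complex.cpow_add _ _ h0, ← Complex.cpow_add _ _ h0]
  congr 1
  push_cast
  ring

lemma norm_pow {n : ℕ} (hn : 1 ≤ n) (y : ℝ) : ‖(n : ℂ) ^ (-((y : ℂ) * Complex.I))‖ = 1 := by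
  rw [Complex.norm_natCast_cpow_of_pos (by omega)]
  simp

end J1_aux

open J1_aux in
theorem iJ1 : StJ1 := by
  intro Y a b W y hab
  have h1 := main (Finset.Icc 1 Y) W (fun s n => (n : ℂ) ^ (-((s : ℂ) * Complex.I)))
    (fun n => a n * (n : ℂ) ^ (-((y : ℂ) * Complex.I))) b (by
      intro n hn
      rw [norm_mul, norm_pow (Finset.mem_Icc.1 hn).1, mul_one]
      exact hab n hn)
  have h2 : ∀ s t : ℝ, UC.Dp Y a (s - t + y) = ∑ n ∈ Finset.Icc 1 Y,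
      (a n * (n : ℂ) ^ (-((y : ℂ) * Complex.I))) * ((n : ℂ) ^ (-((s : ℂ) * Complex.I)) *
        (starRingEnd ℂ) ((n : ℂ) ^ (-((t : ℂ) * Complex.I)))) := by
    intro s t
    unfold UC.Dp
    refine Finset.sum_congr rfl fun n hn => ?_
    rw [split (Finset.mem_Icc.1 hn).1 s t y]
    ring
  have h3 : ∀ s t : ℝ, UC.Dp Y (fun n => (b n : ℂ)) (s - t) = ∑ n ∈ Finset.Icc 1 Y,
      (b n : ℂ) * ((n : ℂ) ^ (-((s : ℂ) * Complex.I)) *
        (starRingEnd ℂ) ((n : ℂ) ^ (-((t : ℂ) * Complex.I)))) := by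
    intro s t
    unfold UC.Dp
    refine Finset.sum_congr rfl fun n hn => ?_
    have h4 := split (Finset.mem_Icc.1 hn).1 s t 0
    rw [add_zero] at h4
    rw [h4]
    simp
  simp only [h2, h3]
  exact h1

end Pool.Agent.Work.MP_a8fbd7_nt.OX
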