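import Mathlib
import Pool.Agent.Work.MP_a8fbd7_nt.OX.LV.Stmts2
import Pool.Agent.Work.MP_a8fbd7_nt.OX.LV.I_J2
import Pool.Agent.Work.MP_56b8f5_nt.UC.I_T2

/-!
MP_a8fbd7_nt, block OX, part LV2, item Ja: large values, first form.
-/

open MeasureTheory Set Filter Topology

noncomputable section

namespace Pool.Agent.Work.MP_a8fbd7_nt.OX

open Pool.Agent.Work.MP_56b8f5_nt
open Pool.Agent.Work.MP_56b8f5_nt.UB (om)

namespace Ja_aux

open UC.T2_aux (wy wy_nonneg wy_int Kw Kw_nonneg int_bdd)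

/-- near pairs -/
lemma near {CN CS L t : ℝ} (hCN : 1 ≤ CN) (hCS : 1 ≤ CS)
    (hsum : Summable fun m : ℤ => ‖UC.Im om L t m‖)
    (hBl : UC.Bl om L t = ∑' m : ℤ, UC.Im om L t m)
    (hN : ‖UC.Im om L t 0‖ ≤ CN * L / (1 + |t|) ^ 2)
    (hS : ∀ m : ℤ, m ≠ 0 → ‖UC.Im om L t m‖ ≤ CS * L / (|(m : ℝ)| * L + |t|) ^ 2)
    (hL : 1 ≤ L) :
    ‖UC.Bl om L t‖ ≤ CN * L * (1 / (1 + t ^ 2)) + CS * ∑' m : ℤ, 1 / (m : ℝ) ^ 2 := by
  have hZ : Summable fun m : ℤ => 1 / (m : ℝ) ^ 2 := Real.summable_one_div_int_pow.mpr (by norm_num)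
  have hN' : ‖UC.Im om L t 0‖ ≤ CN * L * (1 / (1 + t ^ 2)) := by
    refine hN.trans ?_
    rw [mul_one_div]
    have h1 : 1 + t ^ 2 ≤ (1 + |t|) ^ 2 := by
      have := abs_nonneg t
      rw [← sq_abs t]
      nlinarith
    gcongr
  have hm : ∀ m : ℤ, ‖UC.Im om L t m‖ ≤
      (if m = 0 then CN * L * (1 / (1 + t ^ 2)) else 0) + CS * (1 / (m : ℝ) ^ 2) := by
    intro m
    by_cases h0 : m = 0
    · subst h0
      simp only [if_true]
      have : CS * (1 / ((0 : ℤ) : ℝ) ^ 2) = 0 := by simp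
      rw [this, add_zero]
      exact hN'
    · rw [if_neg h0, zero_add]
      have hm1 : (1 : ℝ) ≤ |(m : ℝ)| := by
        have : (1 : ℤ) ≤ |m| := Int.one_le_abs h0
        exact_mod_cast this
      refine (hS m h0).trans ?_
      rw [div_le_iff₀ (by positivity), ← sq_abs (m : ℝ)]
      have h3 : |(m : ℝ)| ^ 2 * L ^ 2 ≤ (|(m : ℝ)| * L + |t|) ^ 2 := by
        rw [← mul_pow]
        have := abs_nonneg t
        gcongr
        linarith
      calc CS * L ≤ CS * L ^ 2 := by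
            have : L ≤ L ^ 2 := by nlinarith
            gcongr
        _ = CS * (1 / |(m : ℝ)| ^ 2) * (|(m : ℝ)| ^ 2 * L ^ 2) := by
            field_simp
        _ ≤ CS * (1 / |(m : ℝ)| ^ 2) * (|(m : ℝ)| * L + |t|) ^ 2 := by gcongr
  have hs1 : Summable fun m : ℤ => (if m = 0 then CN * L * (1 / (1 + t ^ 2)) else 0) :=
    (hasSum_ite_eq 0 _).summable
  have hs2 : Summable fun m : ℤ => CS * (1 / (m : ℝ) ^ 2) := hZ.mul_left _
  rw [hBl]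
  calc ‖∑' m : ℤ, UC.Im om L t m‖ ≤ ∑' m : ℤ, ‖UC.Im om L t m‖ := norm_tsum_le_tsum_norm hsum
    _ ≤ ∑' m : ℤ, ((if m = 0 then CN * L * (1 / (1 + t ^ 2)) else 0) + CS * (1 / (m : ℝ) ^ 2)) :=
        hsum.tsum_le_tsum hm (hs1.add hs2)
    _ = _ := by
        rw [hs1.tsum_add hs2, tsum_ite_eq, tsum_mul_left]

/-- the weighted mean -/
def G1 (u : ℝ → ℝ) (N x : ℝ) : ℝ := ∫ y, ‖UC.Bl u N (x + y)‖ * wy y

lemma G1_nonneg (u : ℝ → ℝ) (N x : ℝ) : 0 ≤ G1 u N x :=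
  integral_nonneg (fun y => mul_nonneg (norm_nonneg _) (wy_nonneg y))

/-- far pairs -/
lemma far {u : ℝ → ℝ} {CR c : ℝ} (hCR : 1 ≤ CR) (hc : 0 < c)
    (hR : ∀ N D t : ℝ, 0 < N → 1 ≤ D → D ≤ |t| → |t| ≤ 2 * D →
      ‖UC.Bl om N t‖ ≤ CR * (N / Real.sqrt D) * (∫ y : ℝ, ‖UC.Bl u (D / N) (t + y)‖ / (1 + |y|) ^ 2) +
        CR / D + CR * N / D ^ 2)
    {L D x : ℝ} (hL : 1 ≤ L) (hD1 : 1 ≤ D) (hDL : c * L ≤ D) (hDx : D ≤ |x|) (hxD : |x| ≤ 2 * D) :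
    ‖UC.Bl om L x‖ ≤ (CR + CR / c) + CR * (L / Real.sqrt D * G1 u (D / L) x) := by
  have hLD : L / D ^ 2 ≤ 1 / c := by
    rw [div_le_div_iff₀ (by positivity) hc]
    nlinarith
  have h3 := hR L D x (by linarith) hD1 hDx hxD
  have hJ' : (∫ y : ℝ, ‖UC.Bl u (D / L) (x + y)‖ / (1 + |y|) ^ 2) = G1 u (D / L) x := by
    unfold G1
    congr 1; funext y; simp only [wy]; ring
  rw [hJ'] at h3
  have e1 : CR / D ≤ CR := div_le_self (by linarith) hD1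
  have e2 : CR * L / D ^ 2 ≤ CR / c := by
    calc CR * L / D ^ 2 = CR * (L / D ^ 2) := by ring
      _ ≤ CR * (1 / c) := by gcongr
      _ = CR / c := by ring
  calc ‖UC.Bl om L x‖ ≤ _ := h3
    _ ≤ CR * (L / Real.sqrt D) * G1 u (D / L) x + CR + CR / c := by linarith
    _ = _ := by ring

/-- sum of `G1` over the pairs -/
lemma sum_G1 {u : ℝ → ℝ} (hcont : ∀ N : ℝ, 0 < N → Continuous (UC.Bl u N)) {CB : ℝ}
    (hBb : ∀ N t : ℝ, 0 < N → ‖UC.Bl u N t‖ ≤ CB * N) {W : Finset ℝ} {N B : ℝ} (hN : 0 < N)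
    (hB : ∀ y : ℝ, ∑ s ∈ W, ∑ t ∈ W, ‖UC.Bl u N (s - t + y)‖ ≤ B) :
    ∑ s ∈ W, ∑ t ∈ W, G1 u N (s - t) ≤ B * Kw := by
  have hi : ∀ x : ℝ, Integrable (fun y => ‖UC.Bl u N (x + y)‖ * wy y) := by
    intro x
    refine int_bdd ((hcont _ hN).comp (by fun_prop)).norm (B := CB * N) (fun y => ?_)
    rw [abs_norm]
    exact hBb _ _ hN
  unfold G1
  have e : ∑ s ∈ W, ∑ t ∈ W, (∫ y, ‖UC.Bl u N (s - t + y)‖ * wy y) =
      ∫ y, (∑ s ∈ W, ∑ t ∈ W, ‖UC.Bl u N (s - t + y)‖ * wy y) := by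
    rw [integral_finsetSum _ (fun s _ => integrable_finsetSum _ (fun t _ => hi (s - t)))]
    refine Finset.sum_congr rfl (fun s _ => ?_)
    rw [integral_finsetSum _ (fun t _ => hi (s - t))]
  rw [e]
  have h1 : ∫ y, (∑ s ∈ W, ∑ t ∈ W, ‖UC.Bl u N (s - t + y)‖ * wy y) ≤ ∫ y, B * wy y := by
    refine integral_mono (integrable_finsetSum _
      (fun s _ => integrable_finsetSum _ (fun t _ => hi (s - t)))) (wy_int.const_mul _) (fun y => ?_)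
    simp only [← Finset.sum_mul]
    exact mul_le_mul_of_nonneg_right (hB y) (wy_nonneg y)
  refine h1.trans (le_of_eq ?_)
  rw [integral_const_mul]; rfl

/-- root extraction -/
lemma root {k : ℕ} (hk : 1 ≤ k) {X R A T K : ℝ} (hR : 0 < R) (hA : 1 ≤ A) (hT : 0 < T) (hK : 0 < K)
    (h : X ^ (2 * k) ≤ (R ^ 2) ^ (2 * k - 1) *
      (A * ((K ^ k) ^ 2 * R + K ^ k * R ^ 2 + K ^ k * T ^ (1 / 2 : ℝ) * R ^ (5 / 4 : ℝ)))) :
    X ≤ A * (K * R ^ (2 - 1 / (2 * (k : ℝ))) + Real.sqrt K * R ^ 2 +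
      Real.sqrt K * T ^ (1 / (4 * (k : ℝ))) * R ^ (2 - 3 / (8 * (k : ℝ)))) := by
  have hk0 : (k : ℝ) ≠ 0 := by positivity
  have h2k : ((2 * k : ℕ) : ℝ) = 2 * (k : ℝ) := by push_cast; ring
  have hR2 : (R ^ 2) ^ (2 * k - 1) = R ^ ((4 * (k : ℝ) - 2)) := by
    rw [← pow_mul, ← Real.rpow_natCast]
    congr 1
    rw [Nat.cast_mul, Nat.cast_sub (by omega)]
    push_cast; ring
  have hsk : Real.sqrt K ^ (2 * k) = K ^ k := by
    rw [pow_mul, Real.sq_sqrt hK.le]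
  have q1 : (K * R ^ (2 - 1 / (2 * (k : ℝ)))) ^ (2 * k) = (R ^ 2) ^ (2 * k - 1) * ((K ^ k) ^ 2 * R) := by
    rw [mul_pow, hR2, ← Real.rpow_natCast (R ^ (2 - 1 / (2 * (k : ℝ)))), ← Real.rpow_mul hR.le, h2k]
    have e1 : R ^ ((2 - 1 / (2 * (k : ℝ))) * (2 * (k : ℝ))) = R ^ (4 * (k : ℝ) - 2) * R := by
      rw [← Real.rpow_add_one hR.ne']
      congr 1
      field_simp; ring
    rw [e1, pow_mul' K 2 k]
    ring
  have q2 : (Real.sqrt K * R ^ 2) ^ (2 * k) = (R ^ 2) ^ (2 * k - 1) * (K ^ k * R ^ 2) := by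
    rw [mul_pow, hsk]
    have : (R ^ 2) ^ (2 * k) = (R ^ 2) ^ (2 * k - 1) * R ^ 2 := by
      rw [← pow_succ]; congr 1; omega
    rw [this]; ring
  have q3 : (Real.sqrt K * T ^ (1 / (4 * (k : ℝ))) * R ^ (2 - 3 / (8 * (k : ℝ)))) ^ (2 * k) =
      (R ^ 2) ^ (2 * k - 1) * (K ^ k * T ^ (1 / 2 : ℝ) * R ^ (5 / 4 : ℝ)) := by
    rw [mul_pow, mul_pow, hsk, hR2, ← Real.rpow_natCast (R ^ (2 - 3 / (8 * (k : ℝ)))),
      ← Real.rpow_mul hR.le, h2k, ← Real.rpow_natCast (T ^ (1 / (4 * (k : ℝ)))), ← Real.rpow_mul hT.le, h2k]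
    have e1 : R ^ ((2 - 3 / (8 * (k : ℝ))) * (2 * (k : ℝ))) = R ^ (4 * (k : ℝ) - 2) * R ^ (5 / 4 : ℝ) := by
      rw [← Real.rpow_add hR]
      congr 1
      field_simp; ring
    have e2 : T ^ (1 / (4 * (k : ℝ)) * (2 * (k : ℝ))) = T ^ (1 / 2 : ℝ) := by
      congr 1
      field_simp; ring
    rw [e1, e2]
    ring
  obtain ⟨Q1, hQ1⟩ : ∃ Q1 : ℝ, Q1 = K * R ^ (2 - 1 / (2 * (k : ℝ))) := ⟨_, rfl⟩
  obtain ⟨Q2, hQ2⟩ : ∃ Q2 : ℝ, Q2 = Real.sqrt K * R ^ 2 := ⟨_, rfl⟩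
  obtain ⟨Q3, hQ3⟩ : ∃ Q3 : ℝ, Q3 = Real.sqrt K * T ^ (1 / (4 * (k : ℝ))) * R ^ (2 - 3 / (8 * (k : ℝ))) :=
    ⟨_, rfl⟩
  rw [← hQ1] at q1
  rw [← hQ2] at q2
  rw [← hQ3] at q3
  rw [← hQ1, ← hQ2, ← hQ3]
  have h1 : 0 ≤ Q1 := by rw [hQ1]; positivity
  have h2 : 0 ≤ Q2 := by rw [hQ2]; positivity
  have h3 : 0 ≤ Q3 := by rw [hQ3]; positivity
  have hA1 : A ≤ A ^ (2 * k) := le_self_pow₀ hA (by omega)
  have hs : Q1 ^ (2 * k) + Q2 ^ (2 * k) + Q3 ^ (2 * k) ≤ (Q1 + Q2 + Q3) ^ (2 * k) := by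
    have a1 := pow_add_pow_le h1 h2 (n := 2 * k) (by omega)
    have a2 := pow_add_pow_le (add_nonneg h1 h2) h3 (n := 2 * k) (by omega)
    linarith
  refine le_of_pow_le_pow_left₀ (n := 2 * k) (by omega) (by positivity) ?_
  refine h.trans ?_
  rw [mul_pow]
  calc (R ^ 2) ^ (2 * k - 1) *
      (A * ((K ^ k) ^ 2 * R + K ^ k * R ^ 2 + K ^ k * T ^ (1 / 2 : ℝ) * R ^ (5 / 4 : ℝ)))
      = A * (Q1 ^ (2 * k) + Q2 ^ (2 * k) + Q3 ^ (2 * k)) := by rw [q1, q2, q3]; ring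
    _ ≤ A ^ (2 * k) * (Q1 + Q2 + Q3) ^ (2 * k) := by gcongr

/-- Hoelder over the pairs -/
lemma hoelder {k : ℕ} (hk : 1 ≤ k) (W : Finset ℝ) (f : ℝ → ℝ → ℝ) (hf : ∀ s t, 0 ≤ f s t) :
    (∑ s ∈ W, ∑ t ∈ W, f s t) ^ (2 * k) ≤
      ((W.card : ℝ) ^ 2) ^ (2 * k - 1) * ∑ s ∈ W, ∑ t ∈ W, f s t ^ (2 * k) := by
  rcases W.eq_empty_or_nonempty with hW | hW
  · subst hW
    have h0 : (0 : ℝ) ^ (2 * k) = 0 := zero_pow (by omega)
    simp only [Finset.sum_empty, mul_zero, h0, le_refl]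
  have hcard : 0 < (W.card : ℝ) := by exact_mod_cast hW.card_pos
  obtain ⟨n, hn⟩ : ∃ n, 2 * k = n + 1 := ⟨2 * k - 1, by omega⟩
  have h := pow_sum_div_card_le_sum_pow (s := W ×ˢ W) (f := fun p => f p.1 p.2)
    (fun a _ => hf _ _) n
  rw [Finset.card_product, div_le_iff₀ (by positivity)] at h
  rw [Finset.sum_product, Finset.sum_product] at h
  rw [hn, Nat.add_sub_cancel]
  refine h.trans (le_of_eq ?_)
  push_cast
  ring

/-- the sum over the pairs for one shift -/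
lemma pairs {u : ℝ → ℝ} {a b M : ℝ} (ha : 0 < a) (hb : 0 < b) (hM : 1 ≤ M)
    (hs : ∀ x, u x ≠ 0 → a ≤ x ∧ x ≤ b) (hu : ∀ x, |u x| ≤ M)
    {k : ℕ} (hk : 1 ≤ k) {e C7 C9 : ℝ} (he : 0 < e) (hC7 : 1 ≤ C7) (hC9 : 1 ≤ C9)
    (h7 : ∀ (K y : ℝ) (a : ℕ → ℂ) (W : Finset ℝ), 1 ≤ K → (∀ n, ‖a n‖ ≤ 1) →
      ∑ s ∈ W, ∑ t ∈ W, ‖UC.Dp ⌊K⌋₊ a (s - t + y)‖ ^ (2 * k) ≤ C7 * K ^ e * Ss (K ^ k) W)
    (h9 : ∀ (K T0 T : ℝ) (W : Finset ℝ), 1 ≤ K → 1 ≤ T → UC.Sep W →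
      (∀ t ∈ W, T0 ≤ t ∧ t ≤ T0 + T) →
      Ss K W ≤ C9 * (K * T) ^ e *
        (K ^ 2 * W.card + K * (W.card : ℝ) ^ 2 + K * T ^ (1 / 2 : ℝ) * (W.card : ℝ) ^ (5 / 4 : ℝ)))
    {N T0 T B : ℝ} {W : Finset ℝ} (hN : 0 < N) (hT : 1 ≤ T) (hB : 1 ≤ B) (hNB : b * N ≤ B * T)
    (hW : W.Nonempty) (hSep : UC.Sep W) (hWT : ∀ t ∈ W, T0 ≤ t ∧ t ≤ T0 + T) (y : ℝ) :
    ∑ s ∈ W, ∑ t ∈ W, ‖UC.Bl u N (s - t + y)‖ ≤
      M ^ (2 * k) * C7 * C9 * (B * T) ^ e * ((B * T) ^ k * T) ^ e *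
      (b * N * (W.card : ℝ) ^ (2 - 1 / (2 * (k : ℝ))) + Real.sqrt (b * N) * (W.card : ℝ) ^ 2 +
      Real.sqrt (b * N) * T ^ (1 / (4 * (k : ℝ))) * (W.card : ℝ) ^ (2 - 3 / (8 * (k : ℝ)))) := by
  have hcard : 0 < (W.card : ℝ) := by exact_mod_cast hW.card_pos
  have hM0 : 0 < M := by linarith
  obtain ⟨K, hK⟩ : ∃ K : ℝ, K = b * N := ⟨_, rfl⟩
  have hK0 : 0 < K := by rw [hK]; positivity
  rw [← hK] at hNB ⊢
  have hT0 : 0 < T := by linarith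
  have hB0 : 0 < B := by linarith
  by_cases hK1 : 1 ≤ K
  · -- normalised coefficients
    set al : ℕ → ℂ := fun n => ((u ((n : ℝ) / N) / M : ℝ) : ℂ) with hal
    have hal1 : ∀ n, ‖al n‖ ≤ 1 := by
      intro n
      rw [hal]
      simp only
      rw [Complex.norm_real, Real.norm_eq_abs, abs_div, abs_of_pos hM0, div_le_one hM0]
      exact hu _
    have hbl : ∀ x : ℝ, UC.Bl u N x = (M : ℂ) * UC.Dp ⌊K⌋₊ al x := by
      intro x
      rw [J2_aux.bl_eq ha hs hN, ← hK]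
      unfold UC.Dp
      rw [Finset.mul_sum]
      refine Finset.sum_congr rfl (fun n _ => ?_)
      rw [hal]
      simp only
      push_cast
      have : (M : ℂ) ≠ 0 := by exact_mod_cast hM0.ne'
      field_simp
    have hnorm : ∀ x : ℝ, ‖UC.Bl u N x‖ = M * ‖UC.Dp ⌊K⌋₊ al x‖ := by
      intro x
      rw [hbl, norm_mul, Complex.norm_real, Real.norm_eq_abs, abs_of_pos hM0]
    have hKk : 1 ≤ K ^ k := one_le_pow₀ hK1
    have s1 := hoelder hk W (fun s t => ‖UC.Bl u N (s - t + y)‖) (fun _ _ => norm_nonneg _)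
    have s2 : ∑ s ∈ W, ∑ t ∈ W, ‖UC.Bl u N (s - t + y)‖ ^ (2 * k) =
        M ^ (2 * k) * ∑ s ∈ W, ∑ t ∈ W, ‖UC.Dp ⌊K⌋₊ al (s - t + y)‖ ^ (2 * k) := by
      rw [Finset.mul_sum]
      refine Finset.sum_congr rfl (fun s _ => ?_)
      rw [Finset.mul_sum]
      refine Finset.sum_congr rfl (fun t _ => ?_)
      rw [hnorm, mul_pow]
    have s3 := h7 K y al W hK1 hal1
    have s4 := h9 (K ^ k) T0 T W hKk hT hSep hWT
    have hKe : K ^ e ≤ (B * T) ^ e := Real.rpow_le_rpow hK0.le hNB he.le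
    have hKke : (K ^ k * T) ^ e ≤ ((B * T) ^ k * T) ^ e := by
      refine Real.rpow_le_rpow (by positivity) ?_ he.le
      gcongr
    have hBTe : 1 ≤ (B * T) ^ e := Real.one_le_rpow (by nlinarith) he.le
    have hBTe2 : 1 ≤ ((B * T) ^ k * T) ^ e := by
      refine Real.one_le_rpow ?_ he.le
      have h1 : 1 ≤ (B * T) ^ k := one_le_pow₀ (by nlinarith)
      nlinarith
    refine root hk hcard ?_ hT0 hK0 ?_
    · have h1 : 1 ≤ M ^ (2 * k) := one_le_pow₀ hM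
      have h2 : 1 ≤ M ^ (2 * k) * C7 := one_le_mul_of_one_le_of_one_le h1 hC7
      have h3 : 1 ≤ M ^ (2 * k) * C7 * C9 := one_le_mul_of_one_le_of_one_le h2 hC9
      have h4 := one_le_mul_of_one_le_of_one_le h3 hBTe
      exact one_le_mul_of_one_le_of_one_le h4 hBTe2
    · refine s1.trans ?_
      rw [s2]
      refine mul_le_mul_of_nonneg_left ?_ (by positivity)
      obtain ⟨P, hP⟩ : ∃ P : ℝ, P = (K ^ k) ^ 2 * (W.card : ℝ) + K ^ k * (W.card : ℝ) ^ 2 +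
        K ^ k * T ^ (1 / 2 : ℝ) * (W.card : ℝ) ^ (5 / 4 : ℝ) := ⟨_, rfl⟩
      rw [← hP] at s4 ⊢
      have hP0 : 0 ≤ P := by rw [hP]; positivity
      calc M ^ (2 * k) * ∑ s ∈ W, ∑ t ∈ W, ‖UC.Dp ⌊K⌋₊ al (s - t + y)‖ ^ (2 * k)
          ≤ M ^ (2 * k) * (C7 * K ^ e * Ss (K ^ k) W) := by gcongr
        _ ≤ M ^ (2 * k) * (C7 * (B * T) ^ e * (C9 * ((B * T) ^ k * T) ^ e * P)) := by
            have : 0 ≤ C7 * K ^ e := by positivity
            have h5 : Ss (K ^ k) W ≤ C9 * ((B * T) ^ k * T) ^ e * P := by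
              refine s4.trans ?_
              gcongr
            have h6 : 0 ≤ Ss (K ^ k) W := J2_aux.ss_nonneg _ _
            gcongr
        _ = _ := by ring
  · -- the block vanishes
    push Not at hK1
    have hz : ∀ x : ℝ, UC.Bl u N x = 0 := by
      intro x
      rw [J2_aux.bl_eq ha hs hN, ← hK, Nat.floor_eq_zero.2 hK1]
      unfold UC.Dp
      simp
    simp only [hz, norm_zero, Finset.sum_const_zero]
    positivity

/-- one scale -/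
lemma scale {b B L D T R E1 E3 Tk : ℝ} (hb : 0 < b) (hbB : b ≤ B) (hB : 1 ≤ B) (hL : 1 ≤ L)
    (hD : 0 < D) (hDT : D ≤ T) (hE1 : 0 ≤ E1) (hE3 : 0 ≤ E3) (hTk : 0 ≤ Tk) :
    L / Real.sqrt D * (b * (D / L) * E1 + Real.sqrt (b * (D / L)) * R ^ 2 +
      Real.sqrt (b * (D / L)) * Tk * E3) ≤
    B * (Real.sqrt T * E1 + Real.sqrt L * R ^ 2 + Real.sqrt L * Tk * E3) := by
  have hL0 : 0 < L := by linarith
  have hsD : 0 < Real.sqrt D := Real.sqrt_pos.2 hD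
  have h1 : L / Real.sqrt D * (b * (D / L)) = b * Real.sqrt D := by
    have : D = Real.sqrt D * Real.sqrt D := (Real.mul_self_sqrt hD.le).symm
    field_simp
    nth_rewrite 1 [this]; ring
  have h2 : L / Real.sqrt D * Real.sqrt (b * (D / L)) = Real.sqrt b * Real.sqrt L := by
    rw [Real.sqrt_mul hb.le, Real.sqrt_div hD.le]
    have h3 : L = Real.sqrt L * Real.sqrt L := (Real.mul_self_sqrt hL0.le).symm
    have hsL : 0 < Real.sqrt L := Real.sqrt_pos.2 hL0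
    field_simp
    nth_rewrite 1 [h3]; ring
  have hsb : Real.sqrt b ≤ B := by
    rw [Real.sqrt_le_left (by linarith)]
    nlinarith
  have hsDT : Real.sqrt D ≤ Real.sqrt T := Real.sqrt_le_sqrt hDT
  calc L / Real.sqrt D * (b * (D / L) * E1 + Real.sqrt (b * (D / L)) * R ^ 2 +
      Real.sqrt (b * (D / L)) * Tk * E3)
      = (L / Real.sqrt D * (b * (D / L))) * E1 + (L / Real.sqrt D * Real.sqrt (b * (D / L))) * R ^ 2 +
        (L / Real.sqrt D * Real.sqrt (b * (D / L))) * Tk * E3 := by ring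
    _ = b * Real.sqrt D * E1 + Real.sqrt b * Real.sqrt L * R ^ 2 + Real.sqrt b * Real.sqrt L * Tk * E3 := by
        rw [h1, h2]
    _ ≤ B * Real.sqrt T * E1 + B * Real.sqrt L * R ^ 2 + B * Real.sqrt L * Tk * E3 := by gcongr
    _ = _ := by ring

end Ja_aux

open Ja_aux UC.T2_aux in
theorem iJa (h1 : UC.StDu) (h2 : UC.StRf) (h3 : UC.StPo) (h4 : UC.StN0) (h5 : UC.StNs) (h6 : UC.StBc)
    (h7 : UC.StS2) (h8 : StJ2) (h9 : StJ7) (h10 : StJ9) : StJa := by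
  intro k ε hk hε
  obtain ⟨CN, hCN1, hN⟩ := h4 om UC.isWt_om 2
  obtain ⟨c1, c2, CS, hc1, hc12, hCS1, hS⟩ := h5 om UC.isWt_om
  have hPo := h3 om UC.isWt_om
  obtain ⟨u, hu, hRf'⟩ := h2 om UC.isWt_om
  obtain ⟨CR, hCR1, hR⟩ := hRf' 2 le_rfl
  obtain ⟨_, hcont, _, CB, hCB1, hBb, _⟩ := h6 u hu
  obtain ⟨CC, hCC1, hcard⟩ := h7
  obtain ⟨a0, b0, ha0, hab0, hsupp⟩ := hu.supp
  obtain ⟨M, hM1, hM⟩ := hu.bounded
  have hb0 : 0 < b0 := ha0.trans hab0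
  have hk1 : (1 : ℝ) ≤ k := by exact_mod_cast hk
  obtain ⟨e, he⟩ : ∃ e : ℝ, e = ε / (2 * ((k : ℝ) + 2)) := ⟨_, rfl⟩
  have he0 : 0 < e := by rw [he]; positivity
  have hek : e * ((k : ℝ) + 2) = ε / 2 := by rw [he]; field_simp
  obtain ⟨C7, hC71, h7'⟩ := h9 k e hk he0
  obtain ⟨C9, hC91, h9'⟩ := h10 e he0
  have hc2 : 0 < c2 := hc1.trans hc12
  obtain ⟨c, hc⟩ : ∃ c : ℝ, c = 1 / (2 * c2) := ⟨_, rfl⟩
  have hc0 : 0 < c := by rw [hc]; positivity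
  obtain ⟨Z, hZ⟩ : ∃ Z : ℝ, Z = ∑' m : ℤ, 1 / (m : ℝ) ^ 2 := ⟨_, rfl⟩
  have hZ0 : 0 ≤ Z := by rw [hZ]; exact tsum_nonneg (fun m => by positivity)
  obtain ⟨A1, hA1⟩ : ∃ A1 : ℝ, A1 = CR + CR / c + CS * Z := ⟨_, rfl⟩
  have hKw := Kw_nonneg
  have hA10 : 0 ≤ A1 := by rw [hA1]; positivity
  obtain ⟨B, hB⟩ : ∃ B : ℝ, B = max b0 1 := ⟨_, rfl⟩
  have hB1 : 1 ≤ B := by rw [hB]; exact le_max_right _ _
  have hbB : b0 ≤ B := by rw [hB]; exact le_max_left _ _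
  have hB0 : 0 < B := by linarith
  have hlog2 : 0 < Real.log 2 := Real.log_pos (by norm_num)
  obtain ⟨C5, hC5⟩ : ∃ C5 : ℝ, C5 = 1 / (ε / 2) / Real.log 2 + 1 := ⟨_, rfl⟩
  have hC50 : 0 ≤ C5 := by rw [hC5]; positivity
  -- the constant of one scale
  obtain ⟨C10, hC10⟩ : ∃ C10 : ℝ, C10 = M ^ (2 * k) * C7 * C9 * (B ^ e * (B ^ k) ^ e) := ⟨_, rfl⟩
  have hC100 : 0 ≤ C10 := by rw [hC10]; positivity
  obtain ⟨A2, hA2⟩ : ∃ A2 : ℝ, A2 = C5 * (CR * (C10 * Kw * B)) := ⟨_, rfl⟩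
  have hA20 : 0 ≤ A2 := by rw [hA2]; positivity
  refine ⟨1 + 2 * (CN * CC + A1 + A2), ?_, ?_⟩
  · have : 0 ≤ CN * CC := by positivity
    linarith
  intro L V T0 T a W hL hT hV ha ⟨hSep, hWT, hVW⟩
  have hT0 : 0 < T := by linarith
  have hL0 : 0 < L := by linarith
  rcases W.eq_empty_or_nonempty with hWe | hWne
  · have hz : (W.card : ℝ) = 0 := by rw [hWe]; simp
    have hl : V ^ 2 * (W.card : ℝ) ^ 2 = 0 := by rw [hz]; ring
    rw [hl]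
    have : 0 ≤ CN * CC := by positivity
    positivity
  obtain ⟨R, hRdef⟩ : ∃ R : ℝ, R = (W.card : ℝ) := ⟨_, rfl⟩
  have hR1 : 1 ≤ R := by
    rw [hRdef]; exact_mod_cast hWne.card_pos
  have hR0 : 0 < R := by linarith
  obtain ⟨D0, hD0⟩ : ∃ D0 : ℝ, D0 = max 1 (c * L) := ⟨_, rfl⟩
  have hD01 : 1 ≤ D0 := by rw [hD0]; exact le_max_left _ _
  have hD0L : c * L ≤ D0 := by rw [hD0]; exact le_max_right _ _
  obtain ⟨I0, hI0⟩ : ∃ I0 : ℕ, I0 = ⌊Real.log T / Real.log 2⌋₊ + 1 := ⟨_, rfl⟩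
  obtain ⟨S, hSdef⟩ : ∃ S : Finset ℕ, S = (Finset.range I0).filter (fun i => (2 : ℝ) ^ i * D0 ≤ T) := ⟨_, rfl⟩
  have hScard : (S.card : ℝ) ≤ C5 * T ^ (ε / 2) := by
    have h1 : (S.card : ℝ) ≤ I0 := by
      rw [hSdef]
      exact_mod_cast (Finset.card_filter_le _ _).trans (by simp)
    have h2 : (I0 : ℝ) ≤ Real.log T / Real.log 2 + 1 := by
      rw [hI0]; push_cast
      have := Nat.floor_le (div_nonneg (Real.log_nonneg hT) hlog2.le)
      linarith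
    have h3 : Real.log T ≤ T ^ (ε / 2) / (ε / 2) := Real.log_le_rpow_div hT0.le (by positivity)
    have h4 : 1 ≤ T ^ (ε / 2) := Real.one_le_rpow hT (by positivity)
    calc (S.card : ℝ) ≤ Real.log T / Real.log 2 + 1 := h1.trans h2
      _ ≤ T ^ (ε / 2) / (ε / 2) / Real.log 2 + T ^ (ε / 2) := by gcongr
      _ = C5 * T ^ (ε / 2) := by rw [hC5]; ring
  -- bound for one pair
  have hpair : ∀ s ∈ W, ∀ t ∈ W, ‖UC.Bl om L (s - t)‖ ≤
      CN * L * (1 / (1 + (s - t) ^ 2)) + A1 +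
        ∑ i ∈ S, CR * (L / Real.sqrt (2 ^ i * D0) * G1 u (2 ^ i * D0 / L) (s - t)) := by
    intro s hs t ht
    have hxT : |s - t| ≤ T := by
      rw [abs_le]
      constructor <;> linarith [(hWT s hs).1, (hWT s hs).2, (hWT t ht).1, (hWT t ht).2]
    have hsum0 : 0 ≤ ∑ i ∈ S, CR * (L / Real.sqrt (2 ^ i * D0) * G1 u (2 ^ i * D0 / L) (s - t)) := by
      refine Finset.sum_nonneg (fun i _ => ?_)
      have := G1_nonneg u (2 ^ i * D0 / L) (s - t)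
      positivity
    have hnn : 0 ≤ CN * L * (1 / (1 + (s - t) ^ 2)) := by positivity
    by_cases hnear : |s - t| ≤ c * L
    · obtain ⟨hsm, hBl⟩ := hPo L (s - t) hL0
      have h1 := near hCN1 hCS1 hsm hBl (hN L (s - t) hL0) (fun m hm0 => by
        refine hS L (s - t) m hL0 hm0 ?_
        rintro ⟨_, h, _⟩
        have hm1 : (1 : ℝ) ≤ |(m : ℝ)| := by
          have : (1 : ℤ) ≤ |m| := Int.one_le_abs hm0
          exact_mod_cast this
        have hx : c2 * |s - t| ≤ L / 2 := by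
          calc c2 * |s - t| ≤ c2 * (c * L) := by gcongr
            _ = L / 2 := by rw [hc]; field_simp
        have hm2 : L ≤ |(m : ℝ)| * L := le_mul_of_one_le_left hL0.le hm1
        linarith) hL
      rw [← hZ] at h1
      have h3 : CS * Z ≤ A1 := by
        rw [hA1]
        have : 0 ≤ CR + CR / c := by positivity
        linarith
      linarith
    · push Not at hnear
      have hne : s ≠ t := by
        rintro rfl
        rw [sub_self, abs_zero] at hnear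
        have := mul_pos hc0 hL0
        linarith
      have h1x : 1 ≤ |s - t| := hSep s hs t ht hne
      have hD0x : D0 ≤ |s - t| := by rw [hD0]; exact max_le h1x hnear.le
      obtain ⟨i, hi1, hi2⟩ := exists_nat_pow_near (x := |s - t| / D0) (y := (2 : ℝ))
        (by rw [le_div_iff₀ (by linarith)]; linarith) (by norm_num)
      have hD0p : 0 < D0 := by linarith
      rw [le_div_iff₀ hD0p] at hi1
      rw [div_lt_iff₀ hD0p] at hi2
      have hiT : (2 : ℝ) ^ i * D0 ≤ T := hi1.trans hxT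
      have hiS : i ∈ S := by
        rw [hSdef, Finset.mem_filter, Finset.mem_range]
        refine ⟨?_, hiT⟩
        rw [hI0]
        have h2i : (2 : ℝ) ^ i ≤ T := (le_mul_of_one_le_right (by positivity) hD01).trans hiT
        have h3 : (i : ℝ) * Real.log 2 ≤ Real.log T := by
          rw [← Real.log_pow]
          exact Real.log_le_log (by positivity) h2i
        have h4 : i ≤ ⌊Real.log T / Real.log 2⌋₊ := by
          apply Nat.le_floor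
          rw [le_div_iff₀ hlog2]; exact h3
        omega
      have h2i1 : (1 : ℝ) ≤ 2 ^ i := one_le_pow₀ (by norm_num)
      have h5 := far (D := 2 ^ i * D0) hCR1 hc0 hR hL
        (one_le_mul_of_one_le_of_one_le h2i1 hD01)
        (hD0L.trans (le_mul_of_one_le_left hD0p.le h2i1)) hi1 (by rw [pow_succ] at hi2; linarith)
      have h6 : CR * (L / Real.sqrt (2 ^ i * D0) * G1 u (2 ^ i * D0 / L) (s - t)) ≤
          ∑ i ∈ S, CR * (L / Real.sqrt (2 ^ i * D0) * G1 u (2 ^ i * D0 / L) (s - t)) := by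
        refine Finset.single_le_sum
          (f := fun i : ℕ => CR * (L / Real.sqrt (2 ^ i * D0) * G1 u (2 ^ i * D0 / L) (s - t)))
          (fun j _ => ?_) hiS
        have := G1_nonneg u (2 ^ j * D0 / L) (s - t)
        positivity
      have h7 : CR + CR / c ≤ A1 := by
        rw [hA1]
        have : 0 ≤ CS * Z := by positivity
        linarith
      linarith
  -- sums over the pairs for one scale
  obtain ⟨Q, hQ⟩ : ∃ Q : ℝ, Q = Real.sqrt T * R ^ (2 - 1 / (2 * (k : ℝ))) + Real.sqrt L * R ^ 2 +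
    Real.sqrt L * T ^ (1 / (4 * (k : ℝ))) * R ^ (2 - 3 / (8 * (k : ℝ))) := ⟨_, rfl⟩
  have hQ0 : 0 ≤ Q := by rw [hQ]; positivity
  have hscale : ∀ i ∈ S, ∑ s ∈ W, ∑ t ∈ W, (L / Real.sqrt (2 ^ i * D0) * G1 u (2 ^ i * D0 / L) (s - t)) ≤
      C10 * Kw * B * T ^ (ε / 2) * Q := by
    intro i hi
    rw [hSdef, Finset.mem_filter] at hi
    have hDT : (2 : ℝ) ^ i * D0 ≤ T := hi.2
    obtain ⟨D, hD⟩ : ∃ D : ℝ, D = 2 ^ i * D0 := ⟨_, rfl⟩
    rw [← hD] at hDT ⊢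
    have hD0' : 0 < D := by rw [hD]; positivity
    have hNp : 0 < D / L := by positivity
    have hNT : D / L ≤ T := (div_le_self hD0'.le hL).trans hDT
    have hNB : b0 * (D / L) ≤ B * T := by gcongr
    have hBd := pairs ha0 hb0 hM1 hsupp hM hk he0 hC71 hC91 h7' h9' hNp hT hB1 hNB hWne hSep hWT
    rw [← hRdef] at hBd
    have hG := sum_G1 hcont (fun N t hN => hBb N t hN) hNp hBd
    have hcst : M ^ (2 * k) * C7 * C9 * (B * T) ^ e * ((B * T) ^ k * T) ^ e = C10 * T ^ (ε / 2) := by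
      rw [hC10, mul_pow, Real.mul_rpow hB0.le hT0.le, mul_assoc (B ^ k), ← pow_succ,
        Real.mul_rpow (by positivity) (by positivity), ← Real.rpow_natCast T (k + 1), ← Real.rpow_mul hT0.le]
      have h12 : T ^ e * T ^ (((k + 1 : ℕ) : ℝ) * e) = T ^ (ε / 2) := by
        rw [← Real.rpow_add hT0, ← hek]
        congr 1; push_cast; ring
      rw [← h12]; ring
    have hsc := scale (R := R) (Tk := T ^ (1 / (4 * (k : ℝ)))) (E1 := R ^ (2 - 1 / (2 * (k : ℝ))))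
      (E3 := R ^ (2 - 3 / (8 * (k : ℝ)))) hb0 hbB hB1 hL hD0' hDT (by positivity) (by positivity) (by positivity)
    rw [← hQ] at hsc
    rw [hcst] at hG
    obtain ⟨P, hP⟩ : ∃ P : ℝ, P = b0 * (D / L) * R ^ (2 - 1 / (2 * (k : ℝ))) +
      Real.sqrt (b0 * (D / L)) * R ^ 2 +
      Real.sqrt (b0 * (D / L)) * T ^ (1 / (4 * (k : ℝ))) * R ^ (2 - 3 / (8 * (k : ℝ))) := ⟨_, rfl⟩
    rw [← hP] at hsc hG
    simp only [← Finset.mul_sum]
    calc L / Real.sqrt D * ∑ s ∈ W, ∑ t ∈ W, G1 u (D / L) (s - t)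
        ≤ L / Real.sqrt D * (C10 * T ^ (ε / 2) * P * Kw) := by gcongr
      _ = C10 * Kw * T ^ (ε / 2) * (L / Real.sqrt D * P) := by ring
      _ ≤ C10 * Kw * T ^ (ε / 2) * (B * Q) := by gcongr
      _ = _ := by ring
  have hTe : 1 ≤ T ^ ε := Real.one_le_rpow hT hε.le
  have hTT : T ^ (ε / 2) * T ^ (ε / 2) = T ^ ε := by
    rw [← Real.rpow_add hT0]; congr 1; ring
  have hTh : 0 ≤ T ^ (ε / 2) := by positivity
  -- the sum over all pairs
  have step1 : ∑ s ∈ W, ∑ t ∈ W, ‖UC.Bl om L (s - t)‖ ≤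
      CN * L * (∑ s ∈ W, ∑ t ∈ W, 1 / (1 + (s - t) ^ 2)) + A1 * R ^ 2 +
      ∑ i ∈ S, CR * ∑ s ∈ W, ∑ t ∈ W, (L / Real.sqrt (2 ^ i * D0) * G1 u (2 ^ i * D0 / L) (s - t)) := by
    calc ∑ s ∈ W, ∑ t ∈ W, ‖UC.Bl om L (s - t)‖
        ≤ ∑ s ∈ W, ∑ t ∈ W, (CN * L * (1 / (1 + (s - t) ^ 2)) + A1 +
          ∑ i ∈ S, CR * (L / Real.sqrt (2 ^ i * D0) * G1 u (2 ^ i * D0 / L) (s - t))) :=
          Finset.sum_le_sum (fun s hs => Finset.sum_le_sum (fun t ht => hpair s hs t ht))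
      _ = _ := by
          simp only [Finset.sum_add_distrib, Finset.sum_const, nsmul_eq_mul, ← hRdef]
          congr 1
          · congr 1
            · simp only [Finset.mul_sum]
            · ring
          · simp only [Finset.mul_sum]
            symm
            rw [Finset.sum_comm]
            refine Finset.sum_congr rfl (fun s _ => ?_)
            rw [Finset.sum_comm]
  have step2 : ∑ i ∈ S, CR * ∑ s ∈ W, ∑ t ∈ W,
      (L / Real.sqrt (2 ^ i * D0) * G1 u (2 ^ i * D0 / L) (s - t)) ≤ A2 * T ^ ε * Q := by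
    calc ∑ i ∈ S, CR * ∑ s ∈ W, ∑ t ∈ W, (L / Real.sqrt (2 ^ i * D0) * G1 u (2 ^ i * D0 / L) (s - t))
        ≤ ∑ i ∈ S, CR * (C10 * Kw * B * T ^ (ε / 2) * Q) := by
          refine Finset.sum_le_sum (fun i hi => ?_)
          have := hscale i hi
          gcongr
      _ = S.card * (CR * (C10 * Kw * B * T ^ (ε / 2) * Q)) := by
          rw [Finset.sum_const, nsmul_eq_mul]
      _ ≤ C5 * T ^ (ε / 2) * (CR * (C10 * Kw * B * T ^ (ε / 2) * Q)) := by gcongr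
      _ = C5 * (CR * (C10 * Kw * B)) * (T ^ (ε / 2) * T ^ (ε / 2)) * Q := by ring
      _ = _ := by rw [hTT, ← hA2]
  have step3 : ∑ s ∈ W, ∑ t ∈ W, 1 / (1 + (s - t) ^ 2) ≤ CC * R := by
    calc ∑ s ∈ W, ∑ t ∈ W, 1 / (1 + (s - t) ^ 2) ≤ ∑ s ∈ W, CC :=
          Finset.sum_le_sum (fun s _ => (hcard W hSep).1 s)
      _ = CC * R := by rw [Finset.sum_const, nsmul_eq_mul, ← hRdef]; ring
  obtain ⟨g, hg1, hg2⟩ := h1.1 L V a W hL hV.le ha hVW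
  have step4 : (∑ s ∈ W, ∑ t ∈ W, (starRingEnd ℂ) (g s) * UC.Bl om L (s - t) * g t).re ≤
      ∑ s ∈ W, ∑ t ∈ W, ‖UC.Bl om L (s - t)‖ := by
    refine (Complex.re_le_norm _).trans ((norm_sum_le _ _).trans ?_)
    refine Finset.sum_le_sum (fun s _ => (norm_sum_le _ _).trans ?_)
    refine Finset.sum_le_sum (fun t _ => ?_)
    rw [norm_mul, norm_mul, RCLike.norm_conj, hg1, hg1, one_mul, mul_one]
  rw [← hRdef] at hg2 ⊢
  have hLT : T ^ ε ≤ (L * T) ^ ε := Real.rpow_le_rpow hT0.le (le_mul_of_one_le_left hT0.le hL) hε.le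
  have hLT1 : 1 ≤ (L * T) ^ ε := hTe.trans hLT
  have hsL1 : 1 ≤ Real.sqrt L := by
    rw [show (1 : ℝ) = Real.sqrt 1 by simp]
    exact Real.sqrt_le_sqrt hL
  have hRQ : R ^ 2 ≤ Q := by
    rw [hQ]
    have h11 : R ^ 2 ≤ Real.sqrt L * R ^ 2 := le_mul_of_one_le_left (sq_nonneg R) hsL1
    have h12 : 0 ≤ Real.sqrt T * R ^ (2 - 1 / (2 * (k : ℝ))) := by positivity
    have h13 : 0 ≤ Real.sqrt L * T ^ (1 / (4 * (k : ℝ))) * R ^ (2 - 3 / (8 * (k : ℝ))) := by positivity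
    linarith
  have hL32 : L ^ (3 / 2 : ℝ) = L * Real.sqrt L := by
    rw [Real.sqrt_eq_rpow, ← Real.rpow_one_add' hL0.le (by norm_num)]
    norm_num
  have hT12 : T ^ (1 / 2 : ℝ) = Real.sqrt T := (Real.sqrt_eq_rpow T).symm
  have hfin : L ^ 2 * R + L * T ^ (1 / 2 : ℝ) * R ^ (2 - 1 / (2 * (k : ℝ))) +
      L ^ (3 / 2 : ℝ) * R ^ 2 + L ^ (3 / 2 : ℝ) * T ^ (1 / (4 * (k : ℝ))) * R ^ (2 - 3 / (8 * (k : ℝ))) =
      L * (L * R + Q) := by
    rw [hL32, hT12, hQ]; ring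
  rw [hfin]
  have hCC0 : 0 ≤ CN * CC := by positivity
  have hS1 : ∑ s ∈ W, ∑ t ∈ W, ‖UC.Bl om L (s - t)‖ ≤ (CN * CC + A1 + A2) * (L * T) ^ ε * (L * R + Q) := by
    calc ∑ s ∈ W, ∑ t ∈ W, ‖UC.Bl om L (s - t)‖
        ≤ CN * L * (CC * R) + A1 * Q + A2 * T ^ ε * Q := by
          refine step1.trans ?_
          gcongr
      _ ≤ CN * CC * ((L * T) ^ ε * (L * R + Q)) + A1 * ((L * T) ^ ε * (L * R + Q)) +
          A2 * ((L * T) ^ ε * (L * R + Q)) := by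
          have hLR : 0 ≤ L * R := by positivity
          have x1 : L * R ≤ (L * T) ^ ε * (L * R + Q) := by
            calc L * R = 1 * (L * R + 0) := by ring
              _ ≤ (L * T) ^ ε * (L * R + Q) := by gcongr
          have x2 : Q ≤ (L * T) ^ ε * (L * R + Q) := by
            calc Q = 1 * (0 + Q) := by ring
              _ ≤ (L * T) ^ ε * (L * R + Q) := by gcongr
          have x3 : T ^ ε * Q ≤ (L * T) ^ ε * (L * R + Q) := by
            calc T ^ ε * Q = T ^ ε * (0 + Q) := by ring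
              _ ≤ (L * T) ^ ε * (L * R + Q) := by gcongr
          have y1 : CN * L * (CC * R) = CN * CC * (L * R) := by ring
          have y3 : A2 * T ^ ε * Q = A2 * (T ^ ε * Q) := by ring
          rw [y1, y3]
          gcongr
      _ = _ := by ring
  calc V ^ 2 * R ^ 2 ≤ 2 * L * (∑ s ∈ W, ∑ t ∈ W, (starRingEnd ℂ) (g s) * UC.Bl om L (s - t) * g t).re := hg2
    _ ≤ 2 * L * ((CN * CC + A1 + A2) * (L * T) ^ ε * (L * R + Q)) := by
        gcongr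
        exact step4.trans hS1
    _ = (2 * (CN * CC + A1 + A2)) * (L * T) ^ ε * (L * (L * R + Q)) := by ring
    _ ≤ (1 + 2 * (CN * CC + A1 + A2)) * (L * T) ^ ε * (L * (L * R + Q)) := by
        have : 0 ≤ (L * T) ^ ε := by positivity
        have : 0 ≤ L * (L * R + Q) := by positivity
        gcongr
        linarith

end Pool.Agent.Work.MP_a8fbd7_nt.OX
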